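import Mathlib

set_option autoImplicit false

namespace Pool.Agent.Helper93.AS

open Finset

/-- Number of unordered representations `n = a + b`, `a ≤ b`, `a, b ∈ A`. -/
def rep (A : Finset ℕ) (n : ℕ) : ℕ :=
  ((A ×ˢ A).filter (fun p => p.1 ≤ p.2 ∧ p.1 + p.2 = n)).card

/-- Elements of `A` taking part in a representation of `n₀`. -/
def T (A : Finset ℕ) (n₀ : ℕ) : Finset ℕ := A.filter (fun a => ∃ b ∈ A, a + b = n₀)

/-- the window at `j` of length `u` -/
def W (A : Finset ℕ) (u j : ℕ) : Finset ℕ := A.filter (fun a => a ≤ j ∧ j < a + u)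

lemma struct {A : Finset ℕ} {n₀ : ℕ} (h : ∀ n, n ≠ n₀ → rep A n ≤ 1) {a b c d : ℕ}
    (ha : a ∈ A) (hb : b ∈ A) (hc : c ∈ A) (hd : d ∈ A) (he : a + d = c + b)
    (hab : a ≠ b) (hac : a ≠ c) : a + d = n₀ := by
  by_contra hne
  have h1 := h (a + d) hne
  rw [rep, Finset.card_le_one] at h1
  have m1 : (min a d, max a d) ∈ (A ×ˢ A).filter (fun p => p.1 ≤ p.2 ∧ p.1 + p.2 = a + d) := by
    rw [mem_filter, mem_product]
    refine ⟨⟨?_, ?_⟩, ?_, ?_⟩
    · rcases min_choice a d with h | h <;> rw [h] <;> assumption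
    · rcases max_choice a d with h | h <;> rw [h] <;> assumption
    · exact min_le_max
    · exact min_add_max a d
  have m2 : (min c b, max c b) ∈ (A ×ˢ A).filter (fun p => p.1 ≤ p.2 ∧ p.1 + p.2 = a + d) := by
    rw [mem_filter, mem_product]
    refine ⟨⟨?_, ?_⟩, ?_, ?_⟩
    · rcases min_choice c b with h | h <;> rw [h] <;> assumption
    · rcases max_choice c b with h | h <;> rw [h] <;> assumption
    · exact min_le_max
    · rw [he]; exact min_add_max c b
  have h2 := h1 _ m1 _ m2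
  rw [Prod.mk.injEq] at h2
  omega

/-- weight of an ordered pair -/
def wt (A : Finset ℕ) (n₀ : ℕ) (p : ℕ × ℕ) : ℕ := if p.1 ∈ T A n₀ ∧ p.2 ∈ T A n₀ then 1 else 2

lemma wt_le (A : Finset ℕ) (n₀ : ℕ) (p : ℕ × ℕ) : wt A n₀ p ≤ 2 := by
  rw [wt]; split_ifs <;> omega

lemma diff_le {A : Finset ℕ} {n₀ : ℕ} (h : ∀ n, n ≠ n₀ → rep A n ≤ 1) {δ : ℕ} (hδ : 1 ≤ δ) :
    ∑ p ∈ (A ×ˢ A).filter (fun p => p.1 = p.2 + δ), wt A n₀ p ≤ 2 := by
  set S := (A ×ˢ A).filter (fun p => p.1 = p.2 + δ) with hS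
  by_cases hc : S.card ≤ 1
  · calc ∑ p ∈ S, wt A n₀ p ≤ S.card • 2 := Finset.sum_le_card_nsmul _ _ _ (fun p _ => wt_le A n₀ p)
      _ ≤ 1 • 2 := by
        rw [smul_eq_mul, smul_eq_mul]; omega
      _ = 2 := rfl
  · push Not at hc
    obtain ⟨p, hp, q, hq, hpq⟩ := Finset.one_lt_card.1 hc
    have key : ∀ x ∈ S, ∀ y ∈ S, x ≠ y → x.1 + y.2 = n₀ := by
      intro x hx y hy hxy
      rw [hS, mem_filter, mem_product] at hx hy
      refine struct h hx.1.1 hx.1.2 hy.1.1 hy.1.2 (by omega) (by omega) ?_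
      intro h1
      apply hxy
      have h2 : x.2 = y.2 := by omega
      exact Prod.ext h1 h2
    have hsub : S ⊆ {p, q} := by
      intro x hx
      rw [mem_insert, mem_singleton]
      by_contra hcon
      push Not at hcon
      have h1 := key x hx p hp hcon.1
      have h2 := key x hx q hq hcon.2
      have h3 : p.2 = q.2 := by omega
      have hp' := (mem_filter.1 hp).2
      have hq' := (mem_filter.1 hq).2
      apply hpq
      exact Prod.ext (by omega) h3
    have hpqn := key p hp q hq hpq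
    have hp' := mem_filter.1 hp
    have hq' := mem_filter.1 hq
    rw [mem_product] at hp' hq'
    have ep := hp'.2
    have eq := hq'.2
    have hqpn : q.1 + p.2 = n₀ := by omega
    have hpT : p.1 ∈ T A n₀ ∧ p.2 ∈ T A n₀ := by
      rw [T, mem_filter, mem_filter]
      refine ⟨⟨hp'.1.1, q.2, hq'.1.2, hpqn⟩, hp'.1.2, q.1, hq'.1.1, by omega⟩
    have hqT : q.1 ∈ T A n₀ ∧ q.2 ∈ T A n₀ := by
      rw [T, mem_filter, mem_filter]
      refine ⟨⟨hq'.1.1, p.2, hp'.1.2, hqpn⟩, hq'.1.2, p.1, hp'.1.1, by omega⟩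
    calc ∑ x ∈ S, wt A n₀ x ≤ ∑ x ∈ ({p, q} : Finset (ℕ × ℕ)), wt A n₀ x :=
          Finset.sum_le_sum_of_subset hsub
      _ = wt A n₀ p + wt A n₀ q := Finset.sum_pair hpq
      _ = 2 := by
        rw [wt, wt, if_pos hpT, if_pos hqT]

lemma tri_sum (u M : ℕ) :
    2 * ∑ i ∈ range M, (u - (i + 1)) + (u - M) * (u - M - 1) = u * (u - 1) := by
  induction M with
  | zero => simp
  | succ M ih =>
    rw [Finset.sum_range_succ]
    rw [← ih]
    have e : u - (M + 1) = (u - M) - 1 := by omega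
    rw [e]
    set v := u - M
    rcases v with _ | v
    · simp
    · rcases v with _ | v
      · simp
      · have e1 : v + 1 + 1 - 1 = v + 1 := rfl
        have e2 : v + 1 - 1 = v := rfl
        rw [e1, e2]
        ring

/-- overlap kernel -/
def K (N u : ℕ) (p : ℕ × ℕ) : ℕ :=
  ((range (N + u)).filter (fun j => (p.1 ≤ j ∧ j < p.1 + u) ∧ (p.2 ≤ j ∧ j < p.2 + u))).card

lemma K_le (N u : ℕ) (p : ℕ × ℕ) : K N u p ≤ u - (p.1 - p.2) := by
  rw [K]
  rcases le_total p.2 p.1 with hle | hle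
  · calc _ ≤ (Finset.Ico p.1 (p.2 + u)).card := by
          apply Finset.card_le_card
          intro j hj
          rw [mem_filter] at hj
          rw [mem_Ico]
          omega
      _ = p.2 + u - p.1 := Nat.card_Ico _ _
      _ ≤ u - (p.1 - p.2) := by omega
  · calc _ ≤ (Finset.Ico p.1 (p.1 + u)).card := by
          apply Finset.card_le_card
          intro j hj
          rw [mem_filter] at hj
          rw [mem_Ico]
          omega
      _ = p.1 + u - p.1 := Nat.card_Ico _ _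
      _ ≤ u - (p.1 - p.2) := by omega

lemma K_swap (N u : ℕ) (p : ℕ × ℕ) : K N u p.swap = K N u p := by
  rw [K, K]
  congr 1
  apply Finset.filter_congr
  intro j _
  simp only [Prod.fst_swap, Prod.snd_swap]
  tauto

lemma wt_swap (A : Finset ℕ) (n₀ : ℕ) (p : ℕ × ℕ) : wt A n₀ p.swap = wt A n₀ p := by
  rw [wt, wt]
  simp only [Prod.fst_swap, Prod.snd_swap]
  congr 1
  rw [and_comm]

lemma upper_sum {A : Finset ℕ} {n₀ N : ℕ} (hA : A ⊆ Icc 1 N)
    (h : ∀ n, n ≠ n₀ → rep A n ≤ 1) (u : ℕ) :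
    ∑ p ∈ (A ×ˢ A).filter (fun p => p.2 < p.1), wt A n₀ p * K N u p ≤ u * (u - 1) := by
  set D := (A ×ˢ A).filter (fun p => p.2 < p.1) with hD
  have hmaps : ∀ p ∈ D, p.1 - p.2 - 1 ∈ range N := by
    intro p hp
    rw [hD, mem_filter, mem_product] at hp
    have := mem_Icc.1 (hA hp.1.1)
    rw [mem_range]
    omega
  rw [← Finset.sum_fiberwise_of_maps_to hmaps]
  calc ∑ i ∈ range N, ∑ p ∈ D with p.1 - p.2 - 1 = i, wt A n₀ p * K N u p
      ≤ ∑ i ∈ range N, 2 * (u - (i + 1)) := by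
        apply Finset.sum_le_sum
        intro i _
        calc ∑ p ∈ D with p.1 - p.2 - 1 = i, wt A n₀ p * K N u p
            ≤ ∑ p ∈ D with p.1 - p.2 - 1 = i, wt A n₀ p * (u - (i + 1)) := by
              apply Finset.sum_le_sum
              intro p hp
              rw [mem_filter, hD, mem_filter] at hp
              have h1 := K_le N u p
              have h2 : p.1 - p.2 = i + 1 := by omega
              rw [h2] at h1
              exact Nat.mul_le_mul_left _ h1
          _ = (∑ p ∈ D with p.1 - p.2 - 1 = i, wt A n₀ p) * (u - (i + 1)) := by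
              rw [Finset.sum_mul]
          _ ≤ 2 * (u - (i + 1)) := by
              apply Nat.mul_le_mul_right
              refine le_trans (Finset.sum_le_sum_of_subset ?_) (diff_le h (δ := i + 1) (by omega))
              intro p hp
              rw [mem_filter, hD, mem_filter] at hp
              rw [mem_filter]
              refine ⟨hp.1.1, ?_⟩
              omega
    _ = 2 * ∑ i ∈ range N, (u - (i + 1)) := by rw [Finset.mul_sum]
    _ ≤ u * (u - 1) := by
      have := tri_sum u N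
      omega

lemma total_sum {A : Finset ℕ} {n₀ N : ℕ} (hA : A ⊆ Icc 1 N)
    (h : ∀ n, n ≠ n₀ → rep A n ≤ 1) (u : ℕ) :
    ∑ p ∈ A ×ˢ A, wt A n₀ p * K N u p ≤ 2 * u * A.card + 2 * (u * (u - 1)) := by
  have hsplit : ∑ p ∈ A ×ˢ A, wt A n₀ p * K N u p
      = ∑ p ∈ (A ×ˢ A).filter (fun p => p.2 < p.1), wt A n₀ p * K N u p
        + (∑ p ∈ (A ×ˢ A).filter (fun p => p.1 < p.2), wt A n₀ p * K N u p
        + ∑ p ∈ (A ×ˢ A).filter (fun p => p.1 = p.2), wt A n₀ p * K N u p) := by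
    rw [← Finset.sum_filter_add_sum_filter_not (A ×ˢ A) (fun p => p.2 < p.1)]
    congr 1
    rw [← Finset.sum_filter_add_sum_filter_not ((A ×ˢ A).filter (fun p => ¬ p.2 < p.1))
      (fun p => p.1 < p.2)]
    congr 1
    · apply Finset.sum_congr _ (fun _ _ => rfl)
      ext p
      rw [mem_filter, mem_filter, mem_filter]
      constructor
      · rintro ⟨⟨h1, h2⟩, h3⟩; exact ⟨h1, h3⟩
      · rintro ⟨h1, h3⟩; exact ⟨⟨h1, by omega⟩, h3⟩
    · apply Finset.sum_congr _ (fun _ _ => rfl)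
      ext p
      rw [mem_filter, mem_filter, mem_filter]
      constructor
      · rintro ⟨⟨h1, h2⟩, h3⟩; exact ⟨h1, by omega⟩
      · rintro ⟨h1, h3⟩; exact ⟨⟨h1, by omega⟩, by omega⟩
  have h1 := upper_sum hA h u
  have h2 : ∑ p ∈ (A ×ˢ A).filter (fun p => p.1 < p.2), wt A n₀ p * K N u p ≤ u * (u - 1) := by
    refine le_trans (le_of_eq ?_) h1
    apply Finset.sum_nbij' (fun p => p.swap) (fun p => p.swap)
    · intro p hp
      rw [mem_filter, mem_product] at hp ⊢
      exact ⟨⟨hp.1.2, hp.1.1⟩, hp.2⟩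
    · intro p hp
      rw [mem_filter, mem_product] at hp ⊢
      exact ⟨⟨hp.1.2, hp.1.1⟩, hp.2⟩
    · intro p _; exact Prod.swap_swap p
    · intro p _; exact Prod.swap_swap p
    · intro p _
      rw [K_swap, wt_swap]
  have h3 : ∑ p ∈ (A ×ˢ A).filter (fun p => p.1 = p.2), wt A n₀ p * K N u p ≤ 2 * u * A.card := by
    calc ∑ p ∈ (A ×ˢ A).filter (fun p => p.1 = p.2), wt A n₀ p * K N u p
        ≤ ((A ×ˢ A).filter (fun p => p.1 = p.2)).card • (2 * u) := by
          apply Finset.sum_le_card_nsmul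
          intro p _
          have h1 := K_le N u p
          exact Nat.mul_le_mul (wt_le A n₀ p) (le_trans h1 (Nat.sub_le _ _))
      _ ≤ A.card * (2 * u) := by
          rw [smul_eq_mul]
          apply Nat.mul_le_mul_right
          apply Finset.card_le_card_of_injOn (fun p => p.1)
          · intro p hp
            have hp' := mem_filter.1 (Finset.mem_coe.1 hp)
            exact Finset.mem_coe.2 (mem_product.1 hp'.1).1
          · intro p hp q hq hpq
            have hp' := (mem_filter.1 (Finset.mem_coe.1 hp)).2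
            have hq' := (mem_filter.1 (Finset.mem_coe.1 hq)).2
            exact Prod.ext hpq (by simp only at hpq; omega)
      _ = 2 * u * A.card := by ring
  rw [hsplit]
  omega

/-- windows: second-moment identity -/
lemma windows_eq (A : Finset ℕ) (n₀ N u : ℕ) :
    ∑ j ∈ range (N + u), ∑ p ∈ W A u j ×ˢ W A u j, wt A n₀ p
      = ∑ p ∈ A ×ˢ A, wt A n₀ p * K N u p := by
  have e1 : ∀ j, ∑ p ∈ W A u j ×ˢ W A u j, wt A n₀ p
      = ∑ p ∈ A ×ˢ A, if ((p.1 ≤ j ∧ j < p.1 + u) ∧ (p.2 ≤ j ∧ j < p.2 + u)) then wt A n₀ p else 0 := by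
    intro j
    rw [← Finset.sum_filter]
    apply Finset.sum_congr _ (fun _ _ => rfl)
    ext p
    simp only [W, mem_product, mem_filter]
    tauto
  rw [Finset.sum_congr rfl (fun j _ => e1 j), Finset.sum_comm]
  apply Finset.sum_congr rfl
  intro p _
  rw [← Finset.sum_filter, Finset.sum_const, smul_eq_mul, K, mul_comm]

lemma inner_eq (A : Finset ℕ) (n₀ u j : ℕ) :
    ∑ p ∈ W A u j ×ˢ W A u j, wt A n₀ p + (W (T A n₀) u j).card ^ 2
      = 2 * (W A u j).card ^ 2 := by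
  have e0 : (W (T A n₀) u j).card ^ 2
      = ∑ p ∈ W A u j ×ˢ W A u j, if (p.1 ∈ T A n₀ ∧ p.2 ∈ T A n₀) then 1 else 0 := by
    rw [← Finset.sum_filter, Finset.sum_const, smul_eq_mul, mul_one, sq, ← Finset.card_product]
    congr 1
    ext p
    simp only [W, T, mem_product, mem_filter]
    tauto
  have e2 : 2 * (W A u j).card ^ 2 = ∑ p ∈ W A u j ×ˢ W A u j, 2 := by
    rw [Finset.sum_const, smul_eq_mul, sq, ← Finset.card_product]; ring
  rw [e0, e2, ← Finset.sum_add_distrib]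
  apply Finset.sum_congr rfl
  intro p _
  rw [wt]
  split_ifs <;> rfl

/-- first moment -/
lemma first_moment {A : Finset ℕ} {N : ℕ} (hA : A ⊆ Icc 1 N) (u : ℕ) :
    ∑ j ∈ range (N + u), (W A u j).card = u * A.card := by
  have e1 : ∀ j, (W A u j).card = ∑ a ∈ A, if (a ≤ j ∧ j < a + u) then 1 else 0 := by
    intro j
    rw [W, Finset.card_filter]
  rw [Finset.sum_congr rfl (fun j _ => e1 j), Finset.sum_comm]
  have e2 : ∀ a ∈ A, ∑ j ∈ range (N + u), (if (a ≤ j ∧ j < a + u) then 1 else 0) = u := by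
    intro a ha
    rw [← Finset.card_filter]
    have : (range (N + u)).filter (fun j => a ≤ j ∧ j < a + u) = Ico a (a + u) := by
      ext j
      have := mem_Icc.1 (hA ha)
      rw [mem_filter, mem_range, mem_Ico]
      omega
    rw [this, Nat.card_Ico]
    omega
  rw [Finset.sum_congr rfl e2, Finset.sum_const, smul_eq_mul, mul_comm]

/-- the basic window inequality -/
lemma basic {A : Finset ℕ} {n₀ N : ℕ} (hA : A ⊆ Icc 1 N)
    (h : ∀ n, n ≠ n₀ → rep A n ≤ 1) (u : ℕ) :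
    ∑ j ∈ range (N + u), (2 * ((W A u j).card : ℝ) ^ 2 - ((W (T A n₀) u j).card : ℝ) ^ 2)
      ≤ 2 * u * A.card + 2 * (u : ℝ) ^ 2 := by
  have h1 : ∀ j, (2 * ((W A u j).card : ℝ) ^ 2 - ((W (T A n₀) u j).card : ℝ) ^ 2)
      = ((∑ p ∈ W A u j ×ˢ W A u j, wt A n₀ p : ℕ) : ℝ) := by
    intro j
    have := inner_eq A n₀ u j
    have h2 : ((∑ p ∈ W A u j ×ˢ W A u j, wt A n₀ p : ℕ) : ℝ) + ((W (T A n₀) u j).card : ℝ) ^ 2
      = 2 * ((W A u j).card : ℝ) ^ 2 := by exact_mod_cast this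
    linarith
  rw [Finset.sum_congr rfl (fun j _ => h1 j), ← Nat.cast_sum, windows_eq]
  have h3 := total_sum hA h u
  have h4 : 2 * u * A.card + 2 * (u * (u - 1)) ≤ 2 * u * A.card + 2 * u ^ 2 := by
    have : u * (u - 1) ≤ u ^ 2 := by
      rw [sq]; exact Nat.mul_le_mul_left _ (Nat.sub_le _ _)
    omega
  exact_mod_cast le_trans h3 h4

/-- overlap length `#{a ∈ [1,N] : 1 ≤ n₀ - a ≤ N}` -/
def L (N n₀ : ℕ) : ℕ := ((Icc 1 N).filter (fun a => a < n₀ ∧ n₀ ≤ a + N)).card

lemma L_eq (N n₀ : ℕ) : L N n₀ = if n₀ ≤ N + 1 then n₀ - 1 else 2 * N + 1 - n₀ := by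
  rw [L]
  split_ifs with h
  · have : (Icc 1 N).filter (fun a => a < n₀ ∧ n₀ ≤ a + N) = Ico 1 n₀ := by
      ext a
      rw [mem_filter, mem_Icc, mem_Ico]
      omega
    rw [this, Nat.card_Ico]
  · have : (Icc 1 N).filter (fun a => a < n₀ ∧ n₀ ≤ a + N) = Icc (n₀ - N) N := by
      ext a
      rw [mem_filter, mem_Icc, mem_Icc]
      omega
    rw [this, Nat.card_Icc]
    omega

/-- number of windows meeting `T` -/
lemma windows_in {A : Finset ℕ} {n₀ N : ℕ} (hA : A ⊆ Icc 1 N) (u : ℕ) :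
    ((range (N + u)).filter (fun j => (W (T A n₀) u j).card ≠ 0)).card ≤ L N n₀ + u := by
  have hT : ∀ a ∈ T A n₀, a ∈ Icc 1 N ∧ ∃ b ∈ Icc 1 N, a + b = n₀ := by
    intro a ha
    rw [T, mem_filter] at ha
    obtain ⟨h1, b, hb, hab⟩ := ha
    exact ⟨hA h1, b, hA hb, hab⟩
  have hex : ∀ j, (W (T A n₀) u j).card ≠ 0 → ∃ a ∈ T A n₀, a ≤ j ∧ j < a + u := by
    intro j hj
    obtain ⟨a, ha⟩ := Finset.card_pos.1 (Nat.pos_of_ne_zero hj)
    rw [W, mem_filter] at ha
    exact ⟨a, ha.1, ha.2⟩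
  rw [L_eq]
  split_ifs with h
  · calc _ ≤ (Ico 1 (n₀ - 1 + u)).card := by
          apply Finset.card_le_card
          intro j hj
          rw [mem_filter] at hj
          obtain ⟨a, ha, h1, h2⟩ := hex j hj.2
          obtain ⟨h3, b, hb, hab⟩ := hT a ha
          rw [mem_Icc] at h3 hb
          rw [mem_Ico]; omega
      _ ≤ n₀ - 1 + u := by rw [Nat.card_Ico]; omega
  · by_cases h2N : n₀ ≤ 2 * N
    · calc _ ≤ (Ico (n₀ - N) (N + u)).card := by
            apply Finset.card_le_card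
            intro j hj
            rw [mem_filter] at hj
            obtain ⟨a, ha, h1, h2⟩ := hex j hj.2
            obtain ⟨h3, b, hb, hab⟩ := hT a ha
            rw [mem_Icc] at h3 hb
            rw [mem_Ico]; omega
        _ ≤ 2 * N + 1 - n₀ + u := by rw [Nat.card_Ico]; omega
    · have : (range (N + u)).filter (fun j => (W (T A n₀) u j).card ≠ 0) = ∅ := by
        apply Finset.filter_eq_empty_iff.2
        intro j _ hj
        obtain ⟨a, ha, h1, h2⟩ := hex j hj
        obtain ⟨h3, b, hb, hab⟩ := hT a ha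
        rw [mem_Icc] at h3 hb
        omega
      rw [this, Finset.card_empty]
      exact Nat.zero_le _

lemma W_sub (A : Finset ℕ) (n₀ u j : ℕ) : (W (T A n₀) u j).card ≤ (W A u j).card := by
  apply Finset.card_le_card
  intro a ha
  rw [W, mem_filter] at ha ⊢
  exact ⟨(mem_filter.1 ha.1).1, ha.2⟩

/-- First main inequality. -/
lemma mainA {A : Finset ℕ} {n₀ N : ℕ} (hA : A ⊆ Icc 1 N)
    (h : ∀ n, n ≠ n₀ → rep A n ≤ 1) {u : ℕ} (hu : 1 ≤ u) :
    (u : ℝ) * (A.card : ℝ) ^ 2 ≤ (u + A.card) * (N + L N n₀ + 2 * u) := by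
  have hb := basic hA h u
  set C : ℝ := (N : ℝ) + L N n₀ + 2 * u with hC
  have hu' : (1 : ℝ) ≤ u := by exact_mod_cast hu
  have hCpos : 0 < C := by positivity
  set lam : ℝ := u * A.card / C with hlam
  have hlow : ∀ j, 4 * lam * ((W A u j).card : ℝ)
      - 2 * lam ^ 2 * (1 + if (W (T A n₀) u j).card ≠ 0 then 1 else 0)
      ≤ 2 * ((W A u j).card : ℝ) ^ 2 - ((W (T A n₀) u j).card : ℝ) ^ 2 := by
    intro j
    by_cases hz : (W (T A n₀) u j).card = 0
    · rw [if_neg (by simpa using hz), hz]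
      push_cast
      nlinarith [sq_nonneg (((W A u j).card : ℝ) - lam)]
    · rw [if_pos hz]
      have h1 : ((W (T A n₀) u j).card : ℝ) ≤ (W A u j).card := by exact_mod_cast W_sub A n₀ u j
      have h0 : (0 : ℝ) ≤ ((W (T A n₀) u j).card : ℝ) := Nat.cast_nonneg _
      nlinarith [sq_nonneg (((W A u j).card : ℝ) - 2 * lam)]
  have hsum := Finset.sum_le_sum (fun j (_ : j ∈ range (N + u)) => hlow j)
  rw [Finset.sum_sub_distrib, ← Finset.mul_sum, ← Finset.mul_sum, Finset.sum_add_distrib,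
    Finset.sum_const, Finset.card_range, nsmul_eq_mul, mul_one, ← Nat.cast_sum,
    first_moment hA u] at hsum
  have hcount : (∑ j ∈ range (N + u), if (W (T A n₀) u j).card ≠ 0 then (1 : ℝ) else 0)
      ≤ L N n₀ + u := by
    rw [← Finset.sum_filter, Finset.sum_const, nsmul_eq_mul, mul_one]
    exact_mod_cast windows_in hA u
  have hlam2 : 0 ≤ lam ^ 2 := sq_nonneg _
  have h1 : 4 * lam * ((u * A.card : ℕ) : ℝ) - 2 * lam ^ 2 * C ≤ 2 * u * A.card + 2 * (u : ℝ) ^ 2 := by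
    refine le_trans ?_ (le_trans hsum hb)
    have : 2 * lam ^ 2 * (((N + u : ℕ) : ℝ) + ∑ j ∈ range (N + u),
        if (W (T A n₀) u j).card ≠ 0 then (1 : ℝ) else 0) ≤ 2 * lam ^ 2 * C := by
      apply mul_le_mul_of_nonneg_left _ (by positivity)
      rw [hC]; push_cast
      linarith
    linarith
  have h2 : lam * C = u * A.card := by
    rw [hlam]; field_simp
  have h3 : 2 * lam * ((u : ℝ) * A.card) ≤ 2 * u * A.card + 2 * (u : ℝ) ^ 2 := by
    have e1 : 4 * lam * ((u * A.card : ℕ) : ℝ) - 2 * lam ^ 2 * C = 2 * lam * ((u : ℝ) * A.card) := by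
      push_cast
      have : 2 * lam ^ 2 * C = 2 * lam * (lam * C) := by ring
      rw [this, h2]; ring
    linarith
  have h4 : (u : ℝ) * A.card ^ 2 * u ≤ (u * A.card + (u : ℝ) ^ 2) * C := by
    have e2 : (u : ℝ) * A.card ^ 2 * u = (lam * ((u : ℝ) * A.card)) * C := by
      calc (u : ℝ) * A.card ^ 2 * u = (u * A.card) * ((u : ℝ) * A.card) := by ring
        _ = (lam * C) * ((u : ℝ) * A.card) := by rw [h2]
        _ = (lam * ((u : ℝ) * A.card)) * C := by ring
    rw [e2]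
    apply mul_le_mul_of_nonneg_right _ hCpos.le
    linarith
  have h5 : (u : ℝ) * ((u : ℝ) * A.card ^ 2) ≤ (u : ℝ) * ((u + A.card) * C) := by
    nlinarith
  exact le_of_mul_le_mul_left h5 (by linarith)

lemma quad_ineq (a t s q : ℝ) (hq : q ^ 2 = 2) (ht : 0 ≤ t) (hta : t ≤ a) :
    4 * s * a - 2 * (2 - q) * s * t - 2 * s ^ 2 ≤ 2 * a ^ 2 - t ^ 2 := by
  -- f = 2 (a-s)^2 - t^2 + (4 - 2 q) s t ≥ 2 (a-s)^2 - t (a - (4-2q) s)
  have h1 : 0 ≤ t * (a - t) := mul_nonneg ht (by linarith)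
  have h2 : 0 ≤ 2 * (a - s) ^ 2 - t * (a - (4 - 2 * q) * s) := by
    by_cases hneg : a - (4 - 2 * q) * s ≤ 0
    · nlinarith [sq_nonneg (a - s)]
    · push Not at hneg
      have h3 : t * (a - (4 - 2 * q) * s) ≤ a * (a - (4 - 2 * q) * s) :=
        mul_le_mul_of_nonneg_right hta hneg.le
      have h4 : 2 * (a - s) ^ 2 - a * (a - (4 - 2 * q) * s) = (a - q * s) ^ 2 := by
        have : (a - q * s) ^ 2 = a ^ 2 - 2 * q * s * a + q ^ 2 * s ^ 2 := by ring
        rw [this, hq]; ring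
      nlinarith [sq_nonneg (a - q * s)]
  nlinarith

/-- Second main inequality. -/
lemma mainB {A : Finset ℕ} {n₀ N : ℕ} (hA : A ⊆ Icc 1 N)
    (h : ∀ n, n ≠ n₀ → rep A n ≤ 1) {u : ℕ} (hu : 1 ≤ u) {σ : ℝ} :
    2 * σ * A.card ≤ 1 + A.card / u + (2 - Real.sqrt 2) * σ * (T A n₀).card + σ ^ 2 * (N + u) := by
  have hb := basic hA h u
  have hu' : (1 : ℝ) ≤ u := by exact_mod_cast hu
  have hu0 : (0 : ℝ) < u := by linarith
  have hTsub : T A n₀ ⊆ Icc 1 N := (Finset.filter_subset _ _).trans hA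
  have hq : Real.sqrt 2 ^ 2 = 2 := Real.sq_sqrt (by norm_num)
  have hlow : ∀ j, 4 * (σ * u) * ((W A u j).card : ℝ)
      - 2 * (2 - Real.sqrt 2) * (σ * u) * ((W (T A n₀) u j).card : ℝ) - 2 * (σ * u) ^ 2
      ≤ 2 * ((W A u j).card : ℝ) ^ 2 - ((W (T A n₀) u j).card : ℝ) ^ 2 := by
    intro j
    apply quad_ineq _ _ _ _ hq (Nat.cast_nonneg _)
    exact_mod_cast W_sub A n₀ u j
  have hsum := Finset.sum_le_sum (fun j (_ : j ∈ range (N + u)) => hlow j)
  rw [Finset.sum_sub_distrib, Finset.sum_sub_distrib, ← Finset.mul_sum, ← Finset.mul_sum,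
    Finset.sum_const, Finset.card_range, nsmul_eq_mul, ← Nat.cast_sum, ← Nat.cast_sum,
    first_moment hA u, first_moment hTsub u] at hsum
  have h1 := le_trans hsum hb
  push_cast at h1
  have h2 : (2 * (u : ℝ) ^ 2) * (2 * σ * A.card) ≤ (2 * (u : ℝ) ^ 2) *
      (1 + A.card / u + (2 - Real.sqrt 2) * σ * (T A n₀).card + σ ^ 2 * (N + u)) := by
    have e : (2 * (u : ℝ) ^ 2) * (1 + A.card / u + (2 - Real.sqrt 2) * σ * (T A n₀).card
        + σ ^ 2 * (N + u)) = 2 * (u : ℝ) ^ 2 + 2 * u * A.card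
        + 2 * (2 - Real.sqrt 2) * (σ * u) * (u * (T A n₀).card) + 2 * (σ * u) ^ 2 * (N + u) := by
      field_simp
    rw [e]
    nlinarith
  exact le_of_mul_le_mul_left h2 (by positivity)

/-- `|T| ≤ 2 r_A(n₀)` -/
lemma T_card_le (A : Finset ℕ) (n₀ : ℕ) : (T A n₀).card ≤ 2 * rep A n₀ := by
  classical
  set R := (A ×ˢ A).filter (fun p => p.1 ≤ p.2 ∧ p.1 + p.2 = n₀) with hR
  have hsub : T A n₀ ⊆ R.image Prod.fst ∪ R.image Prod.snd := by
    intro a ha
    rw [T, mem_filter] at ha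
    obtain ⟨h1, b, hb, hab⟩ := ha
    rw [mem_union, mem_image, mem_image]
    rcases le_total a b with hle | hle
    · left
      refine ⟨(a, b), ?_, rfl⟩
      rw [hR, mem_filter, mem_product]
      exact ⟨⟨h1, hb⟩, hle, hab⟩
    · right
      refine ⟨(b, a), ?_, rfl⟩
      rw [hR, mem_filter, mem_product]
      exact ⟨⟨hb, h1⟩, hle, by simp only; omega⟩
  calc (T A n₀).card ≤ (R.image Prod.fst ∪ R.image Prod.snd).card := Finset.card_le_card hsub
    _ ≤ (R.image Prod.fst).card + (R.image Prod.snd).card := Finset.card_union_le _ _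
    _ ≤ R.card + R.card := Nat.add_le_add Finset.card_image_le Finset.card_image_le
    _ = 2 * rep A n₀ := by rw [rep, ← hR]; ring

lemma L_le (N n₀ : ℕ) : L N n₀ ≤ N := by
  rw [L_eq]; split_ifs <;> omega

/-- a priori bound -/
lemma apriori {A : Finset ℕ} {n₀ N : ℕ} (hN : 1 ≤ N) (hA : A ⊆ Icc 1 N)
    (h : ∀ n, n ≠ n₀ → rep A n ≤ 1) : (A.card : ℝ) ^ 2 ≤ 8 * N := by
  have h1 := mainA hA h hN
  have h2 : (A.card : ℝ) ≤ N := by
    have := Finset.card_le_card hA
    rw [Nat.card_Icc] at this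
    exact_mod_cast (by omega : A.card ≤ N)
  have h3 : (L N n₀ : ℝ) ≤ N := by exact_mod_cast L_le N n₀
  have hN' : (1 : ℝ) ≤ N := by exact_mod_cast hN
  have h4 : (N : ℝ) * (A.card : ℝ) ^ 2 ≤ N * (8 * N) := by
    calc (N : ℝ) * (A.card : ℝ) ^ 2 ≤ (N + A.card) * (N + L N n₀ + 2 * N) := h1
      _ ≤ (N + N) * (N + N + 2 * N) := by
        apply mul_le_mul <;> linarith
      _ = N * (8 * N) := by ring
  exact le_of_mul_le_mul_left h4 (by linarith)

end Pool.Agent.Helper93.AS
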