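import Mathlib
import Pool.Agent.Helper93.AlmostSidon

set_option autoImplicit false

namespace Pool.Agent.Helper93.AS

open Finset

lemma bounds_of_x {A : Finset ℕ} {n₀ N : ℕ} (hN : 1 ≤ N) (hA : A ⊆ Icc 1 N)
    (h : ∀ n, n ≠ n₀ → rep A n ≤ 1) {x : ℝ} (hx1 : 1 ≤ x) (hx : x ^ 4 = N) :
    (A.card : ℝ) ^ 2 ≤ N + L N n₀ + 16 * x ^ 3 ∧
      (A.card : ℝ) ≤ x ^ 2 + (2 - Real.sqrt 2) * rep A n₀ + 3 * x := by
  set a : ℝ := (A.card : ℝ) with ha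
  have ha0 : 0 ≤ a := Nat.cast_nonneg _
  have hx0 : 0 < x := by linarith
  have hap : a ^ 2 ≤ 8 * x ^ 4 := by rw [hx]; exact apriori hN hA h
  have ha2 : a ≤ 2.83 * x ^ 2 := by
    apply le_of_pow_le_pow_left₀ two_ne_zero (by positivity)
    nlinarith [pow_pos hx0 4]
  set u : ℕ := ⌈x ^ 3⌉₊ with hu
  have hux : x ^ 3 ≤ u := Nat.le_ceil _
  have hux2 : (u : ℝ) ≤ 2 * x ^ 3 := by
    have h1 := (Nat.ceil_lt_add_one (by positivity : 0 ≤ x ^ 3)).le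
    have h2 : 1 ≤ x ^ 3 := one_le_pow₀ hx1
    linarith
  have hu1 : 1 ≤ u := Nat.one_le_iff_ne_zero.2 (by
    rw [hu]; exact (Nat.ceil_pos.2 (by positivity)).ne')
  have huN : (u : ℝ) ≤ x ^ 4 := by
    rw [hx]
    have : u ≤ N := by
      rw [hu]
      apply Nat.ceil_le.2
      rw [← hx]
      nlinarith [pow_pos hx0 3]
    exact_mod_cast this
  have hL : (L N n₀ : ℝ) ≤ x ^ 4 := by rw [hx]; exact_mod_cast L_le N n₀
  have hu0 : (0 : ℝ) < u := by exact_mod_cast hu1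
  constructor
  · have h1 := mainA hA h hu1
    rw [← ha, ← hx] at h1
    -- a * (x^4 + L + 2u) ≤ 2.83 x^2 * 4 x^4 = 11.32 x^6 ≤ 11.32 x^3 * u
    have h2 : a * (x ^ 4 + L N n₀ + 2 * u) ≤ 11.32 * x ^ 3 * u := by
      calc a * (x ^ 4 + L N n₀ + 2 * u) ≤ (2.83 * x ^ 2) * (4 * x ^ 4) := by
            apply mul_le_mul ha2 (by linarith) _ (by positivity)
            have : (0 : ℝ) ≤ L N n₀ := Nat.cast_nonneg _
            positivity
        _ = 11.32 * x ^ 3 * x ^ 3 := by ring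
        _ ≤ 11.32 * x ^ 3 * u := mul_le_mul_of_nonneg_left hux (by positivity)
    have h3 : (u : ℝ) * a ^ 2 ≤ u * (x ^ 4 + L N n₀ + 16 * x ^ 3) := by
      have h4 : (u : ℝ) * (2 * u) ≤ u * (4 * x ^ 3) :=
        mul_le_mul_of_nonneg_left (by linarith) hu0.le
      have h5 : 0 ≤ (u : ℝ) * x ^ 3 := by positivity
      nlinarith
    rw [← hx]
    exact le_of_mul_le_mul_left h3 hu0
  · have h1 := mainB hA h hu1 (σ := 1 / x ^ 2)
    rw [← ha, ← hx] at h1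
    have hT : ((T A n₀).card : ℝ) ≤ 2 * rep A n₀ := by exact_mod_cast T_card_le A n₀
    have hs2 : Real.sqrt 2 ≤ 2 := by
      rw [Real.sqrt_le_left (by norm_num)]; norm_num
    have e1 : x ^ 2 * (2 * (1 / x ^ 2) * a) = 2 * a := by field_simp
    have e2 : x ^ 2 * (1 + a / u + (2 - Real.sqrt 2) * (1 / x ^ 2) * (T A n₀).card
        + (1 / x ^ 2) ^ 2 * (x ^ 4 + u))
        = 2 * x ^ 2 + a * x ^ 2 / u + (2 - Real.sqrt 2) * (T A n₀).card + u / x ^ 2 := by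
      field_simp
      ring
    have h2 := mul_le_mul_of_nonneg_left h1 (by positivity : 0 ≤ x ^ 2)
    rw [e1, e2] at h2
    have h3 : a * x ^ 2 / u ≤ 2.83 * x := by
      rw [div_le_iff₀ hu0]
      calc a * x ^ 2 ≤ (2.83 * x ^ 2) * x ^ 2 := mul_le_mul_of_nonneg_right ha2 (by positivity)
        _ = 2.83 * x * x ^ 3 := by ring
        _ ≤ 2.83 * x * u := mul_le_mul_of_nonneg_left hux (by positivity)
    have h4 : (u : ℝ) / x ^ 2 ≤ 2 * x := by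
      rw [div_le_iff₀ (by positivity)]
      calc (u : ℝ) ≤ 2 * x ^ 3 := hux2
        _ = 2 * x * x ^ 2 := by ring
    have h5 : (2 - Real.sqrt 2) * ((T A n₀).card : ℝ) ≤ (2 - Real.sqrt 2) * (2 * rep A n₀) :=
      mul_le_mul_of_nonneg_left hT (by linarith)
    linarith

lemma bounds {A : Finset ℕ} {n₀ N : ℕ} (hA : A ⊆ Icc 1 N)
    (h : ∀ n, n ≠ n₀ → rep A n ≤ 1) :
    (A.card : ℝ) ^ 2 ≤ N + L N n₀ + 16 * (N : ℝ) ^ (3 / 4 : ℝ) ∧
      (A.card : ℝ) ≤ Real.sqrt N + (2 - Real.sqrt 2) * rep A n₀ + 3 * (N : ℝ) ^ (1 / 4 : ℝ) := by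
  rcases Nat.eq_zero_or_pos N with hN | hN
  · subst hN
    have hA0 : A = ∅ := by
      rw [Finset.Icc_eq_empty (by norm_num)] at hA
      exact Finset.subset_empty.1 hA
    have hs2 : Real.sqrt 2 ≤ 2 := by
      rw [Real.sqrt_le_left (by norm_num)]; norm_num
    subst hA0
    constructor
    · have h2 : (0 : ℝ) ≤ ((0 : ℕ) : ℝ) ^ (3 / 4 : ℝ) := Real.rpow_nonneg (by simp) _
      have h3 : (((∅ : Finset ℕ).card : ℕ) : ℝ) = 0 := by simp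
      have h4 : (0 : ℝ) ≤ L 0 n₀ := Nat.cast_nonneg _
      rw [h3]
      have h5 : ((0 : ℕ) : ℝ) = 0 := Nat.cast_zero
      nlinarith
    · have h0 : (0 : ℝ) ≤ (2 - Real.sqrt 2) * (rep ∅ n₀ : ℝ) :=
        mul_nonneg (by linarith) (Nat.cast_nonneg _)
      have h1 : (0 : ℝ) ≤ Real.sqrt ((0 : ℕ) : ℝ) := Real.sqrt_nonneg _
      have h2 : (0 : ℝ) ≤ ((0 : ℕ) : ℝ) ^ (1 / 4 : ℝ) := Real.rpow_nonneg (by simp) _
      have h3 : (((∅ : Finset ℕ).card : ℕ) : ℝ) = 0 := by simp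
      rw [h3]
      linarith
  · have hN' : (1 : ℝ) ≤ N := by exact_mod_cast hN
    set x : ℝ := (N : ℝ) ^ (1 / 4 : ℝ) with hx
    have hx1 : 1 ≤ x := Real.one_le_rpow hN' (by norm_num)
    have hx4 : x ^ 4 = N := by
      rw [hx, ← Real.rpow_natCast, ← Real.rpow_mul (by linarith)]
      norm_num
    have hx3 : x ^ 3 = (N : ℝ) ^ (3 / 4 : ℝ) := by
      rw [hx, ← Real.rpow_natCast, ← Real.rpow_mul (by linarith)]
      norm_num
    have hx2 : x ^ 2 = Real.sqrt N := by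
      rw [← hx4]
      rw [show x ^ 4 = (x ^ 2) ^ 2 by ring, Real.sqrt_sq (by positivity)]
    have := bounds_of_x hN hA h hx1 hx4
    rw [← hx3, ← hx2]
    exact this

lemma conj_cases (ε : ℝ) (hε : 0 < ε) : ∃ N₀ : ℕ, ∀ N : ℕ, N₀ ≤ N → ∀ A : Finset ℕ,
    A ⊆ Icc 1 N → ∀ n₀ : ℕ, (∀ n, n ≠ n₀ → rep A n ≤ 1) →
    (3 * n₀ ≤ N ∨ 5 * N ≤ 3 * n₀ ∨
      (rep A n₀ : ℝ) ≤ (2 / Real.sqrt 3 - 1) / (2 - Real.sqrt 2) * Real.sqrt N) →
    (A.card : ℝ) ≤ (1 + ε) * (2 / Real.sqrt 3) * Real.sqrt N := by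
  refine ⟨⌈(7 / ε) ^ 4⌉₊ + 1, ?_⟩
  intro N hN A hA n₀ h hcase
  have hN1 : 1 ≤ N := by omega
  have hN' : (1 : ℝ) ≤ N := by exact_mod_cast hN1
  set x : ℝ := (N : ℝ) ^ (1 / 4 : ℝ) with hx
  have hx1 : 1 ≤ x := Real.one_le_rpow hN' (by norm_num)
  have hx4 : x ^ 4 = N := by
    rw [hx, ← Real.rpow_natCast, ← Real.rpow_mul (by linarith)]
    norm_num
  have hx2 : Real.sqrt N = x ^ 2 := by
    rw [← hx4]
    rw [show x ^ 4 = (x ^ 2) ^ 2 by ring, Real.sqrt_sq (by positivity)]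
  have hx0 : 0 < x := by linarith
  have hxε : 7 / ε ≤ x := by
    have h1 : (7 / ε) ^ 4 ≤ x ^ 4 := by
      rw [hx4]
      have h2 : ⌈(7 / ε) ^ 4⌉₊ ≤ N := by omega
      exact (Nat.le_ceil _).trans (by exact_mod_cast h2)
    exact le_of_pow_le_pow_left₀ (by norm_num) hx0.le h1
  have hxε' : 7 ≤ x * ε := by
    rwa [div_le_iff₀ hε] at hxε
  obtain ⟨b1, b2⟩ := bounds_of_x hN1 hA h hx1 hx4
  have h3pos : 0 < Real.sqrt 3 := Real.sqrt_pos.2 (by norm_num)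
  have h3sq : Real.sqrt 3 ^ 2 = 3 := Real.sq_sqrt (by norm_num)
  have hs2 : Real.sqrt 2 < 2 := by
    rw [Real.sqrt_lt' (by norm_num)]; norm_num
  have hLcase : (3 * n₀ ≤ N ∨ 5 * N ≤ 3 * n₀) → (A.card : ℝ) ≤ (1 + ε) * (2 / Real.sqrt 3) * x ^ 2 := by
    intro hc
    have hL : 3 * L N n₀ ≤ N + 3 := by
      rw [L_eq]
      split_ifs with h1 <;> omega
    have hL' : 3 * (L N n₀ : ℝ) ≤ x ^ 4 + 3 := by rw [hx4]; exact_mod_cast hL
    apply le_of_pow_le_pow_left₀ two_ne_zero (by positivity)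
    have e1 : ((1 + ε) * (2 / Real.sqrt 3) * x ^ 2) ^ 2 = (1 + ε) ^ 2 * (4 / 3) * x ^ 4 := by
      rw [mul_pow, mul_pow, div_pow, h3sq]; ring
    rw [e1]
    rw [← hx4] at b1
    have h2 : 1 ≤ x ^ 3 := one_le_pow₀ hx1
    have h3 : 7 * x ^ 3 ≤ x * ε * x ^ 3 := mul_le_mul_of_nonneg_right hxε' (by positivity)
    have h4 : 0 ≤ ε ^ 2 * x ^ 4 := by positivity
    nlinarith
  rw [hx2]
  rcases hcase with hc | hc | hc
  · exact hLcase (Or.inl hc)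
  · exact hLcase (Or.inr hc)
  · rw [hx2] at hc
    have h1 : (2 - Real.sqrt 2) * (rep A n₀ : ℝ) ≤ (2 / Real.sqrt 3 - 1) * x ^ 2 := by
      have h2 := mul_le_mul_of_nonneg_left hc (by linarith : 0 ≤ 2 - Real.sqrt 2)
      have hne : (2 - Real.sqrt 2) ≠ 0 := by linarith
      calc (2 - Real.sqrt 2) * (rep A n₀ : ℝ)
          ≤ (2 - Real.sqrt 2) * ((2 / Real.sqrt 3 - 1) / (2 - Real.sqrt 2) * x ^ 2) := h2
        _ = (2 / Real.sqrt 3 - 1) * x ^ 2 := by field_simp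
    have h3 : (A.card : ℝ) ≤ (2 / Real.sqrt 3) * x ^ 2 + 3 * x := by linarith
    have h4 : 1 ≤ 2 / Real.sqrt 3 := by
      rw [le_div_iff₀ h3pos, one_mul]
      rw [Real.sqrt_le_left (by norm_num)]; norm_num
    have h5 : 3 * x ≤ ε * (2 / Real.sqrt 3) * x ^ 2 := by
      have h6 : 3 * x ≤ (x * ε) * x := by nlinarith
      have h7 : (x * ε) * x ≤ (2 / Real.sqrt 3) * ((x * ε) * x) :=
        le_mul_of_one_le_left (by positivity) h4
      calc 3 * x ≤ (x * ε) * x := h6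
        _ ≤ (2 / Real.sqrt 3) * ((x * ε) * x) := h7
        _ = ε * (2 / Real.sqrt 3) * x ^ 2 := by ring
    calc (A.card : ℝ) ≤ (2 / Real.sqrt 3) * x ^ 2 + 3 * x := h3
      _ ≤ (2 / Real.sqrt 3) * x ^ 2 + ε * (2 / Real.sqrt 3) * x ^ 2 := by linarith
      _ = (1 + ε) * (2 / Real.sqrt 3) * x ^ 2 := by ring

end Pool.Agent.Helper93.AS
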