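import Mathlib

set_option autoImplicit false

namespace Pool.Agent.Helper93.Sun

open Polynomial Finset

/-- product of consecutive integers as factorial times binomial -/
lemma prod_Ico_consec (a m : ℕ) :
    ∏ i ∈ Ico 1 (m + 1), (i + a) = m.factorial * (a + m).choose m := by
  rw [Finset.prod_Ico_eq_prod_range, ← Nat.ascFactorial_eq_factorial_mul_choose,
    Nat.ascFactorial_eq_prod_range]
  simp only [Nat.add_sub_cancel]
  refine Finset.prod_congr rfl fun i _ => by ring

lemma prod_Ico_consec' (c a m : ℕ) :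
    ∏ i ∈ Ico (c + 1) (c + 1 + m), (i + a) = m.factorial * (m + c + a).choose m := by
  have := prod_Ico_consec (c + a) m
  rw [Finset.prod_Ico_eq_prod_range] at this ⊢
  have h1 : c + 1 + m - (c + 1) = m := by omega
  rw [h1]
  rw [Nat.add_sub_cancel] at this
  rw [show m + c + a = c + a + m by ring, ← this]
  refine Finset.prod_congr rfl fun i _ => by ring

lemma filter_dvd_Ico (q c m J : ℕ) (hq : 0 < q) (hc : c < q) (h1 : q * J ≤ c + m)
    (h2 : c + m < q * (J + 1)) :
    (Ico (c + 1) (c + 1 + m)).filter (fun i => q ∣ i) = (Ico 1 (J + 1)).image (fun j => q * j) := by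
  ext i
  simp only [mem_filter, mem_Ico, mem_image]
  constructor
  · rintro ⟨⟨h3, h4⟩, ⟨j, rfl⟩⟩
    refine ⟨j, ⟨?_, ?_⟩, rfl⟩
    · rcases Nat.eq_zero_or_pos j with h | h
      · subst h; simp at h3
      · exact h
    · by_contra hcon
      push Not at hcon
      have : q * (J + 1) ≤ q * j := Nat.mul_le_mul_left q hcon
      omega
  · rintro ⟨j, ⟨h3, h4⟩, rfl⟩
    refine ⟨⟨?_, ?_⟩, dvd_mul_right _ _⟩
    · have : q * 1 ≤ q * j := Nat.mul_le_mul_left q h3
      omega
    · have : q * j ≤ q * J := Nat.mul_le_mul_left q (by omega)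
      omega

/-- natural number version of the digit identity. -/
lemma star_nat (q c m J k : ℕ) (hq : 0 < q) (hc : c < q) (h1 : q * J ≤ c + m)
    (h2 : c + m < q * (J + 1)) :
    m.factorial * (m + c + q * k).choose m =
      (∏ i ∈ (Ico (c + 1) (c + 1 + m)).filter (fun i => ¬ q ∣ i), (i + q * k)) *
        (q ^ J * (J.factorial * (k + J).choose J)) := by
  rw [← prod_Ico_consec' c (q * k) m, ← Finset.prod_filter_not_mul_prod_filter _ (fun i => q ∣ i)]
  congr 1
  rw [filter_dvd_Ico q c m J hq hc h1 h2, Finset.prod_image]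
  · rw [← prod_Ico_consec k J]
    have : ∀ j ∈ Ico 1 (J + 1), q * j + q * k = q * (j + k) := fun j _ => by ring
    rw [Finset.prod_congr rfl this, Finset.prod_mul_distrib]
    simp
  · intro a _ b _ hab
    exact Nat.eq_of_mul_eq_mul_left hq hab

end Pool.Agent.Helper93.Sun
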