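import Mathlib
import Pool.Agent.Helper93.Sun1

set_option autoImplicit false

namespace Pool.Agent.Helper93.Sun

open Polynomial Finset

variable {p : ℕ} [hp : Fact p.Prime]

/-- polynomials in `a X` -/
noncomputable def Rs (a : ℤ_[p]) : Subring ℤ_[p][X] := (Polynomial.compRingHom (C a * X)).range

lemma mem_Rs {a : ℤ_[p]} {P : ℤ_[p][X]} : P ∈ Rs a ↔ ∃ Q : ℤ_[p][X], Q.comp (C a * X) = P := by
  simp [Rs, RingHom.mem_range]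

lemma Rs_coeff {a : ℤ_[p]} {P : ℤ_[p][X]} (h : P ∈ Rs a) (m : ℕ) : a ^ m ∣ P.coeff m := by
  obtain ⟨Q, rfl⟩ := mem_Rs.1 h
  rw [comp_C_mul_X_coeff]
  exact dvd_mul_left _ _

lemma Rs_C (a b : ℤ_[p]) : C b ∈ Rs a := mem_Rs.2 ⟨C b, by simp⟩

lemma Rs_aX (a : ℤ_[p]) : C a * X ∈ Rs a := mem_Rs.2 ⟨X, by simp⟩

lemma Rs_mono {a b : ℤ_[p]} (h : a ∣ b) : Rs b ≤ Rs a := by
  intro P hP
  obtain ⟨Q, rfl⟩ := mem_Rs.1 hP
  obtain ⟨c, rfl⟩ := h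
  refine mem_Rs.2 ⟨Q.comp (C c * X), ?_⟩
  rw [comp_assoc]
  congr 1
  simp only [mul_comp, C_comp, X_comp, map_mul]
  ring

lemma Rs_lin {a b c : ℤ_[p]} (h : a ∣ c) : C b + C c * X ∈ Rs a :=
  (Rs a).add_mem (Rs_C a b) (Rs_mono h (Rs_aX c))

lemma natCast_isUnit {i : ℕ} (h : ¬ p ∣ i) : IsUnit (i : ℤ_[p]) := by
  rw [PadicInt.isUnit_iff, PadicInt.norm_natCast_eq_one_iff]
  exact (Nat.Prime.coprime_iff_not_dvd hp.out).2 h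

lemma exists_ratio {i : ℕ} (h : ¬ p ^ 2 ∣ i) :
    ∃ r : ℤ_[p], (i : ℤ_[p]) * r = (p : ℤ_[p]) ^ 2 ∧ (p : ℤ_[p]) ∣ r := by
  by_cases h1 : p ∣ i
  · obtain ⟨j, rfl⟩ := h1
    have h2 : ¬ p ∣ j := by
      intro h3
      apply h
      rw [pow_two]
      exact Nat.mul_dvd_mul_left p h3
    obtain ⟨u, hu⟩ := natCast_isUnit h2
    refine ⟨p * ↑u⁻¹, ?_, dvd_mul_right _ _⟩
    push_cast
    rw [← hu]
    calc (p : ℤ_[p]) * u * (p * ↑u⁻¹) = p ^ 2 * (u * ↑u⁻¹) := by ring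
      _ = _ := by simp
  · obtain ⟨u, hu⟩ := natCast_isUnit h1
    refine ⟨p ^ 2 * ↑u⁻¹, ?_, ?_⟩
    · rw [← hu]
      calc (u : ℤ_[p]) * (p ^ 2 * ↑u⁻¹) = p ^ 2 * (u * ↑u⁻¹) := by ring
        _ = _ := by simp
    · rw [pow_two, mul_assoc]; exact dvd_mul_right _ _

/-- ratio `p²/i` -/
noncomputable def rr (p : ℕ) [Fact p.Prime] (i : ℕ) : ℤ_[p] :=
  if h : ¬ p ^ 2 ∣ i then (exists_ratio (p := p) h).choose else 0

lemma rr_mul {i : ℕ} (h : ¬ p ^ 2 ∣ i) : (i : ℤ_[p]) * rr p i = (p : ℤ_[p]) ^ 2 := by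
  rw [rr, dif_pos h]; exact (exists_ratio (p := p) h).choose_spec.1

lemma rr_dvd (i : ℕ) : (p : ℤ_[p]) ∣ rr p i := by
  by_cases h : ¬ p ^ 2 ∣ i
  · rw [rr, dif_pos h]; exact (exists_ratio (p := p) h).choose_spec.2
  · rw [rr, dif_neg h]; exact dvd_zero _

/-- linear factor `1 + (p²/i) X` -/
noncomputable def rho (p : ℕ) [Fact p.Prime] (i : ℕ) : ℤ_[p][X] := C 1 + C (rr p i) * X

lemma rho_mem (i : ℕ) : rho p i ∈ Rs (p : ℤ_[p]) := Rs_lin (rr_dvd i)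

/-- linear factor `i + p² X` -/
noncomputable def lin (p : ℕ) [Fact p.Prime] (i : ℕ) : ℤ_[p][X] :=
  C (i : ℤ_[p]) + C ((p : ℤ_[p]) ^ 2) * X

lemma lin_eq {i : ℕ} (h : ¬ p ^ 2 ∣ i) : lin p i = C (i : ℤ_[p]) * rho p i := by
  rw [lin, rho, ← rr_mul h]
  simp only [map_mul, map_one]
  ring

lemma lin_mem (i : ℕ) : lin p i ∈ Rs ((p : ℤ_[p]) ^ 2) := Rs_lin dvd_rfl

lemma lin_eval (i k : ℕ) : (lin p i).eval (k : ℤ_[p]) = ((i + p ^ 2 * k : ℕ) : ℤ_[p]) := by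
  simp [lin]

/-- `∏ (i + p² X)` over `i ∈ (c, c+m]`, `p² ∤ i`. -/
noncomputable def Dp (p : ℕ) [Fact p.Prime] (m c : ℕ) : ℤ_[p][X] :=
  ∏ i ∈ (Ico (c + 1) (c + 1 + m)).filter (fun i => ¬ p ^ 2 ∣ i), lin p i

noncomputable def Gp (p : ℕ) [Fact p.Prime] (m c : ℕ) : ℤ_[p][X] :=
  ∏ i ∈ (Ico (c + 1) (c + 1 + m)).filter (fun i => ¬ p ∣ i), lin p i

noncomputable def Hp (p : ℕ) [Fact p.Prime] (m c : ℕ) : ℤ_[p][X] :=
  ∏ i ∈ (Ico (c + 1) (c + 1 + m)).filter (fun i => p ∣ i ∧ ¬ p ^ 2 ∣ i), lin p i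

lemma Dp_eq (m c : ℕ) : Dp p m c = Gp p m c * Hp p m c := by
  rw [Dp, Gp, Hp, ← Finset.prod_union]
  · congr 1
    ext i
    simp only [mem_filter, mem_union]
    constructor
    · rintro ⟨h1, h2⟩
      by_cases h3 : p ∣ i
      · exact Or.inr ⟨h1, h3, h2⟩
      · exact Or.inl ⟨h1, h3⟩
    · rintro (⟨h1, h2⟩ | ⟨h1, h2, h3⟩)
      · exact ⟨h1, fun h => h2 (dvd_trans (dvd_pow_self p two_ne_zero) h)⟩
      · exact ⟨h1, h3⟩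
  · rw [Finset.disjoint_filter]
    rintro i _ h1 ⟨h2, _⟩
    exact h1 h2

lemma Gp_mem (m c : ℕ) : Gp p m c ∈ Rs ((p : ℤ_[p]) ^ 2) :=
  (Rs _).prod_mem fun i _ => lin_mem i

/-- normalised product of `rho`. -/
noncomputable def rhoD (p : ℕ) [Fact p.Prime] (m c : ℕ) : ℤ_[p][X] :=
  ∏ i ∈ (Ico (c + 1) (c + 1 + m)).filter (fun i => ¬ p ^ 2 ∣ i), rho p i

noncomputable def rhoH (p : ℕ) [Fact p.Prime] (m c : ℕ) : ℤ_[p][X] :=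
  ∏ i ∈ (Ico (c + 1) (c + 1 + m)).filter (fun i => p ∣ i ∧ ¬ p ^ 2 ∣ i), rho p i

lemma rhoD_mem (m c : ℕ) : rhoD p m c ∈ Rs (p : ℤ_[p]) := (Rs _).prod_mem fun i _ => rho_mem i
lemma rhoH_mem (m c : ℕ) : rhoH p m c ∈ Rs (p : ℤ_[p]) := (Rs _).prod_mem fun i _ => rho_mem i

lemma rho_eval_zero (i : ℕ) : (rho p i).eval 0 = 1 := by simp [rho]

lemma Dp_rho (m c : ℕ) : Dp p m c = C ((Dp p m c).eval 0) * rhoD p m c := by
  have h1 : Dp p m c = C (∏ i ∈ (Ico (c + 1) (c + 1 + m)).filter (fun i => ¬ p ^ 2 ∣ i), (i : ℤ_[p])) * rhoD p m c := by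
    rw [Dp, rhoD, map_prod, ← Finset.prod_mul_distrib]
    refine Finset.prod_congr rfl fun i hi => lin_eq (mem_filter.1 hi).2
  have h2 : (rhoD p m c).eval 0 = 1 := by
    rw [rhoD, eval_prod]; exact Finset.prod_eq_one fun i _ => rho_eval_zero i
  rw [h1, eval_mul, eval_C, h2, mul_one]

lemma Hp_rho (m c : ℕ) : Hp p m c = C ((Hp p m c).eval 0) * rhoH p m c := by
  have h1 : Hp p m c = C (∏ i ∈ (Ico (c + 1) (c + 1 + m)).filter (fun i => p ∣ i ∧ ¬ p ^ 2 ∣ i), (i : ℤ_[p])) * rhoH p m c := by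
    rw [Hp, rhoH, map_prod, ← Finset.prod_mul_distrib]
    refine Finset.prod_congr rfl fun i hi => lin_eq (mem_filter.1 hi).2.2
  have h2 : (rhoH p m c).eval 0 = 1 := by
    rw [rhoH, eval_prod]; exact Finset.prod_eq_one fun i _ => rho_eval_zero i
  rw [h1, eval_mul, eval_C, h2, mul_one]

lemma Dp_eval (m c k : ℕ) : (Dp p m c).eval (k : ℤ_[p]) =
    ((∏ i ∈ (Ico (c + 1) (c + 1 + m)).filter (fun i => ¬ p ^ 2 ∣ i), (i + p ^ 2 * k) : ℕ) : ℤ_[p]) := by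
  rw [Dp, eval_prod]
  push_cast
  refine Finset.prod_congr rfl fun i _ => by rw [lin_eval]; push_cast; ring

lemma star_Z (c m J k : ℕ) (hc : c < p ^ 2) (h1 : p ^ 2 * J ≤ c + m)
    (h2 : c + m < p ^ 2 * (J + 1)) :
    (m.factorial : ℤ_[p]) * ((m + c + p ^ 2 * k).choose m : ℤ_[p]) =
      (Dp p m c).eval (k : ℤ_[p]) *
        ((p : ℤ_[p]) ^ (2 * J) * ((J.factorial : ℤ_[p]) * ((k + J).choose J : ℤ_[p]))) := by
  have := star_nat (p ^ 2) c m J k (pow_pos hp.out.pos 2) hc h1 h2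
  rw [Dp_eval]
  have h3 := congrArg (Nat.cast : ℕ → ℤ_[p]) this
  push_cast at h3 ⊢
  rw [h3, pow_mul]

end Pool.Agent.Helper93.Sun
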