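import Mathlib
import Pool.Agent.Helper93.Sun2

set_option autoImplicit false

namespace Pool.Agent.Helper93.Sun

open Polynomial Finset

/-- binomial weight `C(M+k, M)` -/
def bn (M k : ℕ) : ℕ := (M + k).choose M

lemma bn_zero (M : ℕ) : bn M 0 = 1 := by simp [bn]

lemma bn_succ (M k : ℕ) : bn M (k + 1) * (k + 1) = bn M k * (M + k + 1) := by
  unfold bn
  have := Nat.choose_mul_succ_eq (M + k) M
  rw [show M + k + 1 - M = k + 1 by omega] at this
  rw [← add_assoc, ← this]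

/-- upper level index `M' = p (p N - 1)`. -/
def mm (p N : ℕ) : ℕ := p * (p * N - 1)

variable {p : ℕ} [hp : Fact p.Prime] {N : ℕ}

lemma mm_add (hN : 1 ≤ N) : mm p N + p = p ^ 2 * N := by
  unfold mm
  have h1 : 1 ≤ p * N := Nat.mul_pos hp.out.pos hN
  have : p * (p * N - 1) + p = p * (p * N - 1 + 1) := by ring
  rw [this, Nat.sub_add_cancel h1]
  ring

lemma Dp_eval_zero (m c : ℕ) : (Dp p m c).eval 0 =
    ((∏ i ∈ (Ico (c + 1) (c + 1 + m)).filter (fun i => ¬ p ^ 2 ∣ i), i : ℕ) : ℤ_[p]) := by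
  have := Dp_eval (p := p) m c 0
  simpa using this

lemma Dp_eval_zero_ne (m c : ℕ) : (Dp p m c).eval 0 ≠ 0 := by
  rw [Dp_eval_zero]
  rw [Nat.cast_ne_zero]
  rw [Finset.prod_ne_zero_iff]
  intro i hi
  have := (mem_Ico.1 (mem_filter.1 hi).1).1
  omega

lemma p_two_le : 2 ≤ p := hp.out.two_le

/-- base identity: `M'! = D_0(0) p^{2(N-1)} (N-1)!` -/
lemma star_base (hN : 1 ≤ N) :
    ((mm p N).factorial : ℤ_[p]) = (Dp p (mm p N) 0).eval 0 *
      ((p : ℤ_[p]) ^ (2 * (N - 1)) * ((N - 1).factorial : ℤ_[p])) := by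
  have h := mm_add (p := p) hN
  have hp2 := p_two_le (p := p)
  have hpp : p ≤ p ^ 2 := by nlinarith
  have := star_Z (p := p) 0 (mm p N) (N - 1) 0 (by positivity)
    (by
      obtain ⟨k, rfl⟩ : ∃ k, N = k + 1 := ⟨N - 1, by omega⟩
      simp only [Nat.add_sub_cancel]
      have : p ^ 2 * (k + 1) = p ^ 2 * k + p ^ 2 := by ring
      omega)
    (by
      rw [Nat.sub_add_cancel hN]; omega)
  simpa using this

lemma star_low (hN : 1 ≤ N) (c k : ℕ) (hc : c < p) :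
    (Dp p (mm p N) 0).eval 0 * (bn (mm p N) (c + p ^ 2 * k) : ℤ_[p]) =
      (Dp p (mm p N) c).eval (k : ℤ_[p]) * (bn (N - 1) k : ℤ_[p]) := by
  have h := mm_add (p := p) hN
  have hp2 := p_two_le (p := p)
  have hpp : p ≤ p ^ 2 := by nlinarith
  have h1 := star_Z (p := p) c (mm p N) (N - 1) k (by omega)
    (by
      obtain ⟨k, rfl⟩ : ∃ k, N = k + 1 := ⟨N - 1, by omega⟩
      simp only [Nat.add_sub_cancel]
      have : p ^ 2 * (k + 1) = p ^ 2 * k + p ^ 2 := by ring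
      omega)
    (by
      rw [Nat.sub_add_cancel hN]; omega)
  rw [star_base hN] at h1
  have hne : (p : ℤ_[p]) ^ (2 * (N - 1)) * ((N - 1).factorial : ℤ_[p]) ≠ 0 := by
    apply mul_ne_zero
    · apply pow_ne_zero
      exact_mod_cast hp.out.ne_zero
    · exact_mod_cast Nat.factorial_ne_zero _
  apply mul_right_cancel₀ hne
  have e1 : bn (mm p N) (c + p ^ 2 * k) = (mm p N + c + p ^ 2 * k).choose (mm p N) := by
    rw [bn, add_assoc]
  have e2 : bn (N - 1) k = (k + (N - 1)).choose (N - 1) := by rw [bn, add_comm]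
  rw [e1, e2]
  linear_combination h1

lemma star_high (hN : 1 ≤ N) (c k : ℕ) (hc : p ≤ c) (hc2 : c < p ^ 2) :
    (Dp p (mm p N) 0).eval 0 * (bn (mm p N) (c + p ^ 2 * k) : ℤ_[p]) =
      (Dp p (mm p N) c).eval (k : ℤ_[p]) * ((p : ℤ_[p]) ^ 2 * ((N : ℤ_[p]) + k) * (bn (N - 1) k : ℤ_[p])) := by
  have h := mm_add (p := p) hN
  have hp2 := p_two_le (p := p)
  have h1 := star_Z (p := p) c (mm p N) N k hc2 (by omega)
    (by
      have : p ^ 2 * (N + 1) = p ^ 2 * N + p ^ 2 := by ring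
      omega)
  rw [star_base hN] at h1
  have hne : (p : ℤ_[p]) ^ (2 * (N - 1)) * ((N - 1).factorial : ℤ_[p]) ≠ 0 := by
    apply mul_ne_zero
    · apply pow_ne_zero
      exact_mod_cast hp.out.ne_zero
    · exact_mod_cast Nat.factorial_ne_zero _
  apply mul_right_cancel₀ hne
  have e1 : bn (mm p N) (c + p ^ 2 * k) = (mm p N + c + p ^ 2 * k).choose (mm p N) := by
    rw [bn, add_assoc]
  have e3 : (N.factorial : ℤ_[p]) * ((k + N).choose N : ℤ_[p]) =
      ((N - 1).factorial : ℤ_[p]) * (((N : ℤ_[p]) + k) * (bn (N - 1) k : ℤ_[p])) := by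
    have h5 : N.factorial * (k + N).choose N = (N - 1).factorial * ((N + k) * bn (N - 1) k) := by
      obtain ⟨n, rfl⟩ : ∃ n, N = n + 1 := ⟨N - 1, by omega⟩
      simp only [Nat.add_sub_cancel, Nat.factorial_succ, bn]
      have := Nat.add_one_mul_choose_eq (k + n) n
      have h6 : (k + (n + 1)).choose (n + 1) * (n + 1) = (k + n + 1) * (n + k).choose n := by
        rw [add_comm n k, this, add_assoc]
      calc (n + 1) * n.factorial * (k + (n + 1)).choose (n + 1)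
          = n.factorial * ((k + (n + 1)).choose (n + 1) * (n + 1)) := by ring
        _ = _ := by rw [h6]; ring
    exact_mod_cast congrArg (Nat.cast : ℕ → ℤ_[p]) h5
  rw [e1]
  have e4 : (p : ℤ_[p]) ^ (2 * N) = (p : ℤ_[p]) ^ (2 * (N - 1)) * (p : ℤ_[p]) ^ 2 := by
    rw [← pow_add]; congr 1; omega
  rw [e3, e4] at h1
  linear_combination h1

lemma bn_dvd (hN : 1 ≤ N) (c : ℕ) (hc : p ≤ c) (hc2 : c < p ^ 2) : p ∣ bn (mm p N) c := by
  have hp2 := p_two_le (p := p)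
  have h1 : bn (mm p N) c = (mm p N + c).choose c := by
    rw [bn]; exact Nat.choose_symm_add
  rw [h1]
  have h2 := Choose.choose_modEq_choose_mod_mul_choose_div_nat (n := mm p N + c) (k := c) (p := p)
  have h3 : (mm p N + c) / p = p * N - 1 + c / p := by
    rw [mm, Nat.mul_add_div hp.out.pos]
  have hr1 : 1 ≤ c / p := Nat.div_pos hc hp.out.pos
  have hr2 : c / p < p := by
    rw [Nat.div_lt_iff_lt_mul hp.out.pos]; rw [← pow_two]; exact hc2
  have h4 : ((mm p N + c) / p).choose (c / p) ≡ 0 [MOD p] := by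
    have h5 := Choose.choose_modEq_choose_mod_mul_choose_div_nat (n := (mm p N + c) / p) (k := c / p) (p := p)
    refine h5.trans ?_
    have h6 : ((mm p N + c) / p) % p = c / p - 1 := by
      rw [h3]
      have hpN : 1 ≤ p * N := Nat.mul_pos hp.out.pos hN
      have : p * N - 1 + c / p = p * N + (c / p - 1) := by omega
      rw [this, Nat.mul_add_mod]
      exact Nat.mod_eq_of_lt (by omega)
    rw [h6, Nat.mod_eq_of_lt hr2, Nat.choose_eq_zero_of_lt (by omega), zero_mul]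
  have h7 : (mm p N + c).choose c ≡ 0 [MOD p] := by
    refine h2.trans ?_
    have := h4.mul_left (((mm p N + c) % p).choose (c % p))
    simpa using this
  exact (Nat.modEq_zero_iff_dvd).1 h7

lemma exists_chi (hN : 1 ≤ N) (hpN : ¬ p ∣ N) (c : ℕ) (hc : p ≤ c) (hc2 : c < p ^ 2) :
    ∃ χ : ℤ_[p], (Dp p (mm p N) 0).eval 0 * χ = (Dp p (mm p N) c).eval 0 * p := by
  obtain ⟨b, hb⟩ := bn_dvd (p := p) hN c hc hc2
  obtain ⟨u, hu⟩ := natCast_isUnit hpN
  have h1 := star_high (p := p) hN c 0 hc hc2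
  simp only [mul_zero, add_zero, Nat.cast_zero, bn_zero, Nat.cast_one, mul_one, hb] at h1
  refine ⟨b * ↑u⁻¹, ?_⟩
  have hpne : (p : ℤ_[p]) ≠ 0 := by exact_mod_cast hp.out.ne_zero
  have hu2 : (N : ℤ_[p]) * ↑u⁻¹ = 1 := by rw [← hu]; simp
  apply mul_left_cancel₀ hpne
  push_cast at h1
  linear_combination (↑u⁻¹ : ℤ_[p]) * h1 + (Dp p (mm p N) c).eval 0 * (p : ℤ_[p]) ^ 2 * hu2

/-- combined digit polynomial existence for high digits -/
lemma exists_PhiH (hN : 1 ≤ N) (hpN : ¬ p ∣ N) (c : ℕ) (hc : p ≤ c) (hc2 : c < p ^ 2) :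
    ∃ Φ : ℤ_[p][X], Φ ∈ Rs (p : ℤ_[p]) ∧ C ((Dp p (mm p N) 0).eval 0) * Φ = C (p : ℤ_[p]) * Dp p (mm p N) c ∧
      ∀ k : ℕ, (bn (mm p N) (c + p ^ 2 * k) : ℤ_[p]) =
        (p : ℤ_[p]) * ((N : ℤ_[p]) + k) * Φ.eval (k : ℤ_[p]) * (bn (N - 1) k : ℤ_[p]) := by
  obtain ⟨χ, hχ⟩ := exists_chi (p := p) hN hpN c hc hc2
  have h1 : C ((Dp p (mm p N) 0).eval 0) * (C χ * rhoD p (mm p N) c) = C (p : ℤ_[p]) * Dp p (mm p N) c := by
    rw [← mul_assoc, ← map_mul, hχ, map_mul]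
    conv_rhs => rw [Dp_rho]
    ring
  refine ⟨C χ * rhoD p (mm p N) c, (Rs _).mul_mem (Rs_C _ _) (rhoD_mem _ _), h1, ?_⟩
  intro k
  apply mul_left_cancel₀ (Dp_eval_zero_ne (p := p) (mm p N) 0)
  rw [star_high hN c k hc hc2]
  have h2 := congrArg (fun P => Polynomial.eval (k : ℤ_[p]) P) h1
  simp only [eval_mul, eval_C] at h2 ⊢
  linear_combination (-(p : ℤ_[p]) * ((N : ℤ_[p]) + k) * (bn (N - 1) k : ℤ_[p])) * h2

end Pool.Agent.Helper93.Sun
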