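import Mathlib
import Pool.Agent.Helper93.Sun3

set_option autoImplicit false

namespace Pool.Agent.Helper93.Sun

open Polynomial Finset

variable {p : ℕ} [hp : Fact p.Prime] {N : ℕ}

lemma Hp_low (c : ℕ) (hc : c < p) : Hp p (mm p N) c = Hp p (mm p N) 0 := by
  unfold Hp
  congr 1
  ext i
  simp only [mem_filter, mem_Ico, mm]
  constructor
  · rintro ⟨⟨h1, h2⟩, ⟨j, rfl⟩, h4⟩
    refine ⟨⟨by omega, ?_⟩, dvd_mul_right _ _, h4⟩
    have h5 : p * j < p * (p * N - 1 + 1) := by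
      have : p * (p * N - 1 + 1) = p * (p * N - 1) + p := by ring
      omega
    have h6 := Nat.lt_of_mul_lt_mul_left h5
    have h7 : p * j ≤ p * (p * N - 1) := Nat.mul_le_mul_left p (by omega)
    omega
  · rintro ⟨⟨h1, h2⟩, ⟨j, rfl⟩, h4⟩
    refine ⟨⟨?_, by omega⟩, dvd_mul_right _ _, h4⟩
    have hj : 1 ≤ j := by
      rcases Nat.eq_zero_or_pos j with h | h
      · subst h; simp at h1
      · exact h
    have : p * 1 ≤ p * j := Nat.mul_le_mul_left p hj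
    omega

lemma Gp_eval_zero (m c : ℕ) : (Gp p m c).eval 0 =
    ((∏ i ∈ (Ico (c + 1) (c + 1 + m)).filter (fun i => ¬ p ∣ i), i : ℕ) : ℤ_[p]) := by
  rw [Gp, eval_prod]
  push_cast
  refine Finset.prod_congr rfl fun i _ => by simp [lin]

lemma Gp_unit (m c : ℕ) : IsUnit ((Gp p m c).eval 0) := by
  rw [Gp_eval_zero]
  push_cast
  rw [IsUnit.prod_iff]
  intro i hi
  exact natCast_isUnit (mem_filter.1 hi).2

/-- normalised unit part -/
noncomputable def Gam (p : ℕ) [Fact p.Prime] (N c : ℕ) : ℤ_[p][X] :=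
  C (Ring.inverse ((Gp p (mm p N) 0).eval 0)) * Gp p (mm p N) c

lemma Gam_mem (c : ℕ) : Gam p N c ∈ Rs ((p : ℤ_[p]) ^ 2) :=
  (Rs _).mul_mem (Rs_C _ _) (Gp_mem _ _)

lemma Gam_eq (c : ℕ) : C ((Gp p (mm p N) 0).eval 0) * Gam p N c = Gp p (mm p N) c := by
  rw [Gam, ← mul_assoc, ← map_mul, Ring.mul_inverse_cancel _ (Gp_unit _ _), map_one, one_mul]

/-- low digit polynomial -/
noncomputable def PhiL (p : ℕ) [Fact p.Prime] (N c : ℕ) : ℤ_[p][X] :=
  rhoH p (mm p N) 0 * Gam p N c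

lemma PhiL_mem (c : ℕ) : PhiL p N c ∈ Rs (p : ℤ_[p]) :=
  (Rs _).mul_mem (rhoH_mem _ _) (Rs_mono (dvd_pow_self _ two_ne_zero) (Gam_mem c))

lemma PhiL_eq (c : ℕ) (hc : c < p) :
    C ((Dp p (mm p N) 0).eval 0) * PhiL p N c = Dp p (mm p N) c := by
  rw [Dp_eq (p := p) (mm p N) c, Hp_low c hc, Dp_eq (p := p) (mm p N) 0, eval_mul, map_mul, PhiL]
  have h1 := Gam_eq (p := p) (N := N) c
  have h2 := Hp_rho (p := p) (mm p N) 0
  conv_rhs => rw [← h1, h2]
  ring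

lemma PhiL_val (hN : 1 ≤ N) (c : ℕ) (hc : c < p) (k : ℕ) :
    (bn (mm p N) (c + p ^ 2 * k) : ℤ_[p]) = (PhiL p N c).eval (k : ℤ_[p]) * (bn (N - 1) k : ℤ_[p]) := by
  apply mul_left_cancel₀ (Dp_eval_zero_ne (p := p) (mm p N) 0)
  rw [star_low hN c k hc]
  have h2 := congrArg (fun P => Polynomial.eval (k : ℤ_[p]) P) (PhiL_eq (p := p) (N := N) c hc)
  simp only [eval_mul, eval_C] at h2 ⊢
  rw [← h2]
  ring

/-- reflection of the products `D_c` -/
lemma Dp_reflect (m c c' J : ℕ) (h : c + c' + 1 + m = p ^ 2 * J) :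
    (Dp p m c).comp (-C (J : ℤ_[p]) - X) =
      (-1) ^ ((Ico (c + 1) (c + 1 + m)).filter (fun i => ¬ p ^ 2 ∣ i)).card * Dp p m c' := by
  rw [Dp, Polynomial.prod_comp]
  have h1 : ∀ i ∈ (Ico (c + 1) (c + 1 + m)).filter (fun i => ¬ p ^ 2 ∣ i),
      (lin p i).comp (-C (J : ℤ_[p]) - X) = (-1) * lin p (p ^ 2 * J - i) := by
    intro i hi
    have hi1 := mem_Ico.1 (mem_filter.1 hi).1
    have hle : i ≤ p ^ 2 * J := by omega
    simp only [lin, add_comp, mul_comp, C_comp, X_comp]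
    rw [Nat.cast_sub hle]
    push_cast
    simp only [map_sub, map_mul, map_pow]
    ring
  rw [Finset.prod_congr rfl h1, Finset.prod_mul_distrib, Finset.prod_const]
  congr 1
  rw [Dp]
  refine Finset.prod_nbij' (fun i => p ^ 2 * J - i) (fun i => p ^ 2 * J - i) ?_ ?_ ?_ ?_ ?_
  · intro i hi
    simp only [mem_filter, mem_Ico] at hi ⊢
    refine ⟨by omega, ?_⟩
    intro h3
    apply hi.2
    have : i = p ^ 2 * J - (p ^ 2 * J - i) := by omega
    rw [this]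
    exact Nat.dvd_sub (dvd_mul_right _ _) h3
  · intro i hi
    simp only [mem_filter, mem_Ico] at hi ⊢
    refine ⟨by omega, ?_⟩
    intro h3
    apply hi.2
    have : i = p ^ 2 * J - (p ^ 2 * J - i) := by omega
    rw [this]
    exact Nat.dvd_sub (dvd_mul_right _ _) h3
  · intro i hi
    simp only [mem_filter, mem_Ico] at hi
    omega
  · intro i hi
    simp only [mem_filter, mem_Ico] at hi
    omega
  · intro i _
    rfl

/-- if `C d * Φ = C e * D_c` and `C d * Φ' = C e * D_{c'}` then `Φ(-J-X)^{2n} = Φ'^{2n}` -/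
lemma reflect_pow {m c c' J : ℕ} (h : c + c' + 1 + m = p ^ 2 * J) {d e : ℤ_[p]} (hd : d ≠ 0)
    {Φ Φ' : ℤ_[p][X]} (h1 : C d * Φ = C e * Dp p m c) (h2 : C d * Φ' = C e * Dp p m c')
    (n : ℕ) (hn : Even n) :
    (Φ.comp (-C (J : ℤ_[p]) - X)) ^ n = Φ' ^ n := by
  have h3 := congrArg (fun P => Polynomial.comp P (-C (J : ℤ_[p]) - X)) h1
  simp only [mul_comp, C_comp] at h3
  rw [Dp_reflect m c c' J h] at h3
  have h4 : C d * Φ.comp (-C (J : ℤ_[p]) - X) =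
      (-1) ^ ((Ico (c + 1) (c + 1 + m)).filter (fun i => ¬ p ^ 2 ∣ i)).card * (C d * Φ') := by
    rw [h3, h2]; ring
  have hd' : (C d : ℤ_[p][X]) ^ n ≠ 0 := pow_ne_zero _ (C_ne_zero.2 hd)
  apply mul_left_cancel₀ hd'
  rw [← mul_pow, h4, mul_pow, mul_pow, ← pow_mul, mul_comm _ n, pow_mul, hn.neg_one_pow, one_pow, one_mul]

end Pool.Agent.Helper93.Sun
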