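import Mathlib
import Pool.Agent.Helper93.Sun4

set_option autoImplicit false

namespace Pool.Agent.Helper93.Sun

open Polynomial Finset

variable {p : ℕ} [hp : Fact p.Prime] {N : ℕ}

/-- high digit polynomial -/
noncomputable def PhiH (p : ℕ) [Fact p.Prime] (N c : ℕ) : ℤ_[p][X] :=
  if h : 1 ≤ N ∧ ¬ p ∣ N ∧ p ≤ c ∧ c < p ^ 2 then
    (exists_PhiH (p := p) h.1 h.2.1 c h.2.2.1 h.2.2.2).choose else 0

lemma PhiH_spec (hN : 1 ≤ N) (hpN : ¬ p ∣ N) (c : ℕ) (hc : p ≤ c) (hc2 : c < p ^ 2) :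
    PhiH p N c ∈ Rs (p : ℤ_[p]) ∧
      C ((Dp p (mm p N) 0).eval 0) * PhiH p N c = C (p : ℤ_[p]) * Dp p (mm p N) c ∧
      ∀ k : ℕ, (bn (mm p N) (c + p ^ 2 * k) : ℤ_[p]) =
        (p : ℤ_[p]) * ((N : ℤ_[p]) + k) * (PhiH p N c).eval (k : ℤ_[p]) * (bn (N - 1) k : ℤ_[p]) := by
  rw [PhiH, dif_pos ⟨hN, hpN, hc, hc2⟩]
  exact (exists_PhiH (p := p) hN hpN c hc hc2).choose_spec

lemma PhiH_mem (c : ℕ) : PhiH p N c ∈ Rs (p : ℤ_[p]) := by
  by_cases h : 1 ≤ N ∧ ¬ p ∣ N ∧ p ≤ c ∧ c < p ^ 2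
  · exact (PhiH_spec h.1 h.2.1 c h.2.2.1 h.2.2.2).1
  · rw [PhiH, dif_neg h]; exact (Rs _).zero_mem

/-- substitution `X ↦ c + p² X` -/
noncomputable def sub2 (p : ℕ) [Fact p.Prime] (c : ℕ) : ℤ_[p][X] :=
  C (c : ℤ_[p]) + C ((p : ℤ_[p]) ^ 2) * X

lemma sub2_mem (c : ℕ) : sub2 p c ∈ Rs ((p : ℤ_[p]) ^ 2) := Rs_lin dvd_rfl

lemma comp_mem {a : ℤ_[p]} (g : ℤ_[p][X]) {P : ℤ_[p][X]} (h : P ∈ Rs a) : g.comp P ∈ Rs a := by
  obtain ⟨Q, rfl⟩ := mem_Rs.1 h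
  exact mem_Rs.2 ⟨g.comp Q, by rw [comp_assoc]⟩

lemma sub2_eval (c k : ℕ) : (sub2 p c).eval (k : ℤ_[p]) = ((c + p ^ 2 * k : ℕ) : ℤ_[p]) := by
  simp [sub2]

/-- low digit part of the transfer operator -/
noncomputable def Um (p : ℕ) [Fact p.Prime] (N : ℕ) (g : ℤ_[p][X]) : ℤ_[p][X] :=
  ∑ c ∈ range p, PhiL p N c ^ (p + 1) * g.comp (sub2 p c)

/-- high digit part -/
noncomputable def Cg (p : ℕ) [Fact p.Prime] (N : ℕ) (g : ℤ_[p][X]) : ℤ_[p][X] :=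
  ∑ c ∈ Ico p (p ^ 2), PhiH p N c ^ (p + 1) * g.comp (sub2 p c)

/-- one half -/
noncomputable def half (p : ℕ) [Fact p.Prime] : ℤ_[p] := Ring.inverse 2

lemma two_mul_half (h2 : p ≠ 2) : 2 * half p = 1 := by
  have h : IsUnit ((2 : ℕ) : ℤ_[p]) := by
    apply natCast_isUnit
    intro h
    exact h2 ((Nat.prime_dvd_prime_iff_eq hp.out Nat.prime_two).1 h)
  rw [half]
  have := Ring.mul_inverse_cancel _ h
  simpa using this

/-- the difference operator `∇ h` -/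
noncomputable def nab (p : ℕ) [Fact p.Prime] (N : ℕ) (h : ℤ_[p][X]) : ℤ_[p][X] :=
  (X + C (N : ℤ_[p])) ^ (p + 1) * h.comp (X + 1) - X ^ (p + 1) * h

noncomputable def UE (p : ℕ) [Fact p.Prime] (N : ℕ) (g : ℤ_[p][X]) : ℤ_[p][X] :=
  C (half p * (p : ℤ_[p]) ^ (p + 1)) * ((X + C (N : ℤ_[p])) ^ (p + 1) * Cg p N g +
    X ^ (p + 1) * (Cg p N g).comp (X - 1))

noncomputable def hU (p : ℕ) [Fact p.Prime] (N : ℕ) (g : ℤ_[p][X]) : ℤ_[p][X] :=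
  C (half p * (p : ℤ_[p]) ^ (p + 1)) * (Cg p N g).comp (X - 1)

/-- symmetrised transfer operator -/
noncomputable def Up (p : ℕ) [Fact p.Prime] (N : ℕ) (g : ℤ_[p][X]) : ℤ_[p][X] :=
  Um p N g + UE p N g

lemma high_split (h2 : p ≠ 2) (g : ℤ_[p][X]) :
    C ((p : ℤ_[p]) ^ (p + 1)) * ((X + C (N : ℤ_[p])) ^ (p + 1) * Cg p N g) =
      UE p N g + nab p N (hU p N g) := by
  have h1 : (C (2 * half p) : ℤ_[p][X]) = 1 := by rw [two_mul_half h2, map_one]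
  have h3 : ((Cg p N g).comp (X - 1)).comp (X + 1) = Cg p N g := by
    rw [comp_assoc]; simp
  rw [UE, nab, hU, mul_comp, C_comp, h3]
  simp only [map_mul] at h1 ⊢
  have h4 : (C (2 : ℤ_[p]) : ℤ_[p][X]) = 2 := rfl
  rw [h4] at h1
  linear_combination (-(C ((p : ℤ_[p]) ^ (p + 1)) * ((X + C (N : ℤ_[p])) ^ (p + 1) * Cg p N g))) * h1

/-- weighted sums -/
noncomputable def Ls (p : ℕ) [Fact p.Prime] (M n : ℕ) (g : ℤ_[p][X]) : ℤ_[p] :=
  ∑ k ∈ range n, (bn M k : ℤ_[p]) ^ (p + 1) * g.eval (k : ℤ_[p])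

lemma Ls_add (M n : ℕ) (f g : ℤ_[p][X]) : Ls p M n (f + g) = Ls p M n f + Ls p M n g := by
  simp only [Ls, eval_add, mul_add, Finset.sum_add_distrib]

lemma Ls_C_mul (M n : ℕ) (a : ℤ_[p]) (g : ℤ_[p][X]) : Ls p M n (C a * g) = a * Ls p M n g := by
  simp only [Ls, eval_mul, eval_C, Finset.mul_sum]
  exact Finset.sum_congr rfl fun k _ => by ring

lemma sum_range_mul' {A : Type*} [AddCommMonoid A] (q n : ℕ) (f : ℕ → A) :
    ∑ m ∈ range (q * n), f m = ∑ k ∈ range n, ∑ c ∈ range q, f (c + q * k) := by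
  induction n with
  | zero => simp
  | succ n ih =>
    rw [mul_add, mul_one, Finset.sum_range_add, ih, Finset.sum_range_succ]
    congr 1
    exact Finset.sum_congr rfl fun c _ => by rw [add_comm]

lemma Ls_rec (hN : 1 ≤ N) (hpN : ¬ p ∣ N) (n : ℕ) (g : ℤ_[p][X]) :
    Ls p (mm p N) (p ^ 2 * n) g = Ls p (N - 1) n (Um p N g) +
      Ls p (N - 1) n (C ((p : ℤ_[p]) ^ (p + 1)) * ((X + C (N : ℤ_[p])) ^ (p + 1) * Cg p N g)) := by
  rw [Ls, sum_range_mul', Ls, Ls, ← Finset.sum_add_distrib]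
  refine Finset.sum_congr rfl fun k _ => ?_
  have hpp : p ≤ p ^ 2 := by nlinarith [p_two_le (p := p)]
  rw [← Finset.sum_range_add_sum_Ico _ hpp]
  congr 1
  · rw [Um, eval_finsetSum, Finset.mul_sum]
    refine Finset.sum_congr rfl fun c hc => ?_
    rw [PhiL_val hN c (mem_range.1 hc) k, eval_mul, eval_pow, eval_comp, sub2_eval]
    ring
  · rw [eval_mul, eval_C, eval_mul, eval_pow, Cg, eval_finsetSum, eval_add, eval_X, eval_C]
    rw [Finset.mul_sum, Finset.mul_sum, Finset.mul_sum]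
    refine Finset.sum_congr rfl fun c hc => ?_
    have hc' := mem_Ico.1 hc
    rw [(PhiH_spec (p := p) hN hpN c hc'.1 hc'.2).2.2 k, eval_mul, eval_pow, eval_comp, sub2_eval]
    simp only [mul_pow]
    ring

lemma Ls_nab (hN : 1 ≤ N) (n : ℕ) (h : ℤ_[p][X]) :
    Ls p (N - 1) n (nab p N h) =
      (n : ℤ_[p]) ^ (p + 1) * (bn (N - 1) n : ℤ_[p]) ^ (p + 1) * h.eval (n : ℤ_[p]) := by
  induction n with
  | zero => simp [Ls]
  | succ n ih =>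
    rw [Ls, Finset.sum_range_succ, ← Ls, ih]
    have h1 := bn_succ (N - 1) n
    have h2 : (bn (N - 1) (n + 1) : ℤ_[p]) * ((n : ℤ_[p]) + 1) =
        (bn (N - 1) n : ℤ_[p]) * ((N : ℤ_[p]) + n) := by
      have h3 : N - 1 + n + 1 = N + n := by omega
      rw [h3] at h1
      exact_mod_cast congrArg (Nat.cast : ℕ → ℤ_[p]) h1
    have h4 := congrArg (fun x => x ^ (p + 1)) h2
    simp only [mul_pow] at h4
    rw [nab]
    simp only [eval_sub, eval_mul, eval_pow, eval_add, eval_X, eval_C, eval_comp, eval_one]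
    push_cast
    rw [add_comm (N : ℤ_[p]) (n : ℤ_[p])] at h4
    linear_combination (-(h.eval ((n : ℤ_[p]) + 1))) * h4

/-- full recursion -/
lemma Ls_step (h2 : p ≠ 2) (hN : 1 ≤ N) (hpN : ¬ p ∣ N) (n : ℕ) (g : ℤ_[p][X]) :
    Ls p (mm p N) (p ^ 2 * n) g = Ls p (N - 1) n (Up p N g) +
      (n : ℤ_[p]) ^ (p + 1) * (bn (N - 1) n : ℤ_[p]) ^ (p + 1) * (hU p N g).eval (n : ℤ_[p]) := by
  rw [Ls_rec hN hpN, high_split h2, Ls_add, Ls_nab hN, Up, Ls_add]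
  ring

end Pool.Agent.Helper93.Sun
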