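import Mathlib
import Pool.Agent.Helper93.Sun5

set_option autoImplicit false

namespace Pool.Agent.Helper93.Sun

open Polynomial Finset

variable {p : ℕ} [hp : Fact p.Prime] {N : ℕ}

/-- reflection invariance `P(-J-X) = P(X)` -/
def IsSym (J : ℕ) (P : ℤ_[p][X]) : Prop := P.comp (-C (J : ℤ_[p]) - X) = P

lemma IsSym.comp_neg {J : ℕ} {P : ℤ_[p][X]} (h : IsSym J P) (Z : ℤ_[p][X]) :
    P.comp (-C (J : ℤ_[p]) - Z) = P.comp Z := by
  conv_rhs => rw [← h]
  rw [comp_assoc]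
  simp

lemma p_succ_even (h2 : p ≠ 2) : Even (p + 1) := by
  have := hp.out.odd_of_ne_two h2
  exact this.add_one

lemma sub2_refl (g : ℤ_[p][X]) (hg : IsSym (mm p N + 1) g) (c c' J : ℕ)
    (h : c + c' + 1 + mm p N = p ^ 2 * J) :
    (g.comp (sub2 p c)).comp (-C (J : ℤ_[p]) - X) = g.comp (sub2 p c') := by
  rw [← hg.comp_neg (sub2 p c'), comp_assoc]
  congr 1
  have h1 := congrArg (Nat.cast : ℕ → ℤ_[p][X]) h
  simp only [sub2, add_comp, mul_comp, C_comp, X_comp]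
  push_cast at h1 ⊢
  simp only [map_pow, map_natCast, map_add, map_one]
  linear_combination h1

lemma Um_sym (h2 : p ≠ 2) (hN : 1 ≤ N) (g : ℤ_[p][X]) (hg : IsSym (mm p N + 1) g) :
    IsSym N (Um p N g) := by
  unfold IsSym
  rw [Um, Polynomial.sum_comp]
  have hadd := mm_add (p := p) hN
  rw [← Finset.sum_range_reflect (fun c => PhiL p N c ^ (p + 1) * g.comp (sub2 p c)) p]
  refine Finset.sum_congr rfl fun c hc => ?_
  have hc' := mem_range.1 hc
  have hcc : c + (p - 1 - c) + 1 + mm p N = p ^ 2 * N := by omega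
  rw [mul_comp, pow_comp]
  rw [sub2_refl g hg c (p - 1 - c) N hcc]
  congr 1
  exact reflect_pow hcc (Dp_eval_zero_ne (p := p) (mm p N) 0) (e := 1)
    (by rw [map_one, one_mul]; exact PhiL_eq c hc')
    (by rw [map_one, one_mul]; exact PhiL_eq (p - 1 - c) (by omega)) (p + 1) (p_succ_even h2)

lemma Cg_sym (h2 : p ≠ 2) (hN : 1 ≤ N) (hpN : ¬ p ∣ N) (g : ℤ_[p][X]) (hg : IsSym (mm p N + 1) g) :
    IsSym (N + 1) (Cg p N g) := by
  unfold IsSym
  rw [Cg, Polynomial.sum_comp]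
  have hadd := mm_add (p := p) hN
  have hpp : p ≤ p ^ 2 := by nlinarith [p_two_le (p := p)]
  have hr := Finset.sum_Ico_reflect (fun c => PhiH p N c ^ (p + 1) * g.comp (sub2 p c)) p (m := p ^ 2) (n := p ^ 2 + p - 1) (by omega)
  have hp2 := p_two_le (p := p)
  have e1 : p ^ 2 + p - 1 + 1 - p ^ 2 = p := by omega
  have e2 : p ^ 2 + p - 1 + 1 - p = p ^ 2 := by omega
  rw [e1, e2] at hr
  rw [← hr]
  refine Finset.sum_congr rfl fun c hc => ?_
  have hc' := mem_Ico.1 hc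
  have hcc : c + (p ^ 2 + p - 1 - c) + 1 + mm p N = p ^ 2 * (N + 1) := by
    have : p ^ 2 * (N + 1) = p ^ 2 * N + p ^ 2 := by ring
    omega
  rw [mul_comp, pow_comp]
  rw [sub2_refl g hg c (p ^ 2 + p - 1 - c) (N + 1) hcc]
  congr 1
  exact reflect_pow hcc (Dp_eval_zero_ne (p := p) (mm p N) 0)
    (PhiH_spec hN hpN c hc'.1 hc'.2).2.1
    (PhiH_spec hN hpN (p ^ 2 + p - 1 - c) (by omega) (by omega)).2.1 (p + 1) (p_succ_even h2)

lemma UE_sym (h2 : p ≠ 2) (hN : 1 ≤ N) (hpN : ¬ p ∣ N) (g : ℤ_[p][X]) (hg : IsSym (mm p N + 1) g) :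
    IsSym N (UE p N g) := by
  have h1 := Cg_sym h2 hN hpN g hg
  have h3 : (Cg p N g).comp (-C (N : ℤ_[p]) - X) = (Cg p N g).comp (X - 1) := by
    rw [← h1.comp_neg (X - 1)]
    congr 1
    push_cast
    simp only [map_add, map_natCast, map_one]
    ring
  have h4 : ((Cg p N g).comp (X - 1)).comp (-C (N : ℤ_[p]) - X) = Cg p N g := by
    rw [comp_assoc]
    conv_rhs => rw [← h1]
    congr 1
    push_cast
    simp only [map_add, map_natCast, map_one, sub_comp, X_comp, one_comp]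
    ring
  have hev := p_succ_even h2
  unfold IsSym
  rw [UE]
  simp only [mul_comp, add_comp, pow_comp, C_comp, X_comp, h3, h4]
  have e1 : (-C (N : ℤ_[p]) - X + C (N : ℤ_[p]) : ℤ_[p][X]) ^ (p + 1) = X ^ (p + 1) := by
    have : (-C (N : ℤ_[p]) - X + C (N : ℤ_[p]) : ℤ_[p][X]) = - X := by ring
    rw [this, hev.neg_pow]
  have e2 : (-C (N : ℤ_[p]) - X : ℤ_[p][X]) ^ (p + 1) = (X + C (N : ℤ_[p])) ^ (p + 1) := by
    have : (-C (N : ℤ_[p]) - X : ℤ_[p][X]) = - (X + C (N : ℤ_[p])) := by ring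
    rw [this, hev.neg_pow]
  rw [e1, e2]
  ring

lemma IsSym.add {J : ℕ} {P Q : ℤ_[p][X]} (hP : IsSym J P) (hQ : IsSym J Q) : IsSym J (P + Q) := by
  unfold IsSym at *
  rw [add_comp, hP, hQ]

lemma Up_sym (h2 : p ≠ 2) (hN : 1 ≤ N) (hpN : ¬ p ∣ N) (g : ℤ_[p][X]) (hg : IsSym (mm p N + 1) g) :
    IsSym N (Up p N g) := (Um_sym h2 hN g hg).add (UE_sym h2 hN hpN g hg)

end Pool.Agent.Helper93.Sun
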