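import Mathlib
import Pool.Agent.Helper93.Sun6

set_option autoImplicit false

namespace Pool.Agent.Helper93.Sun

open Polynomial Finset

variable {p : ℕ} [hp : Fact p.Prime] {N : ℕ}

/-- even polynomials -/
def IsEv (A : ℤ_[p][X]) : Prop := A.comp (-X) = A

lemma IsEv.sub {A B : ℤ_[p][X]} (hA : IsEv A) (hB : IsEv B) : IsEv (A - B) := by
  unfold IsEv at *; rw [sub_comp, hA, hB]

lemma IsEv.add {A B : ℤ_[p][X]} (hA : IsEv A) (hB : IsEv B) : IsEv (A + B) := by
  unfold IsEv at *; rw [add_comp, hA, hB]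

lemma IsEv.C_mul {A : ℤ_[p][X]} (a : ℤ_[p]) (hA : IsEv A) : IsEv (C a * A) := by
  unfold IsEv at *; rw [mul_comp, C_comp, hA]

lemma coeff_comp_neg (A : ℤ_[p][X]) (m : ℕ) : (A.comp (-X)).coeff m = A.coeff m * (-1) ^ m := by
  have : (-X : ℤ_[p][X]) = C (-1) * X := by simp
  rw [this, comp_C_mul_X_coeff]

lemma IsEv.coeff_odd {A : ℤ_[p][X]} (hA : IsEv A) {m : ℕ} (hm : Odd m) : A.coeff m = 0 := by
  have h1 := coeff_comp_neg A m
  rw [hA, hm.neg_one_pow] at h1
  have h2 : (2 : ℤ_[p]) * A.coeff m = 0 := by linear_combination h1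
  rcases mul_eq_zero.1 h2 with h | h
  · norm_num at h
  · exact h

/-- `∇` in centred coordinates -/
noncomputable def nabY (p : ℕ) [Fact p.Prime] (ω h : ℤ_[p]) (H : ℤ_[p][X]) : ℤ_[p][X] :=
  (X + C ω) ^ (p + 1) * H.comp (X + C h) - (X - C ω) ^ (p + 1) * H.comp (X - C h)

lemma nabY_add (ω h : ℤ_[p]) (H K : ℤ_[p][X]) : nabY p ω h (H + K) = nabY p ω h H + nabY p ω h K := by
  simp only [nabY, add_comp]; ring

lemma nabY_C_mul (ω h a : ℤ_[p]) (H : ℤ_[p][X]) : nabY p ω h (C a * H) = C a * nabY p ω h H := by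
  simp only [nabY, mul_comp, C_comp]; ring

lemma nabY_pow_ev (h2 : p ≠ 2) (ω h : ℤ_[p]) (r : ℕ) (hr : Odd r) : IsEv (nabY p ω h (X ^ r)) := by
  unfold IsEv nabY
  have hev := p_succ_even h2
  simp only [sub_comp, mul_comp, pow_comp, add_comp, X_comp, C_comp]
  have e1 : (-X + C ω : ℤ_[p][X]) ^ (p + 1) = (X - C ω) ^ (p + 1) := by
    rw [show (-X + C ω : ℤ_[p][X]) = -(X - C ω) by ring, hev.neg_pow]
  have e2 : (-X - C ω : ℤ_[p][X]) ^ (p + 1) = (X + C ω) ^ (p + 1) := by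
    rw [show (-X - C ω : ℤ_[p][X]) = -(X + C ω) by ring, hev.neg_pow]
  have e3 : (-X + C h : ℤ_[p][X]) ^ r = -(X - C h) ^ r := by
    rw [show (-X + C h : ℤ_[p][X]) = -(X - C h) by ring, hr.neg_pow]
  have e4 : (-X - C h : ℤ_[p][X]) ^ r = -(X + C h) ^ r := by
    rw [show (-X - C h : ℤ_[p][X]) = -(X + C h) by ring, hr.neg_pow]
  rw [e1, e2, e3, e4]
  ring

lemma mono_aux (a b : ℤ_[p]) (r : ℕ) :
    ((X + C a) ^ (p + 1) * (X + C b) ^ r).Monic ∧
    ((X + C a) ^ (p + 1) * (X + C b) ^ r).natDegree = p + 1 + r ∧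
    ((X + C a) ^ (p + 1) * (X + C b) ^ r).coeff (p + r) = (p + 1) * a + r * b := by
  have m1 : ((X + C a) ^ (p + 1)).Monic := (monic_X_add_C a).pow _
  have m2 : ((X + C b) ^ r).Monic := (monic_X_add_C b).pow _
  have hd : ((X + C a) ^ (p + 1) * (X + C b) ^ r).natDegree = p + 1 + r := by
    rw [m1.natDegree_mul m2, (monic_X_add_C a).natDegree_pow, (monic_X_add_C b).natDegree_pow,
      natDegree_X_add_C, natDegree_X_add_C]
    ring
  refine ⟨m1.mul m2, hd, ?_⟩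
  have h1 := m1.nextCoeff_mul m2
  rw [(monic_X_add_C a).nextCoeff_pow, (monic_X_add_C b).nextCoeff_pow, nextCoeff_X_add_C,
    nextCoeff_X_add_C, nextCoeff_of_natDegree_pos (by rw [hd]; omega), hd] at h1
  rw [show p + 1 + r - 1 = p + r by omega] at h1
  rw [h1]
  simp only [nsmul_eq_mul]
  push_cast
  ring

lemma nabY_pow_coeff (ω h : ℤ_[p]) (r : ℕ) :
    (nabY p ω h (X ^ r)).coeff (p + r) = 2 * ((p + 1) * ω + r * h) ∧
    (nabY p ω h (X ^ r)).natDegree ≤ p + r := by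
  have h1 := mono_aux ω h r
  have h2 := mono_aux (-ω) (-h) r
  have e : nabY p ω h (X ^ r) = (X + C ω) ^ (p + 1) * (X + C h) ^ r -
      (X + C (-ω)) ^ (p + 1) * (X + C (-h)) ^ r := by
    simp only [nabY, pow_comp, X_comp, map_neg]
    ring
  constructor
  · rw [e, coeff_sub, h1.2.2, h2.2.2]; ring
  · rw [natDegree_le_iff_coeff_eq_zero]
    intro m hm
    rw [e, coeff_sub]
    rcases Nat.eq_or_lt_of_le (show p + 1 + r ≤ m by omega) with h | h
    · subst h
      have a1 := h1.1.coeff_natDegree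
      have a2 := h2.1.coeff_natDegree
      rw [h1.2.1] at a1
      rw [h2.2.1] at a2
      rw [a1, a2, sub_self]
    · rw [coeff_eq_zero_of_natDegree_lt (by rw [h1.2.1]; exact h),
        coeff_eq_zero_of_natDegree_lt (by rw [h2.2.1]; exact h), sub_zero]

/-- Reduction modulo exact forms. `δ = (p+1) N - 1`. -/
lemma reduce (h2 : p ≠ 2) (ω h δ : ℤ_[p]) (hh : 2 * h = 1) (hω : 2 * ((p + 1) * ω) = δ + 1)
    (s : ℕ) (J : ℕ) (hJ : ∀ j : ℕ, 1 ≤ j → j ≤ J → ∃ q : ℤ_[p], (j : ℤ_[p]) * q = δ ∧ (p : ℤ_[p]) ∣ q)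
    (A : ℤ_[p][X]) (hA : IsEv A) (hdeg : A.natDegree ≤ p - 1 + 2 * J)
    (hcoef : ∀ j : ℕ, 1 ≤ j → j ≤ J → (p : ℤ_[p]) ^ s * (j.factorial : ℤ_[p]) ∣ A.coeff (p - 1 + 2 * j)) :
    ∃ H A' : ℤ_[p][X], A = A' + nabY p ω h H ∧ IsEv A' ∧ A'.natDegree ≤ p - 1 ∧
      ∀ m, (p : ℤ_[p]) ^ s ∣ A.coeff m - A'.coeff m := by
  induction J generalizing A with
  | zero =>
    refine ⟨0, A, ?_, hA, by simpa using hdeg, fun m => by simp⟩
    simp [nabY]
  | succ J ih =>
    have hp2 := p_two_le (p := p)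
    obtain ⟨a', ha'⟩ := hcoef (J + 1) (by omega) le_rfl
    obtain ⟨q, hq1, hq2⟩ := hJ (J + 1) (by omega) le_rfl
    -- unit 2 + q
    have hu : IsUnit (2 + q) := by
      have h4 : IsUnit (2 : ℤ_[p]) := by
        have : IsUnit ((2 : ℕ) : ℤ_[p]) := by
          apply natCast_isUnit
          intro h
          exact h2 ((Nat.prime_dvd_prime_iff_eq hp.out Nat.prime_two).1 h)
        simpa using this
      rw [PadicInt.isUnit_iff] at h4 ⊢
      have h5 : ‖q‖ < 1 := (PadicInt.norm_lt_one_iff_dvd q).2 hq2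
      have h6 := PadicInt.norm_add_eq_max_of_ne (q := (2 : ℤ_[p])) (r := q) (by rw [h4]; exact h5.ne')
      rw [h6, h4, max_eq_left h5.le]
    obtain ⟨v, hv⟩ := hu.exists_right_inv
    set e : ℤ_[p] := (p : ℤ_[p]) ^ s * (J.factorial : ℤ_[p]) * a' * v with he
    set r := 2 * J + 1 with hr
    have hco := nabY_pow_coeff (p := p) ω h r
    have hdegeq : p - 1 + 2 * (J + 1) = p + r := by omega
    -- leading coefficient matches
    have hlead : e * (2 * ((p + 1) * ω + r * h)) = A.coeff (p - 1 + 2 * (J + 1)) := by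
      rw [ha', he]
      have h7 : 2 * (((p : ℤ_[p]) + 1) * ω + r * h) = ((J : ℤ_[p]) + 1) * (2 + q) := by
        have h8 : ((J + 1 : ℕ) : ℤ_[p]) * q = δ := hq1
        push_cast at h8
        have h9 : (r : ℤ_[p]) = 2 * J + 1 := by rw [hr]; push_cast; ring
        rw [h9]
        linear_combination hω + (2 * (J : ℤ_[p]) + 1) * hh - h8
      rw [h7, Nat.factorial_succ]
      push_cast
      linear_combination ((p : ℤ_[p]) ^ s * (J.factorial : ℤ_[p]) * a' * ((J : ℤ_[p]) + 1)) * hv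
    set A₁ := A - C e * nabY p ω h (X ^ r) with hA1
    have hA1ev : IsEv A₁ := hA.sub ((nabY_pow_ev h2 ω h r ⟨J, hr⟩).C_mul e)
    have hodd : Odd (p - 1 + 2 * J + 1) := by
      have : Odd p := hp.out.odd_of_ne_two h2
      obtain ⟨t, ht⟩ := this
      exact ⟨t + J, by omega⟩
    have hdeg1 : A₁.natDegree ≤ p - 1 + 2 * J := by
      rw [natDegree_le_iff_coeff_eq_zero]
      intro m hm
      rcases Nat.lt_or_ge m (p - 1 + 2 * J + 2) with h | h
      · have : m = p - 1 + 2 * J + 1 := by omega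
        subst this
        exact hA1ev.coeff_odd hodd
      · rcases Nat.eq_or_lt_of_le h with h | h
        · have hm' : m = p - 1 + 2 * (J + 1) := by omega
          rw [hA1, coeff_sub, coeff_C_mul, hm', hdegeq, hco.1, hlead, hdegeq, sub_self]
        · rw [hA1, coeff_sub, coeff_C_mul, coeff_eq_zero_of_natDegree_lt (by omega),
            coeff_eq_zero_of_natDegree_lt (lt_of_le_of_lt hco.2 (by omega)), mul_zero, sub_zero]
    have hediv : (p : ℤ_[p]) ^ s * (J.factorial : ℤ_[p]) ∣ e := by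
      rw [he, mul_assoc]; exact dvd_mul_right _ _
    have hcoef1 : ∀ j : ℕ, 1 ≤ j → j ≤ J →
        (p : ℤ_[p]) ^ s * (j.factorial : ℤ_[p]) ∣ A₁.coeff (p - 1 + 2 * j) := by
      intro j hj1 hj2
      rw [hA1, coeff_sub, coeff_C_mul]
      apply dvd_sub (hcoef j hj1 (by omega))
      apply Dvd.dvd.mul_right
      refine dvd_trans ?_ hediv
      apply mul_dvd_mul_left
      exact_mod_cast (Nat.cast_dvd_cast (α := ℤ_[p]) (Nat.factorial_dvd_factorial hj2))
    obtain ⟨H, A', hH, hev, hdg, hc⟩ := ih (fun j h1 h2 => hJ j h1 (by omega)) A₁ hA1ev hdeg1 hcoef1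
    refine ⟨H + C e * X ^ r, A', ?_, hev, hdg, ?_⟩
    · rw [nabY_add, nabY_C_mul, ← add_assoc, ← hH, hA1]; ring
    · intro m
      have h8 := hc m
      rw [hA1, coeff_sub, coeff_C_mul] at h8
      have h9 : (p : ℤ_[p]) ^ s ∣ e * (nabY p ω h (X ^ r)).coeff m :=
        Dvd.dvd.mul_right (dvd_trans (dvd_mul_right _ _) hediv) _
      have h10 := dvd_add h8 h9
      convert h10 using 1
      ring

end Pool.Agent.Helper93.Sun
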