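import Mathlib
import Pool.Agent.Helper93.Sun7

set_option autoImplicit false

namespace Pool.Agent.Helper93.Sun

open Polynomial Finset

variable {p : ℕ} [hp : Fact p.Prime] {N : ℕ}

lemma nab_nabY (h2 : p ≠ 2) (N : ℕ) (H : ℤ_[p][X]) :
    nab p N (H.comp (X + C ((N : ℤ_[p]) * half p - half p))) =
      (nabY p ((N : ℤ_[p]) * half p) (half p) H).comp (X + C ((N : ℤ_[p]) * half p)) := by
  have h1 : (C (half p) + C (half p) : ℤ_[p][X]) = 1 := by
    rw [← map_add, ← two_mul, two_mul_half h2, map_one]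
  have hN : (C ((N : ℤ_[p]) * half p) + C ((N : ℤ_[p]) * half p) : ℤ_[p][X]) = C (N : ℤ_[p]) := by
    rw [← map_add, ← two_mul, mul_left_comm, two_mul_half h2, mul_one]
  have e1 : (X + 1 + C ((N : ℤ_[p]) * half p - half p) : ℤ_[p][X]) =
      X + C ((N : ℤ_[p]) * half p) + C (half p) := by
    rw [map_sub]; linear_combination (-1 : ℤ_[p][X]) * h1
  have e2 : (X + C ((N : ℤ_[p]) * half p - half p) : ℤ_[p][X]) =
      X + C ((N : ℤ_[p]) * half p) - C (half p) := by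
    rw [map_sub]; ring
  have e3 : (X + C ((N : ℤ_[p]) * half p) + C ((N : ℤ_[p]) * half p) : ℤ_[p][X]) = X + C (N : ℤ_[p]) := by
    rw [add_assoc, hN]
  rw [nab, nabY]
  simp only [comp_assoc, add_comp, sub_comp, mul_comp, pow_comp, X_comp, C_comp]
  rw [e1, e2, e3, add_sub_cancel_right]

/-- coefficient class: `p^{max s m}` divides the `m`-th coefficient -/
def Sc (p : ℕ) [Fact p.Prime] (s : ℕ) (P : ℤ_[p][X]) : Prop := ∀ m, (p : ℤ_[p]) ^ (max s m) ∣ P.coeff m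

lemma Sc.add {s : ℕ} {P Q : ℤ_[p][X]} (hP : Sc p s P) (hQ : Sc p s Q) : Sc p s (P + Q) := fun m => by
  rw [coeff_add]; exact dvd_add (hP m) (hQ m)

lemma Sc.mono {s t : ℕ} (h : s ≤ t) {P : ℤ_[p][X]} (hP : Sc p t P) : Sc p s P := fun m =>
  (pow_dvd_pow _ (max_le_max h le_rfl)).trans (hP m)

lemma Sc.mul {s : ℕ} {P Q : ℤ_[p][X]} (hP : Sc p s P) (hQ : Q ∈ Rs (p : ℤ_[p])) : Sc p s (P * Q) := fun m => by
  rw [coeff_mul]
  apply Finset.dvd_sum
  rintro ⟨i, j⟩ hij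
  have hij' := mem_antidiagonal.1 hij
  simp only at hij'
  have h1 := mul_dvd_mul (hP i) (Rs_coeff hQ j)
  rw [← pow_add] at h1
  refine (pow_dvd_pow _ ?_).trans h1
  rcases le_total s i with h | h
  · rw [max_eq_right h]; exact max_le (by omega) (by omega)
  · rw [max_eq_left h]; exact max_le (by omega) (by omega)

lemma Sc.C_mul {s : ℕ} {P : ℤ_[p][X]} (hP : Sc p s P) (a : ℤ_[p]) : Sc p s (C a * P) := fun m => by
  rw [coeff_C_mul]; exact Dvd.dvd.mul_left (hP m) _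

lemma coeff_comp_add (P : ℤ_[p][X]) (a : ℤ_[p]) (m : ℕ) :
    (P.comp (X + C a)).coeff m = ∑ i ∈ range (P.natDegree + 1), ((i + m).choose m : ℤ_[p]) * P.coeff (i + m) * a ^ i := by
  have : P.comp (X + C a) = taylor a P := by rw [taylor_apply]
  rw [this, taylor_coeff, eval_eq_sum_range' (n := P.natDegree + 1)]
  · refine Finset.sum_congr rfl fun i _ => ?_
    rw [hasseDeriv_coeff]
  · exact lt_of_le_of_lt (natDegree_hasseDeriv_le P m) (by omega)

lemma Sc.trans {s : ℕ} {P : ℤ_[p][X]} (hP : Sc p s P) (a : ℤ_[p]) : Sc p s (P.comp (X + C a)) := fun m => by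
  rw [coeff_comp_add]
  apply Finset.dvd_sum
  intro i _
  apply Dvd.dvd.mul_right
  apply Dvd.dvd.mul_left
  exact (pow_dvd_pow _ (max_le_max le_rfl (by omega))).trans (hP (i + m))

lemma Sc_of_Rs {s : ℕ} {Q : ℤ_[p][X]} (hQ : Q ∈ Rs (p : ℤ_[p])) : Sc p s (C ((p : ℤ_[p]) ^ s) * Q) := fun m => by
  rw [coeff_C_mul]
  refine (pow_dvd_pow _ (?_ : max s m ≤ s + m)).trans ?_
  · exact max_le (by omega) (by omega)
  · rw [pow_add]; exact mul_dvd_mul_left _ (Rs_coeff hQ m)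

lemma Rs_trans {Q : ℤ_[p][X]} (hQ : Q ∈ Rs (p : ℤ_[p])) (a : ℤ_[p]) : Q.comp (X + C a) ∈ Rs (p : ℤ_[p]) := by
  obtain ⟨P, rfl⟩ := mem_Rs.1 hQ
  refine mem_Rs.2 ⟨P.comp (X + C (p * a)), ?_⟩
  simp only [comp_assoc, add_comp, mul_comp, X_comp, C_comp, map_mul]
  congr 1
  ring

end Pool.Agent.Helper93.Sun
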