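import Mathlib
import Pool.Agent.Helper93.Sun8

set_option autoImplicit false

namespace Pool.Agent.Helper93.Sun

open Polynomial Finset

variable {p : ℕ} [hp : Fact p.Prime] {N : ℕ}

/-- product of `(i + X)` over `i ∈ (c, c+m]`, `p ∤ i` -/
noncomputable def gq (p : ℕ) [Fact p.Prime] (m c : ℕ) : ℤ_[p][X] :=
  ∏ i ∈ (Ico (c + 1) (c + 1 + m)).filter (fun i => ¬ p ∣ i), (C (i : ℤ_[p]) + X)

/-- normalised version -/
noncomputable def gm (p : ℕ) [Fact p.Prime] (N c : ℕ) : ℤ_[p][X] :=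
  C (Ring.inverse ((Gp p (mm p N) 0).eval 0)) * gq p (mm p N) c

lemma gq_comp (m c : ℕ) : (gq p m c).comp (C ((p : ℤ_[p]) ^ 2) * X) = Gp p m c := by
  rw [gq, Gp, Polynomial.prod_comp]
  refine Finset.prod_congr rfl fun i _ => ?_
  simp only [add_comp, C_comp, X_comp, lin]

lemma gm_comp (c : ℕ) : (gm p N c).comp (C ((p : ℤ_[p]) ^ 2) * X) = Gam p N c := by
  rw [gm, Gam, mul_comp, C_comp, gq_comp]

lemma gq_eval_zero (m c : ℕ) : (gq p m c).eval 0 = (Gp p m c).eval 0 := by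
  rw [← gq_comp, eval_comp]; simp

lemma gm_zero_eval : (gm p N 0).eval 0 = 1 := by
  rw [gm, eval_mul, eval_C, gq_eval_zero]
  exact Ring.inverse_mul_cancel _ (Gp_unit _ _)

lemma gq_succ (m c : ℕ) (hm : p ∣ m) (hc : c + 1 < p) :
    (X + C ((c + 1 : ℕ) : ℤ_[p])) * gq p m (c + 1) = (X + C ((m + c + 1 : ℕ) : ℤ_[p])) * gq p m c := by
  have hnd1 : ¬ p ∣ (c + 1) := fun h => by
    have := Nat.le_of_dvd (by omega) h; omega
  have hnd2 : ¬ p ∣ (c + 1 + m) := fun h => hnd1 ((Nat.dvd_add_left hm).1 h)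
  have e1 : ∏ i ∈ (Ico (c + 1) (c + 1 + m + 1)).filter (fun i => ¬ p ∣ i), (C (i : ℤ_[p]) + X) =
      (X + C ((c + 1 : ℕ) : ℤ_[p])) * gq p m (c + 1) := by
    rw [gq, Finset.prod_filter, Finset.prod_filter, Finset.prod_eq_prod_Ico_succ_bot (by omega)]
    rw [if_pos hnd1]
    have : c + 1 + m + 1 = c + 1 + 1 + m := by ring
    rw [this, add_comm X]
  have e2 : ∏ i ∈ (Ico (c + 1) (c + 1 + m + 1)).filter (fun i => ¬ p ∣ i), (C (i : ℤ_[p]) + X) =
      (X + C ((m + c + 1 : ℕ) : ℤ_[p])) * gq p m c := by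
    rw [gq, Finset.prod_filter, Finset.prod_filter, Finset.prod_Ico_succ_top (by omega)]
    rw [if_pos hnd2]
    have : m + c + 1 = c + 1 + m := by ring
    rw [this, mul_comm, add_comm X]
  rw [← e1, e2]

lemma p_dvd_mm : p ∣ mm p N := dvd_mul_right _ _

lemma gm_succ (c : ℕ) (hc : c + 1 < p) :
    (X + C ((c + 1 : ℕ) : ℤ_[p])) * gm p N (c + 1) =
      (X + C ((mm p N + c + 1 : ℕ) : ℤ_[p])) * gm p N c := by
  rw [gm, gm]
  have := gq_succ (p := p) (mm p N) c p_dvd_mm hc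
  linear_combination (C (Ring.inverse ((Gp p (mm p N) 0).eval 0)) : ℤ_[p][X]) * this

/-- the inner sum, as a polynomial in `t = p² X` -/
noncomputable def Bt (p : ℕ) [Fact p.Prime] (N : ℕ) (g : ℤ_[p][X]) : ℤ_[p][X] :=
  ∑ c ∈ range p, gm p N c ^ (p + 1) * g.comp (X + C (c : ℤ_[p]))

lemma Um_eq (g : ℤ_[p][X]) :
    Um p N g = rhoH p (mm p N) 0 ^ (p + 1) * (Bt p N g).comp (C ((p : ℤ_[p]) ^ 2) * X) := by
  rw [Um, Bt, Polynomial.sum_comp, Finset.mul_sum]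
  refine Finset.sum_congr rfl fun c _ => ?_
  rw [PhiL, mul_comp, pow_comp, gm_comp, comp_assoc, mul_pow]
  have : (X + C (c : ℤ_[p]) : ℤ_[p][X]).comp (C ((p : ℤ_[p]) ^ 2) * X) = sub2 p c := by
    simp only [add_comp, X_comp, C_comp, sub2]; ring
  rw [this]
  ring

lemma Bt_add (f g : ℤ_[p][X]) : Bt p N (f + g) = Bt p N f + Bt p N g := by
  simp only [Bt, add_comp, mul_add, Finset.sum_add_distrib]

lemma Bt_C_mul (a : ℤ_[p]) (g : ℤ_[p][X]) : Bt p N (C a * g) = C a * Bt p N g := by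
  simp only [Bt, mul_comp, C_comp, Finset.mul_sum]
  exact Finset.sum_congr rfl fun c _ => by ring

lemma gq_reflect (m c c' J : ℕ) (h : c + c' + 1 + m = p ^ 2 * J) :
    (gq p m c).comp (-C ((p ^ 2 * J : ℕ) : ℤ_[p]) - X) =
      (-1) ^ ((Ico (c + 1) (c + 1 + m)).filter (fun i => ¬ p ∣ i)).card * gq p m c' := by
  rw [gq, Polynomial.prod_comp]
  have h1 : ∀ i ∈ (Ico (c + 1) (c + 1 + m)).filter (fun i => ¬ p ∣ i),
      (C (i : ℤ_[p]) + X : ℤ_[p][X]).comp (-C ((p ^ 2 * J : ℕ) : ℤ_[p]) - X) =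
        (-1) * (C ((p ^ 2 * J - i : ℕ) : ℤ_[p]) + X) := by
    intro i hi
    have hi1 := mem_Ico.1 (mem_filter.1 hi).1
    have hle : i ≤ p ^ 2 * J := by omega
    simp only [add_comp, C_comp, X_comp]
    rw [Nat.cast_sub hle]
    simp only [map_sub]
    ring
  have hpd : p ∣ p ^ 2 * J := Dvd.dvd.mul_right (dvd_pow_self p two_ne_zero) _
  rw [Finset.prod_congr rfl h1, Finset.prod_mul_distrib, Finset.prod_const]
  congr 1
  rw [gq]
  refine Finset.prod_nbij' (fun i => p ^ 2 * J - i) (fun i => p ^ 2 * J - i) ?_ ?_ ?_ ?_ ?_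
  · intro i hi
    simp only [mem_filter, mem_Ico] at hi ⊢
    refine ⟨by omega, ?_⟩
    intro h3
    apply hi.2
    have : i = p ^ 2 * J - (p ^ 2 * J - i) := by omega
    rw [this]
    exact Nat.dvd_sub hpd h3
  · intro i hi
    simp only [mem_filter, mem_Ico] at hi ⊢
    refine ⟨by omega, ?_⟩
    intro h3
    apply hi.2
    have : i = p ^ 2 * J - (p ^ 2 * J - i) := by omega
    rw [this]
    exact Nat.dvd_sub hpd h3
  · intro i hi
    simp only [mem_filter, mem_Ico] at hi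
    omega
  · intro i hi
    simp only [mem_filter, mem_Ico] at hi
    omega
  · intro i _
    rfl

lemma gm_reflect (h2 : p ≠ 2) {c c' : ℕ} (h : c + c' + 1 + mm p N = p ^ 2 * N) :
    ((gm p N c) ^ (p + 1)).comp (-C ((p ^ 2 * N : ℕ) : ℤ_[p]) - X) = gm p N c' ^ (p + 1) := by
  rw [pow_comp, gm, mul_comp, C_comp, gq_reflect _ _ _ _ h, gm, mul_pow, mul_pow, mul_pow, ← pow_mul,
    mul_comm _ (p + 1), pow_mul, (p_succ_even h2).neg_one_pow, one_pow, one_mul]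

lemma Bt_sym (h2 : p ≠ 2) (hN : 1 ≤ N) (g : ℤ_[p][X]) (hg : IsSym (mm p N + 1) g) :
    IsSym (p ^ 2 * N) (Bt p N g) := by
  unfold IsSym
  rw [Bt, Polynomial.sum_comp]
  have hadd := mm_add (p := p) hN
  rw [← Finset.sum_range_reflect (fun c => gm p N c ^ (p + 1) * g.comp (X + C (c : ℤ_[p]))) p]
  refine Finset.sum_congr rfl fun c hc => ?_
  have hc' := mem_range.1 hc
  have hcc : c + (p - 1 - c) + 1 + mm p N = p ^ 2 * N := by omega
  rw [mul_comp, gm_reflect h2 hcc]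
  congr 1
  rw [← hg.comp_neg (X + C ((p - 1 - c : ℕ) : ℤ_[p])), comp_assoc]
  congr 1
  simp only [add_comp, X_comp, C_comp]
  rw [← hcc]
  push_cast
  simp only [map_add, map_natCast, map_one]
  ring

end Pool.Agent.Helper93.Sun
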