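import Mathlib
import Pool.Agent.Helper93.Sun9

set_option autoImplicit false

namespace Pool.Agent.Helper93.Sun

open Polynomial Finset

variable {p : ℕ} [hp : Fact p.Prime] {N : ℕ}

lemma expand_dvd {R : Type*} [CommRing R] (y z : R) (n k : ℕ) (hk : k ≤ n + 1) :
    z ^ k ∣ (y + z) ^ n - ∑ i ∈ range k, z ^ i * y ^ (n - i) * (n.choose i : R) := by
  rw [add_comm y z, add_pow, ← Finset.sum_range_add_sum_Ico _ hk, add_sub_cancel_left]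
  apply Finset.dvd_sum
  intro i hi
  have := (mem_Ico.1 hi).1
  exact Dvd.dvd.mul_right (Dvd.dvd.mul_right (pow_dvd_pow _ this) _) _

lemma C_dvd_iff_map {a : ℤ_[p]} {P : ℤ_[p][X]} :
    C a ∣ P ↔ P.map (Ideal.Quotient.mk (Ideal.span {a})) = 0 := by
  rw [C_dvd_iff_dvd_coeff, Polynomial.ext_iff]
  refine forall_congr' fun i => ?_
  rw [coeff_map, coeff_zero, Ideal.Quotient.eq_zero_iff_mem, Ideal.mem_span_singleton]

lemma C_dvd_of_monic_mul {a : ℤ_[p]} {y P : ℤ_[p][X]} (hy : y.Monic) (h : C a ∣ y * P) : C a ∣ P := by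
  rw [C_dvd_iff_map] at h ⊢
  rw [Polynomial.map_mul] at h
  exact (hy.map _).mul_right_eq_zero_iff.1 h

lemma choose_dvd (i : ℕ) (h2 : 2 ≤ i) (hi : i < p) : p ∣ (p + 1).choose i := by
  obtain ⟨j, rfl⟩ : ∃ j, i = j + 1 := ⟨i - 1, by omega⟩
  rw [Nat.choose_succ_succ]
  exact dvd_add (hp.out.dvd_choose_self (by omega) (by omega)) (hp.out.dvd_choose_self (by omega) hi)

lemma p_dvd_mmZ : (p : ℤ_[p]) ∣ (mm p N : ℤ_[p]) := by
  exact_mod_cast Nat.cast_dvd_cast (α := ℤ_[p]) (p_dvd_mm (p := p) (N := N))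

/-- the two expansion constants -/
noncomputable def k2 (p : ℕ) [Fact p.Prime] (N : ℕ) : ℤ_[p] := (mm p N : ℤ_[p]) ^ 2 * ((p + 1).choose 2 : ℤ_[p])
noncomputable def k3 (p : ℕ) [Fact p.Prime] (N : ℕ) : ℤ_[p] := (mm p N : ℤ_[p]) ^ 3 * ((p + 1).choose 3 : ℤ_[p])

lemma k2_dvd (h2 : p ≠ 2) : (p : ℤ_[p]) ^ 3 ∣ k2 p N := by
  have h3 : 2 < p := lt_of_le_of_ne hp.out.two_le (Ne.symm h2)
  have h1 : (p : ℤ_[p]) ∣ ((p + 1).choose 2 : ℤ_[p]) :=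
    Nat.cast_dvd_cast (α := ℤ_[p]) (choose_dvd 2 le_rfl h3)
  rw [k2, show (3 : ℕ) = 2 + 1 by rfl, pow_succ]
  exact mul_dvd_mul (pow_dvd_pow_of_dvd p_dvd_mmZ 2) h1

lemma k3_dvd (h5 : 5 ≤ p) : (p : ℤ_[p]) ^ 4 ∣ k3 p N := by
  have h1 : (p : ℤ_[p]) ∣ ((p + 1).choose 3 : ℤ_[p]) :=
    Nat.cast_dvd_cast (α := ℤ_[p]) (choose_dvd 3 (by omega) (by omega))
  rw [k3, show (4 : ℕ) = 3 + 1 by rfl, pow_succ]
  exact mul_dvd_mul (pow_dvd_pow_of_dvd p_dvd_mmZ 3) h1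

/-- `(p+1) M' = p^5 d - p` -/
lemma mm_mul {d : ℤ_[p]} (hN : 1 ≤ N) (hd : ((p : ℤ_[p]) + 1) * N = p ^ 3 * d + 1) :
    ((p : ℤ_[p]) + 1) * (mm p N : ℤ_[p]) = p ^ 5 * d - p := by
  have h1 := congrArg (Nat.cast : ℕ → ℤ_[p]) (mm_add (p := p) hN)
  push_cast at h1
  linear_combination ((p : ℤ_[p]) + 1) * h1 + (p : ℤ_[p]) ^ 2 * hd

/-- expansion modulo `p^5` (`p ≥ 5`) -/
lemma expand5 {R : Type*} [CommRing R] (h5 : 5 ≤ p) {d : R} (hN : 1 ≤ N)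
    (hd : ((p : R) + 1) * N = p ^ 3 * d + 1) (y : R) :
    ∃ E : R, (y + (mm p N : R)) ^ (p + 1) =
      y ^ p * (y - p) + ((mm p N : R) ^ 2 * ((p + 1).choose 2 : R)) * y ^ (p - 1) +
        ((mm p N : R) ^ 3 * ((p + 1).choose 3 : R)) * y ^ (p - 2) + (p : R) ^ 5 * E := by
  obtain ⟨E, hE⟩ := expand_dvd y (mm p N : R) (p + 1) 5 (by omega)
  obtain ⟨m', hm'⟩ : (p : R) ∣ (mm p N : R) := Nat.cast_dvd_cast (p_dvd_mm (p := p) (N := N))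
  obtain ⟨c4, hc4⟩ : (p : R) ∣ ((p + 1).choose 4 : R) :=
    Nat.cast_dvd_cast (choose_dvd (p := p) 4 (by omega) (by omega))
  have h1 := congrArg (Nat.cast : ℕ → R) (mm_add (p := p) hN)
  push_cast at h1
  have h1' : ((p : R) + 1) * (mm p N : R) = p ^ 5 * d - p := by
    linear_combination ((p : R) + 1) * h1 + (p : R) ^ 2 * hd
  refine ⟨d * y ^ p + (m' ^ 4 * c4) * y ^ (p - 3) + (m' ^ 5) * E, ?_⟩
  rw [sub_eq_iff_eq_add] at hE
  rw [hE]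
  simp only [Finset.sum_range_succ, Finset.sum_range_zero]
  have e1 : p + 1 - 0 = p + 1 := rfl
  have e2 : p + 1 - 1 = p := rfl
  have e3 : p + 1 - 2 = p - 1 := by omega
  have e4 : p + 1 - 3 = p - 2 := by omega
  have e5 : p + 1 - 4 = p - 3 := by omega
  rw [e1, e2, e3, e4, e5, Nat.choose_zero_right, Nat.choose_one_right, hc4]
  have f7 : (mm p N : R) ^ 4 = (p * m') ^ 4 := by rw [hm']
  have f8 : (mm p N : R) ^ 5 = (p * m') ^ 5 := by rw [hm']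
  rw [f7, f8]
  push_cast
  linear_combination y ^ p * h1'

/-- expansion modulo `p^3` (`p ≥ 3`) -/
lemma expand3 {R : Type*} [CommRing R] (h2 : p ≠ 2) {d : R} (hN : 1 ≤ N)
    (hd : ((p : R) + 1) * N = p ^ 3 * d + 1) (y : R) :
    ∃ E : R, (y + (mm p N : R)) ^ (p + 1) = y ^ p * (y - p) + (p : R) ^ 3 * E := by
  have h3 : 2 < p := lt_of_le_of_ne hp.out.two_le (Ne.symm h2)
  obtain ⟨E, hE⟩ := expand_dvd y (mm p N : R) (p + 1) 3 (by omega)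
  obtain ⟨m', hm'⟩ : (p : R) ∣ (mm p N : R) := Nat.cast_dvd_cast (p_dvd_mm (p := p) (N := N))
  obtain ⟨c2, hc2⟩ : (p : R) ∣ ((p + 1).choose 2 : R) :=
    Nat.cast_dvd_cast (choose_dvd (p := p) 2 (by omega) (by omega))
  have h1 := congrArg (Nat.cast : ℕ → R) (mm_add (p := p) hN)
  push_cast at h1
  have h1' : ((p : R) + 1) * (mm p N : R) = p ^ 5 * d - p := by
    linear_combination ((p : R) + 1) * h1 + (p : R) ^ 2 * hd
  refine ⟨p ^ 2 * d * y ^ p + (m' ^ 2 * c2) * y ^ (p - 1) + (m' ^ 3) * E, ?_⟩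
  rw [sub_eq_iff_eq_add] at hE
  rw [hE]
  simp only [Finset.sum_range_succ, Finset.sum_range_zero]
  have e1 : p + 1 - 0 = p + 1 := rfl
  have e2 : p + 1 - 1 = p := rfl
  have e3 : p + 1 - 2 = p - 1 := by omega
  rw [e1, e2, e3, Nat.choose_zero_right, Nat.choose_one_right, hc2]
  have f7 : (mm p N : R) ^ 2 = (p * m') ^ 2 := by rw [hm']
  have f8 : (mm p N : R) ^ 3 = (p * m') ^ 3 := by rw [hm']
  rw [f7, f8]
  push_cast
  linear_combination y ^ p * h1'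

/-- the `p+1`-st powers -/
noncomputable def uu (p : ℕ) [Fact p.Prime] (N c : ℕ) : ℤ_[p][X] := gm p N c ^ (p + 1)

lemma uu_succ (c : ℕ) (hc : c + 1 < p) :
    (X + C ((c + 1 : ℕ) : ℤ_[p])) ^ (p + 1) * uu p N (c + 1) =
      ((X + C ((c + 1 : ℕ) : ℤ_[p])) + (mm p N : ℤ_[p][X])) ^ (p + 1) * uu p N c := by
  rw [uu, uu, ← mul_pow, ← mul_pow, gm_succ c hc]
  congr 2
  have : ((mm p N + c + 1 : ℕ) : ℤ_[p]) = ((c + 1 : ℕ) : ℤ_[p]) + (mm p N : ℤ_[p]) := by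
    push_cast; ring
  rw [this, map_add, map_natCast C (mm p N)]
  ring

/-- congruence modulo `p^3` -/
lemma uu_rel (h2 : p ≠ 2) {d : ℤ_[p]} (hN : 1 ≤ N)
    (hd : ((p : ℤ_[p]) + 1) * N = p ^ 3 * d + 1) (c : ℕ) (hc : c + 1 < p) :
    C ((p : ℤ_[p]) ^ 3) ∣ (X + C ((c + 1 : ℕ) : ℤ_[p])) * uu p N (c + 1) -
      (X + C ((c + 1 : ℕ) : ℤ_[p]) - C (p : ℤ_[p])) * uu p N c := by
  have hd' : ((p : ℤ_[p][X]) + 1) * N = (p : ℤ_[p][X]) ^ 3 * C d + 1 := by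
    have := congrArg C hd
    simpa using this
  set y : ℤ_[p][X] := X + C ((c + 1 : ℕ) : ℤ_[p]) with hy
  obtain ⟨E, hE⟩ := expand3 (R := ℤ_[p][X]) h2 hN hd' y
  have h1 := uu_succ (p := p) (N := N) c hc
  rw [← hy, hE] at h1
  apply C_dvd_of_monic_mul (y := y ^ p) ((monic_X_add_C _).pow p)
  refine ⟨E * uu p N c, ?_⟩
  have hp' : (C (p : ℤ_[p]) : ℤ_[p][X]) = (p : ℤ_[p][X]) := map_natCast _ _
  rw [map_pow, hp']
  rw [pow_succ] at h1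
  linear_combination h1

end Pool.Agent.Helper93.Sun
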