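import Mathlib
import Pool.Agent.Helper93.Sun10

set_option autoImplicit false

namespace Pool.Agent.Helper93.Sun

open Polynomial Finset

variable {p : ℕ} [hp : Fact p.Prime] {N : ℕ}

/-- inverse of `j` in `ℤ_p` -/
noncomputable def iv (p : ℕ) [Fact p.Prime] (j : ℕ) : ℤ_[p] := Ring.inverse (j : ℤ_[p])

lemma iv_mul {j : ℕ} (h : ¬ p ∣ j) : (j : ℤ_[p]) * iv p j = 1 :=
  Ring.mul_inverse_cancel _ (natCast_isUnit h)

lemma succ_not_dvd {c : ℕ} (hc : c + 1 < p) : ¬ p ∣ (c + 1) := fun h => by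
  have := Nat.le_of_dvd (by omega) h; omega

lemma dvd_iff_toZMod (x : ℤ_[p]) : (p : ℤ_[p]) ∣ x ↔ PadicInt.toZMod x = 0 := by
  rw [← RingHom.mem_ker, PadicInt.ker_toZMod, PadicInt.maximalIdeal_eq_span_p, Ideal.mem_span_singleton]

lemma zmod_sum (f : ZMod p → ZMod p) : ∑ j ∈ range p, f (j : ZMod p) = ∑ x : ZMod p, f x := by
  refine Finset.sum_nbij' (fun j => (j : ZMod p)) ZMod.val ?_ ?_ ?_ ?_ ?_
  · intro j _; exact mem_univ _
  · intro x _; exact mem_range.2 (ZMod.val_lt x)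
  · intro j hj; exact ZMod.val_cast_of_lt (mem_range.1 hj)
  · intro x _; exact ZMod.natCast_zmod_val x
  · intro j _; rfl

lemma psumZ (i : ℕ) (h1 : 1 ≤ i) (h2 : i < p - 1) : ∑ c ∈ range (p - 1), ((c + 1 : ℕ) : ZMod p) ^ i = 0 := by
  have h3 := FiniteField.sum_pow_lt_card_sub_one (ZMod p) i (by rw [ZMod.card]; exact h2)
  rw [← zmod_sum (fun x => x ^ i)] at h3
  have hp1 : p = (p - 1) + 1 := by have := p_two_le (p := p); omega
  rw [show range p = range (p - 1 + 1) by rw [← hp1], Finset.sum_range_succ'] at h3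
  rw [Nat.cast_zero, zero_pow (by omega), add_zero] at h3
  exact h3

lemma psum (i : ℕ) (h1 : 1 ≤ i) (h2 : i < p - 1) :
    (p : ℤ_[p]) ∣ ∑ c ∈ range (p - 1), ((c + 1 : ℕ) : ℤ_[p]) ^ i := by
  rw [dvd_iff_toZMod, map_sum]
  simp only [map_pow, map_natCast]
  exact psumZ i h1 h2

lemma iv_pow (j k : ℕ) (h : ¬ p ∣ j) (hk : k ≤ p - 1) :
    PadicInt.toZMod (iv p j ^ k) = (j : ZMod p) ^ (p - 1 - k) := by
  have hj : (j : ZMod p) ≠ 0 := by
    rw [Ne, ZMod.natCast_eq_zero_iff]; exact h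
  have h1 : (j : ZMod p) * PadicInt.toZMod (iv p j) = 1 := by
    have := congrArg (PadicInt.toZMod (p := p)) (iv_mul h)
    rwa [map_mul, map_natCast, map_one] at this
  have h2 : (j : ZMod p) ^ (p - 1) = 1 := ZMod.pow_card_sub_one_eq_one hj
  rw [map_pow]
  calc PadicInt.toZMod (iv p j) ^ k = PadicInt.toZMod (iv p j) ^ k * (j : ZMod p) ^ (p - 1) := by
        rw [h2, mul_one]
    _ = ((j : ZMod p) * PadicInt.toZMod (iv p j)) ^ k * (j : ZMod p) ^ (p - 1 - k) := by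
        rw [mul_pow, mul_comm ((j : ZMod p) ^ k), mul_assoc, ← pow_add]
        congr 3; omega
    _ = _ := by rw [h1, one_pow, one_mul]

lemma psum_iv (k : ℕ) (hk1 : 1 ≤ k) (hk : k < p - 1) :
    (p : ℤ_[p]) ∣ ∑ c ∈ range (p - 1), iv p (c + 1) ^ k := by
  rw [dvd_iff_toZMod, map_sum]
  rw [← psumZ (p := p) (p - 1 - k) (by omega) (by omega)]
  refine Finset.sum_congr rfl fun c hc => ?_
  have := mem_range.1 hc
  exact iv_pow (c + 1) k (succ_not_dvd (by omega)) (by omega)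

/-- `(-1)^c C(p-1,c)` -/
noncomputable def CC (p : ℕ) [Fact p.Prime] (c : ℕ) : ℤ_[p] := (-1) ^ c * ((p - 1).choose c : ℤ_[p])

lemma CC_zero : CC p 0 = 1 := by simp [CC]

lemma CC_succ (c : ℕ) (hc : c < p) :
    ((c + 1 : ℕ) : ℤ_[p]) * CC p (c + 1) = (((c + 1 : ℕ) : ℤ_[p]) - p) * CC p c := by
  have h1 := Nat.choose_succ_right_eq (p - 1) c
  have h2 := congrArg (Nat.cast : ℕ → ℤ_[p]) h1
  have h3 : ((p - 1 - c : ℕ) : ℤ_[p]) = p - (c + 1) := by
    rw [show p - 1 - c = p - (c + 1) by omega, Nat.cast_sub (by omega)]; push_cast; ring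
  push_cast at h2
  rw [h3] at h2
  rw [CC, CC, pow_succ]
  push_cast
  linear_combination (-(-1 : ℤ_[p]) ^ c) * h2

lemma CC_last (h2 : p ≠ 2) : CC p (p - 1) = 1 := by
  have hp2 := p_two_le (p := p)
  have : Odd p := hp.out.odd_of_ne_two h2
  obtain ⟨t, ht⟩ := this
  have hev : Even (p - 1) := ⟨t, by omega⟩
  rw [CC, Nat.choose_self, hev.neg_one_pow]
  simp

lemma CC_iv (h2 : p ≠ 2) : ∑ c ∈ range (p - 1), CC p c * iv p (c + 1) = 0 := by
  have hpne : (p : ℤ_[p]) ≠ 0 := by exact_mod_cast hp.out.ne_zero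
  apply mul_left_cancel₀ hpne
  rw [mul_zero, Finset.mul_sum]
  have h0 := Int.alternating_sum_range_choose_of_ne hp.out.ne_zero
  have h1 := congrArg (Int.cast : ℤ → ℤ_[p]) h0
  push_cast at h1
  rw [Finset.sum_range_succ] at h1
  have hp1 : p = (p - 1) + 1 := by have := p_two_le (p := p); omega
  have h3 : ∑ x ∈ range p, (-1 : ℤ_[p]) ^ x * (p.choose x : ℤ_[p]) =
      ∑ c ∈ range (p - 1), (-1 : ℤ_[p]) ^ (c + 1) * (p.choose (c + 1) : ℤ_[p]) + 1 := by
    conv_lhs => rw [show range p = range (p - 1 + 1) by rw [← hp1]]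
    rw [Finset.sum_range_succ']
    simp
  rw [h3, Nat.choose_self, (hp.out.odd_of_ne_two h2).neg_one_pow] at h1
  have h4 : ∑ c ∈ range (p - 1), (-1 : ℤ_[p]) ^ (c + 1) * (p.choose (c + 1) : ℤ_[p]) = 0 := by
    push_cast at h1
    linear_combination h1
  have h5 : ∀ c ∈ range (p - 1), (p : ℤ_[p]) * (CC p c * iv p (c + 1)) =
      -((-1 : ℤ_[p]) ^ (c + 1) * (p.choose (c + 1) : ℤ_[p])) := by
    intro c hc
    have hc' := mem_range.1 hc
    have h6 := Nat.add_one_mul_choose_eq (p - 1) c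
    rw [← hp1] at h6
    have h7 := congrArg (Nat.cast : ℕ → ℤ_[p]) h6
    push_cast at h7
    rw [CC]
    have h8 := iv_mul (p := p) (succ_not_dvd (c := c) (by omega))
    push_cast at h8
    have h10 : (p : ℤ_[p]) * ((p - 1).choose c : ℤ_[p]) = (p.choose (c + 1) : ℤ_[p]) * ((c : ℤ_[p]) + 1) := by
      exact h7
    rw [pow_succ]
    linear_combination ((-1 : ℤ_[p]) ^ c * iv p (c + 1)) * h10 + ((-1 : ℤ_[p]) ^ c * (p.choose (c + 1) : ℤ_[p])) * h8
  rw [Finset.sum_congr rfl h5, Finset.sum_neg_distrib, h4, neg_zero]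

end Pool.Agent.Helper93.Sun
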