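import Mathlib
import Pool.Agent.Helper93.Sun11

set_option autoImplicit false

namespace Pool.Agent.Helper93.Sun

open Polynomial Finset

variable {p : ℕ} [hp : Fact p.Prime] {N : ℕ}

/-- constant and linear coefficients -/
noncomputable def ca (p : ℕ) [Fact p.Prime] (N c : ℕ) : ℤ_[p] := (uu p N c).coeff 0
noncomputable def ce (p : ℕ) [Fact p.Prime] (N c : ℕ) : ℤ_[p] := (uu p N c).coeff 1

lemma ca_zero : ca p N 0 = 1 := by
  rw [ca, coeff_zero_eq_eval_zero, uu, eval_pow, gm_zero_eval, one_pow]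

section
variable (h2 : p ≠ 2) {d : ℤ_[p]} (hN : 1 ≤ N) (hd : ((p : ℤ_[p]) + 1) * N = p ^ 3 * d + 1)
include h2 hN hd

lemma ca_rel (c : ℕ) (hc : c + 1 < p) : (p : ℤ_[p]) ^ 3 ∣
    ((c + 1 : ℕ) : ℤ_[p]) * ca p N (c + 1) - (((c + 1 : ℕ) : ℤ_[p]) - p) * ca p N c := by
  have h := (C_dvd_iff_dvd_coeff _ _).1 (uu_rel h2 hN hd c hc) 0
  have e : ((X + C ((c + 1 : ℕ) : ℤ_[p])) * uu p N (c + 1) -
      (X + C ((c + 1 : ℕ) : ℤ_[p]) - C (p : ℤ_[p])) * uu p N c).coeff 0 =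
      ((c + 1 : ℕ) : ℤ_[p]) * ca p N (c + 1) - (((c + 1 : ℕ) : ℤ_[p]) - p) * ca p N c := by
    simp only [coeff_zero_eq_eval_zero, ca, eval_sub, eval_mul, eval_add, eval_X, eval_C]
    ring
  rwa [e] at h

lemma ce_rel (c : ℕ) (hc : c + 1 < p) : (p : ℤ_[p]) ^ 3 ∣
    ca p N (c + 1) + ((c + 1 : ℕ) : ℤ_[p]) * ce p N (c + 1) - ca p N c -
      (((c + 1 : ℕ) : ℤ_[p]) - p) * ce p N c := by
  have h := (C_dvd_iff_dvd_coeff _ _).1 (uu_rel h2 hN hd c hc) 1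
  have e : ((X + C ((c + 1 : ℕ) : ℤ_[p])) * uu p N (c + 1) -
      (X + C ((c + 1 : ℕ) : ℤ_[p]) - C (p : ℤ_[p])) * uu p N c).coeff 1 =
      ca p N (c + 1) + ((c + 1 : ℕ) : ℤ_[p]) * ce p N (c + 1) - ca p N c -
      (((c + 1 : ℕ) : ℤ_[p]) - p) * ce p N c := by
    have e1 : (X + C ((c + 1 : ℕ) : ℤ_[p])) * uu p N (c + 1) -
      (X + C ((c + 1 : ℕ) : ℤ_[p]) - C (p : ℤ_[p])) * uu p N c =
      X * uu p N (c + 1) + C ((c + 1 : ℕ) : ℤ_[p]) * uu p N (c + 1) - X * uu p N c -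
      C (((c + 1 : ℕ) : ℤ_[p]) - p) * uu p N c := by
      rw [map_sub]; ring
    rw [e1]
    simp only [coeff_sub, coeff_add, coeff_C_mul, ca, ce, coeff_X_mul _ 0]
  rwa [e] at h

lemma ca_CC (c : ℕ) (hc : c < p) : (p : ℤ_[p]) ^ 3 ∣ ca p N c - CC p c := by
  induction c with
  | zero => rw [ca_zero, CC_zero, sub_self]; exact dvd_zero _
  | succ c ih =>
    have h1 := ih (by omega)
    have h3 := ca_rel h2 hN hd c hc
    have h4 := CC_succ (p := p) c (by omega)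
    have hu := natCast_isUnit (p := p) (succ_not_dvd hc)
    rw [← hu.dvd_mul_left]
    have h5 := dvd_add h3 (Dvd.dvd.mul_left h1 (((c + 1 : ℕ) : ℤ_[p]) - p))
    convert h5 using 1
    linear_combination (-1 : ℤ_[p]) * h4

lemma ca_one (c : ℕ) (hc : c < p) : (p : ℤ_[p]) ∣ ca p N c - 1 := by
  induction c with
  | zero => rw [ca_zero, sub_self]; exact dvd_zero _
  | succ c ih =>
    have h1 := ih (by omega)
    have h3 := (dvd_pow_self (p : ℤ_[p]) (three_ne_zero)).trans (ca_rel h2 hN hd c hc)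
    have hu := natCast_isUnit (p := p) (succ_not_dvd hc)
    rw [← hu.dvd_mul_left]
    have h5 := dvd_add h3 (dvd_sub (Dvd.dvd.mul_left h1 (((c + 1 : ℕ) : ℤ_[p]) - p)) (dvd_refl (p : ℤ_[p])))
    convert h5 using 1
    ring

lemma ca_last : (p : ℤ_[p]) ^ 3 ∣ ca p N (p - 1) - 1 := by
  have := ca_CC h2 hN hd (p - 1) (by have := p_two_le (p := p); omega)
  rwa [CC_last h2] at this

lemma ce_step (c : ℕ) (hc : c + 1 < p) : (p : ℤ_[p]) ^ 3 ∣
    ce p N (c + 1) - (ce p N c - p * iv p (c + 1) * ce p N c + p * iv p (c + 1) ^ 2 * ca p N c) := by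
  have h1 := ca_rel h2 hN hd c hc
  have h3 := ce_rel h2 hN hd c hc
  have h4 := iv_mul (p := p) (succ_not_dvd hc)
  have h5 := dvd_sub (Dvd.dvd.mul_left h3 (iv p (c + 1))) (Dvd.dvd.mul_left h1 (iv p (c + 1) ^ 2))
  convert h5 using 1
  linear_combination (-(ce p N (c + 1)) + ce p N c + (ca p N (c + 1) - ca p N c) * iv p (c + 1)) * h4

lemma ce_zero (c : ℕ) (hc : c < p) : (p : ℤ_[p]) ∣ ce p N c - ce p N 0 := by
  induction c with
  | zero => rw [sub_self]; exact dvd_zero _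
  | succ c ih =>
    have h1 := ih (by omega)
    have h3 := (dvd_pow_self (p : ℤ_[p]) (three_ne_zero)).trans (ce_step h2 hN hd c hc)
    have h4 : (p : ℤ_[p]) ∣ p * (- iv p (c + 1) * ce p N c + iv p (c + 1) ^ 2 * ca p N c) := dvd_mul_right _ _
    have h5 := dvd_add (dvd_add h1 h3) h4
    convert h5 using 1
    ring

lemma ce_claim (c : ℕ) (hc : c < p) : (p : ℤ_[p]) ^ 2 ∣
    ce p N c - (ce p N 0 - p * ce p N 0 * ∑ i ∈ range c, iv p (i + 1) + p * ∑ i ∈ range c, iv p (i + 1) ^ 2) := by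
  induction c with
  | zero => simp
  | succ c ih =>
    have h1 := ih (by omega)
    have h3 := (pow_dvd_pow (p : ℤ_[p]) (show 2 ≤ 3 by norm_num)).trans (ce_step h2 hN hd c hc)
    have h4 := mul_dvd_mul (dvd_refl (p : ℤ_[p])) (ce_zero h2 hN hd c (by omega))
    have h5 := mul_dvd_mul (dvd_refl (p : ℤ_[p])) (ca_one h2 hN hd c (by omega))
    rw [← pow_two] at h4 h5
    have h6 := dvd_add (dvd_add h1 h3) (dvd_sub (Dvd.dvd.mul_left h5 (iv p (c + 1) ^ 2))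
      (Dvd.dvd.mul_left h4 (iv p (c + 1))))
    convert h6 using 1
    rw [Finset.sum_range_succ, Finset.sum_range_succ]
    ring

lemma ce_last (h5 : 5 ≤ p) : (p : ℤ_[p]) ^ 2 ∣ ce p N (p - 1) - ce p N 0 := by
  have h1 := ce_claim h2 hN hd (p - 1) (by omega)
  have h3 := psum_iv (p := p) 1 le_rfl (by omega)
  have h4 := psum_iv (p := p) 2 (by omega) (by omega)
  simp only [pow_one] at h3
  have h5 := mul_dvd_mul (dvd_refl (p : ℤ_[p])) h3
  have h6 := mul_dvd_mul (dvd_refl (p : ℤ_[p])) h4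
  rw [← pow_two] at h5 h6
  have h7 := dvd_add h1 (dvd_sub h6 (Dvd.dvd.mul_left h5 (ce p N 0)))
  convert h7 using 1
  ring

end

/-- the summation operator -/
noncomputable def LL (p : ℕ) [Fact p.Prime] (h : ℤ_[p][X]) : ℤ_[p][X] :=
  (X + 1 - C (p : ℤ_[p])) * h.comp (X + 1) - X * h

lemma Bt_LL (h2 : p ≠ 2) {d : ℤ_[p]} (hN : 1 ≤ N)
    (hd : ((p : ℤ_[p]) + 1) * N = p ^ 3 * d + 1) (h : ℤ_[p][X]) :
    C ((p : ℤ_[p]) ^ 3) ∣ Bt p N (LL p h) -
      X * (h.comp (X + C (p : ℤ_[p])) * uu p N (p - 1) - h * uu p N 0) := by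
  have hp1 : p - 1 + 1 = p := by have := p_two_le (p := p); omega
  set F : ℕ → ℤ_[p][X] := fun c => (X + C (c : ℤ_[p])) * h.comp (X + C (c : ℤ_[p])) * uu p N c with hF
  have hcomp : ∀ c : ℕ, (LL p h).comp (X + C (c : ℤ_[p])) =
      (X + C ((c + 1 : ℕ) : ℤ_[p]) - C (p : ℤ_[p])) * h.comp (X + C ((c + 1 : ℕ) : ℤ_[p])) -
        (X + C (c : ℤ_[p])) * h.comp (X + C (c : ℤ_[p])) := by
    intro c
    have e1 : (X + C (c : ℤ_[p]) + 1 : ℤ_[p][X]) = X + C ((c + 1 : ℕ) : ℤ_[p]) := by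
      push_cast; simp only [map_add, map_one]; ring
    simp only [LL, sub_comp, mul_comp, add_comp, X_comp, C_comp, one_comp, comp_assoc]
    rw [e1]
  have hB : Bt p N (LL p h) = ∑ c ∈ range (p - 1), uu p N c * (LL p h).comp (X + C (c : ℤ_[p])) +
      uu p N (p - 1) * (LL p h).comp (X + C ((p - 1 : ℕ) : ℤ_[p])) := by
    rw [Bt, ← Finset.sum_range_succ (fun c => uu p N c * (LL p h).comp (X + C (c : ℤ_[p]))) (p - 1), hp1]
    rfl
  have hlast : uu p N (p - 1) * (LL p h).comp (X + C ((p - 1 : ℕ) : ℤ_[p])) =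
      X * h.comp (X + C (p : ℤ_[p])) * uu p N (p - 1) - F (p - 1) := by
    rw [hcomp, hp1, hF]
    ring
  have htel : ∑ c ∈ range (p - 1), (F (c + 1) - F c) = F (p - 1) - F 0 := Finset.sum_range_sub _ _
  have hF0 : F 0 = X * h * uu p N 0 := by simp [hF]
  have hterm : ∀ c ∈ range (p - 1), C ((p : ℤ_[p]) ^ 3) ∣
      uu p N c * (LL p h).comp (X + C (c : ℤ_[p])) - (F (c + 1) - F c) := by
    intro c hc
    have hc' := mem_range.1 hc
    have h3 := Dvd.dvd.mul_left (uu_rel h2 hN hd c (by omega)) (-h.comp (X + C ((c + 1 : ℕ) : ℤ_[p])))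
    convert h3 using 1
    rw [hcomp, hF]
    ring
  have h4 := Finset.dvd_sum hterm
  rw [Finset.sum_sub_distrib, htel] at h4
  convert h4 using 1
  rw [hB, hlast, hF0]
  ring

end Pool.Agent.Helper93.Sun
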