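import Mathlib
import Pool.Agent.Helper93.Sun12

set_option autoImplicit false

namespace Pool.Agent.Helper93.Sun

open Polynomial Finset

variable {p : ℕ} [hp : Fact p.Prime] {N : ℕ}

/-- defect term -/
noncomputable def ds (p : ℕ) [Fact p.Prime] (N c : ℕ) : ℤ_[p] :=
  ((c + 1 : ℕ) : ℤ_[p]) * ca p N (c + 1) - (((c + 1 : ℕ) : ℤ_[p]) - p) * ca p N c

lemma Bt_eval_zero (g : ℤ_[p][X]) :
    (Bt p N g).coeff 0 = ∑ c ∈ range p, ca p N c * g.eval (c : ℤ_[p]) := by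
  rw [coeff_zero_eq_eval_zero, Bt, eval_finsetSum]
  refine Finset.sum_congr rfl fun c _ => ?_
  rw [eval_mul, ca, coeff_zero_eq_eval_zero, uu, eval_comp]
  simp

lemma Bt_LL_zero (h : ℤ_[p][X]) :
    (Bt p N (LL p h)).coeff 0 = -∑ c ∈ range (p - 1), h.eval ((c + 1 : ℕ) : ℤ_[p]) * ds p N c := by
  have hp1 : p - 1 + 1 = p := by have := p_two_le (p := p); omega
  rw [Bt_eval_zero]
  set F : ℕ → ℤ_[p] := fun c => (c : ℤ_[p]) * h.eval (c : ℤ_[p]) * ca p N c with hF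
  have hg : ∀ c : ℕ, (LL p h).eval (c : ℤ_[p]) =
      (((c + 1 : ℕ) : ℤ_[p]) - p) * h.eval ((c + 1 : ℕ) : ℤ_[p]) - (c : ℤ_[p]) * h.eval (c : ℤ_[p]) := by
    intro c
    simp only [LL, eval_sub, eval_mul, eval_add, eval_X, eval_C, eval_one, eval_comp]
    push_cast
    ring
  have htel : ∑ c ∈ range (p - 1), (F (c + 1) - F c) = F (p - 1) - F 0 := Finset.sum_range_sub _ _
  have h0 : ∑ c ∈ range p, ca p N c * (LL p h).eval (c : ℤ_[p]) =
      ∑ c ∈ range (p - 1), ca p N c * (LL p h).eval (c : ℤ_[p]) +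
        ca p N (p - 1) * (LL p h).eval ((p - 1 : ℕ) : ℤ_[p]) := by
    rw [← Finset.sum_range_succ (fun c => ca p N c * (LL p h).eval (c : ℤ_[p])) (p - 1), hp1]
  have h1 : ca p N (p - 1) * (LL p h).eval ((p - 1 : ℕ) : ℤ_[p]) = - F (p - 1) := by
    rw [hg, hp1, hF]; ring
  have h3 : ∀ c ∈ range (p - 1), ca p N c * (LL p h).eval (c : ℤ_[p]) =
      (F (c + 1) - F c) - h.eval ((c + 1 : ℕ) : ℤ_[p]) * ds p N c := by
    intro c _
    rw [hg, ds, hF]
    ring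
  have hF0 : F 0 = 0 := by simp [hF]
  rw [h0, h1, Finset.sum_congr rfl h3, Finset.sum_sub_distrib, htel, hF0]
  ring

lemma ds_eq (h5 : 5 ≤ p) {d : ℤ_[p]} (hN : 1 ≤ N)
    (hd : ((p : ℤ_[p]) + 1) * N = p ^ 3 * d + 1) (c : ℕ) (hc : c + 1 < p) :
    (p : ℤ_[p]) ^ 5 ∣ ds p N c - ca p N c * (k2 p N * iv p (c + 1) + k3 p N * iv p (c + 1) ^ 2) := by
  obtain ⟨E, hE⟩ := expand5 (R := ℤ_[p]) h5 hN hd ((c + 1 : ℕ) : ℤ_[p])
  have h1 := congrArg (fun P => Polynomial.eval 0 P) (uu_succ (p := p) (N := N) c hc)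
  have hn0 : ((mm p N : ℕ) : ℤ_[p][X]).eval 0 = (mm p N : ℤ_[p]) := by
    rw [eval_natCast]
  simp only [eval_mul, eval_pow, eval_add, eval_X, eval_C, zero_add] at h1
  rw [hn0, hE, ← coeff_zero_eq_eval_zero, ← coeff_zero_eq_eval_zero, ← ca, ← ca] at h1
  have hiv := iv_mul (p := p) (succ_not_dvd hc)
  set j : ℤ_[p] := ((c + 1 : ℕ) : ℤ_[p]) with hj
  set u := iv p (c + 1) with hu
  have e0 : j ^ p * u ^ p = 1 := by rw [← mul_pow, hiv, one_pow]
  have e1 : j ^ (p - 1) * u ^ p = u := by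
    have : u ^ p = u ^ (p - 1) * u := by rw [← pow_succ]; congr 1; omega
    rw [this, ← mul_assoc, ← mul_pow, hiv, one_pow, one_mul]
  have e2 : j ^ (p - 2) * u ^ p = u ^ 2 := by
    have : u ^ p = u ^ (p - 2) * u ^ 2 := by rw [← pow_add]; congr 1; omega
    rw [this, ← mul_assoc, ← mul_pow, hiv, one_pow, one_mul]
  refine ⟨u ^ p * E * ca p N c, ?_⟩
  rw [ds, ← hj, k2, k3]
  rw [pow_succ] at h1
  linear_combination u ^ p * h1 - (j * ca p N (c + 1) - (j - p) * ca p N c) * e0 +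
    ca p N c * ((mm p N : ℤ_[p]) ^ 2 * ((p + 1).choose 2 : ℤ_[p])) * e1 +
    ca p N c * ((mm p N : ℤ_[p]) ^ 3 * ((p + 1).choose 3 : ℤ_[p])) * e2

/-- the case `g = 1`: `p^5` divides the constant coefficient -/
lemma Bt_one_zero (h5 : 5 ≤ p) {d : ℤ_[p]} (hN : 1 ≤ N)
    (hd : ((p : ℤ_[p]) + 1) * N = p ^ 3 * d + 1) :
    (p : ℤ_[p]) ^ 5 ∣ ∑ c ∈ range (p - 1), ds p N c := by
  have h2 : p ≠ 2 := by omega
  -- first piece
  have hA : (p : ℤ_[p]) ^ 3 ∣ ∑ c ∈ range (p - 1), ca p N c * iv p (c + 1) := by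
    have : ∑ c ∈ range (p - 1), ca p N c * iv p (c + 1) =
        ∑ c ∈ range (p - 1), (ca p N c - CC p c) * iv p (c + 1) := by
      simp only [sub_mul, Finset.sum_sub_distrib]
      rw [CC_iv h2, sub_zero]
    rw [this]
    apply Finset.dvd_sum
    intro c hc
    exact Dvd.dvd.mul_right (ca_CC h2 hN hd c (by have := mem_range.1 hc; omega)) _
  have hB : (p : ℤ_[p]) ∣ ∑ c ∈ range (p - 1), ca p N c * iv p (c + 1) ^ 2 := by
    have : ∑ c ∈ range (p - 1), ca p N c * iv p (c + 1) ^ 2 =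
        ∑ c ∈ range (p - 1), (ca p N c - 1) * iv p (c + 1) ^ 2 +
          ∑ c ∈ range (p - 1), iv p (c + 1) ^ 2 := by
      rw [← Finset.sum_add_distrib]
      exact Finset.sum_congr rfl fun c _ => by ring
    rw [this]
    refine dvd_add ?_ (psum_iv 2 (by omega) (by omega))
    apply Finset.dvd_sum
    intro c hc
    exact Dvd.dvd.mul_right (ca_one h2 hN hd c (by have := mem_range.1 hc; omega)) _
  have h6 : (p : ℤ_[p]) ^ 5 ∣ k2 p N * ∑ c ∈ range (p - 1), ca p N c * iv p (c + 1) := by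
    refine (pow_dvd_pow _ (show 5 ≤ 3 + 3 by norm_num)).trans ?_
    rw [pow_add]; exact mul_dvd_mul (k2_dvd h2) hA
  have h7 : (p : ℤ_[p]) ^ 5 ∣ k3 p N * ∑ c ∈ range (p - 1), ca p N c * iv p (c + 1) ^ 2 := by
    rw [show (5 : ℕ) = 4 + 1 by norm_num, pow_succ]
    exact mul_dvd_mul (k3_dvd h5) hB
  have h8 : (p : ℤ_[p]) ^ 5 ∣ ∑ c ∈ range (p - 1), (ds p N c - ca p N c * (k2 p N * iv p (c + 1) + k3 p N * iv p (c + 1) ^ 2)) :=
    Finset.dvd_sum fun c hc => ds_eq h5 hN hd c (by have := mem_range.1 hc; omega)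
  have h9 := dvd_add h8 (dvd_add h6 h7)
  convert h9 using 1
  rw [Finset.mul_sum, Finset.mul_sum, ← Finset.sum_add_distrib, ← Finset.sum_add_distrib]
  exact Finset.sum_congr rfl fun c _ => by ring

/-- modulo `p^4` formula -/
lemma Bt_LL_four (h5 : 5 ≤ p) {d : ℤ_[p]} (hN : 1 ≤ N)
    (hd : ((p : ℤ_[p]) + 1) * N = p ^ 3 * d + 1) (h : ℤ_[p][X]) (hdeg : h.natDegree ≤ p - 3)
    (h1 : (p : ℤ_[p]) ∣ h.coeff 1) :
    (p : ℤ_[p]) ^ 4 ∣ (Bt p N (LL p h)).coeff 0 := by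
  have h2 : p ≠ 2 := by omega
  rw [Bt_LL_zero, dvd_neg]
  -- the sum of h(j)/j
  have hS : (p : ℤ_[p]) ∣ ∑ c ∈ range (p - 1), h.eval ((c + 1 : ℕ) : ℤ_[p]) * iv p (c + 1) := by
    have e1 : ∀ c ∈ range (p - 1), h.eval ((c + 1 : ℕ) : ℤ_[p]) * iv p (c + 1) =
        h.coeff 0 * iv p (c + 1) + ∑ i ∈ range (p - 3), h.divX.coeff i * ((c + 1 : ℕ) : ℤ_[p]) ^ i := by
      intro c hc
      have hc' := mem_range.1 hc
      have hiv := iv_mul (p := p) (succ_not_dvd (c := c) (by omega))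
      have e2 : h.eval ((c + 1 : ℕ) : ℤ_[p]) = h.divX.eval ((c + 1 : ℕ) : ℤ_[p]) * ((c + 1 : ℕ) : ℤ_[p]) + h.coeff 0 := by
        conv_lhs => rw [← divX_mul_X_add h]
        rw [eval_add, eval_mul, eval_X, eval_C]
      rw [← eval_eq_sum_range' (n := p - 3), e2]
      · linear_combination (h.divX.eval ((c + 1 : ℕ) : ℤ_[p])) * hiv
      · rw [natDegree_divX_eq_natDegree_tsub_one]
        omega
    rw [Finset.sum_congr rfl e1, Finset.sum_add_distrib, ← Finset.mul_sum, Finset.sum_comm]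
    refine dvd_add (Dvd.dvd.mul_left ?_ _) (Finset.dvd_sum fun i hi => ?_)
    · have := psum_iv (p := p) 1 le_rfl (by omega)
      simpa using this
    · have hi' := mem_range.1 hi
      rw [← Finset.mul_sum]
      rcases Nat.eq_zero_or_pos i with h0 | h0
      · subst h0
        rw [coeff_divX]
        exact Dvd.dvd.mul_right h1 _
      · exact Dvd.dvd.mul_left (psum i h0 (by omega)) _
  have hk2 := k2_dvd (p := p) (N := N) h2
  have hk3 := k3_dvd (p := p) (N := N) h5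
  have h6 : (p : ℤ_[p]) ^ 4 ∣ k2 p N * ∑ c ∈ range (p - 1), h.eval ((c + 1 : ℕ) : ℤ_[p]) * iv p (c + 1) := by
    rw [show (4 : ℕ) = 3 + 1 by norm_num, pow_succ]
    exact mul_dvd_mul hk2 hS
  have h8 : (p : ℤ_[p]) ^ 4 ∣ ∑ c ∈ range (p - 1), h.eval ((c + 1 : ℕ) : ℤ_[p]) * (ds p N c - k2 p N * iv p (c + 1)) := by
    apply Finset.dvd_sum
    intro c hc
    have hc' := mem_range.1 hc
    apply Dvd.dvd.mul_left
    have h9 := (pow_dvd_pow (p : ℤ_[p]) (show 4 ≤ 5 by norm_num)).trans (ds_eq h5 hN hd c (by omega))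
    have h10 : (p : ℤ_[p]) ^ 4 ∣ k2 p N * (ca p N c - 1) := by
      rw [show (4 : ℕ) = 3 + 1 by norm_num, pow_succ]
      exact mul_dvd_mul hk2 (ca_one h2 hN hd c (by omega))
    have h11 := dvd_add (dvd_add h9 (Dvd.dvd.mul_right h10 (iv p (c + 1))))
      (Dvd.dvd.mul_right hk3 (ca p N c * iv p (c + 1) ^ 2))
    convert h11 using 1
    ring
  have h9 := dvd_add h8 h6
  convert h9 using 1
  rw [Finset.mul_sum, ← Finset.sum_add_distrib]
  exact Finset.sum_congr rfl fun c _ => by ring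

end Pool.Agent.Helper93.Sun
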