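import Mathlib
import Pool.Agent.Helper93.Sun13

set_option autoImplicit false

namespace Pool.Agent.Helper93.Sun

open Polynomial Finset

variable {p : ℕ} [hp : Fact p.Prime] {N : ℕ}

lemma LL_add (a b : ℤ_[p][X]) : LL p (a + b) = LL p a + LL p b := by
  simp only [LL, add_comp]; ring

lemma LL_C_mul (a : ℤ_[p]) (b : ℤ_[p][X]) : LL p (C a * b) = C a * LL p b := by
  simp only [LL, mul_comp, C_comp]; ring

lemma LL_X_pow (n m : ℕ) : (LL p (X ^ n)).coeff m =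
    ((n + 1).choose m : ℤ_[p]) - p * (n.choose m : ℤ_[p]) - if m = n + 1 then 1 else 0 := by
  have e : LL p (X ^ n) = (X + 1) ^ (n + 1) - C (p : ℤ_[p]) * (X + 1) ^ n - X ^ (n + 1) := by
    simp only [LL, pow_comp, X_comp]; ring
  rw [e, coeff_sub, coeff_sub, coeff_C_mul, coeff_X_add_one_pow, coeff_X_add_one_pow, coeff_X_pow]

lemma exists_LL (n : ℕ) (hn : n ≤ p - 1) (g : ℤ_[p][X]) (hg : ∀ m, n ≤ m → g.coeff m = 0) :
    ∃ h : ℤ_[p][X], (∀ m, n ≤ m → h.coeff m = 0) ∧ LL p h = g := by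
  induction n generalizing g with
  | zero =>
    refine ⟨0, fun m _ => by simp, ?_⟩
    have : g = 0 := by ext m; rw [hg m (Nat.zero_le _), coeff_zero]
    rw [this]; simp [LL]
  | succ n ih =>
    have hu : IsUnit (((n + 1 : ℕ) : ℤ_[p]) - p) := by
      have h1 := natCast_isUnit (p := p) (i := p - (n + 1)) (fun h => by
        have := Nat.le_of_dvd (by omega) h
        omega)
      have h2 : ((p - (n + 1) : ℕ) : ℤ_[p]) = -(((n + 1 : ℕ) : ℤ_[p]) - p) := by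
        rw [Nat.cast_sub (by omega)]; ring
      rw [h2] at h1
      exact IsUnit.neg_iff _ |>.1 h1
    obtain ⟨w, hw⟩ := hu.exists_right_inv
    set h0 : ℤ_[p][X] := C (g.coeff n * w) * X ^ n with hh0
    have hL : ∀ m, n ≤ m → (g - LL p h0).coeff m = 0 := by
      intro m hm
      rw [hh0, LL_C_mul, coeff_sub, coeff_C_mul, LL_X_pow]
      rcases Nat.eq_or_lt_of_le hm with h | h
      · subst h
        rw [if_neg (by omega), Nat.choose_self, Nat.choose_succ_self_right]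
        push_cast at hw ⊢
        linear_combination (-(g.coeff n)) * hw
      · rw [hg m h, Nat.choose_eq_zero_of_lt h]
        rcases Nat.eq_or_lt_of_le (Nat.succ_le_of_lt h) with h' | h'
        · rw [if_pos h'.symm, ← h', Nat.choose_self]; push_cast; ring
        · rw [if_neg (by omega), Nat.choose_eq_zero_of_lt (by omega)]; push_cast; ring
    obtain ⟨h', hh1, hh2⟩ := ih (by omega) (g - LL p h0) hL
    refine ⟨h' + h0, ?_, ?_⟩
    · intro m hm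
      rw [coeff_add, hh1 m (by omega), hh0, coeff_C_mul, coeff_X_pow, if_neg (by omega)]
      simp
    · rw [LL_add, hh2]; ring

lemma comp_add_dvd (a : ℤ_[p]) (P : ℤ_[p][X]) : C a ∣ P.comp (X + C a) - P := by
  have h := sub_dvd_eval_sub (X + C a : ℤ_[p][X]) X (P.map C)
  rw [eval_map, eval_map, add_sub_cancel_left] at h
  have e1 : P.comp (X + C a) = eval₂ C (X + C a) P := rfl
  have e2 : eval₂ C X P = P := eval₂_C_X
  rw [e2, ← e1] at h
  exact h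

lemma sym_coeff (hN : 1 ≤ N) (β : ℤ_[p][X]) (h : IsSym (p ^ 2 * N) β) :
    ∃ r : ℤ_[p], β.coeff 1 = (p : ℤ_[p]) ^ 2 * N * β.coeff 2 + (p : ℤ_[p]) ^ 4 * r := by
  have h1 := congrArg (fun P => Polynomial.eval 0 P) h
  simp only [eval_comp, eval_sub, eval_neg, eval_C, eval_X, sub_zero] at h1
  set z : ℤ_[p] := ((p ^ 2 * N : ℕ) : ℤ_[p]) with hz
  have hzne : z ≠ 0 := by
    rw [hz, Nat.cast_ne_zero]
    exact Nat.mul_ne_zero (pow_ne_zero _ hp.out.ne_zero) (by omega)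
  have e1 : ∀ (P : ℤ_[p][X]) (x : ℤ_[p]), P.eval x = P.divX.eval x * x + P.coeff 0 := by
    intro P x
    conv_lhs => rw [← divX_mul_X_add P]
    rw [eval_add, eval_mul, eval_X, eval_C]
  have h2 : β.eval 0 = β.coeff 0 := (coeff_zero_eq_eval_zero β).symm
  rw [h2, e1 β, e1 β.divX, e1 β.divX.divX] at h1
  rw [coeff_divX, coeff_divX, coeff_divX] at h1
  have h3 : -z * (β.coeff 1 - z * β.coeff 2 + z ^ 2 * β.divX.divX.divX.eval (-z)) = 0 := by
    linear_combination h1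
  have h4 : β.coeff 1 - z * β.coeff 2 + z ^ 2 * β.divX.divX.divX.eval (-z) = 0 := by
    rcases mul_eq_zero.1 h3 with h | h
    · exact absurd (neg_eq_zero.1 h) hzne
    · exact h
  refine ⟨-((N : ℤ_[p]) ^ 2 * β.divX.divX.divX.eval (-z)), ?_⟩
  have hz2 : z = (p : ℤ_[p]) ^ 2 * N := by rw [hz]; push_cast; ring
  have h5 : β.coeff 1 = z * β.coeff 2 - z ^ 2 * β.divX.divX.divX.eval (-z) := by
    linear_combination h4
  rw [h5]
  have h6 : z ^ 2 = (p : ℤ_[p]) ^ 4 * (N : ℤ_[p]) ^ 2 := by rw [hz2]; ring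
  have h7 : z * β.coeff 2 = (p : ℤ_[p]) ^ 2 * N * β.coeff 2 := by rw [hz2]
  rw [h6, h7]
  ring

/-- constant function -/
lemma BS_one (h5 : 5 ≤ p) {d : ℤ_[p]} (hN : 1 ≤ N)
    (hd : ((p : ℤ_[p]) + 1) * N = p ^ 3 * d + 1) :
    (p : ℤ_[p]) ^ 5 ∣ (Bt p N 1).coeff 0 ∧ (p : ℤ_[p]) ^ 4 ∣ (Bt p N 1).coeff 1 ∧
      (p : ℤ_[p]) ^ 2 ∣ (Bt p N 1).coeff 2 := by
  have h2 : p ≠ 2 := by omega
  obtain ⟨η, hη⟩ : ∃ η : ℤ_[p], (1 - (p : ℤ_[p])) * η = 1 := by
    have h1 := natCast_isUnit (p := p) (i := p - 1) (fun h => by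
      have := Nat.le_of_dvd (by omega) h
      omega)
    have h3 : ((p - 1 : ℕ) : ℤ_[p]) = -(1 - (p : ℤ_[p])) := by
      rw [Nat.cast_sub (by omega)]; push_cast; ring
    rw [h3] at h1
    exact ((IsUnit.neg_iff _).1 h1).exists_right_inv
  have hL : LL p (C η) = 1 := by
    rw [LL, C_comp]
    have : (C ((1 - (p : ℤ_[p])) * η) : ℤ_[p][X]) = 1 := by rw [hη, map_one]
    rw [map_mul, map_sub, map_one] at this
    linear_combination this
  have h0 : (p : ℤ_[p]) ^ 5 ∣ (Bt p N 1).coeff 0 := by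
    rw [← hL, Bt_LL_zero, dvd_neg]
    simp only [eval_C]
    rw [← Finset.mul_sum]
    exact Dvd.dvd.mul_left (Bt_one_zero h5 hN hd) _
  have h22 : (p : ℤ_[p]) ^ 2 ∣ (Bt p N 1).coeff 2 := by
    have h3 := (C_dvd_iff_dvd_coeff _ _).1 (Bt_LL h2 hN hd (C η)) 2
    rw [hL, coeff_sub, show (2 : ℕ) = 1 + 1 by rfl, coeff_X_mul, coeff_sub, C_comp, coeff_C_mul,
      coeff_C_mul, ← ce, ← ce, ← mul_sub] at h3
    have h4 := (pow_dvd_pow (p : ℤ_[p]) (show 2 ≤ 3 by norm_num)).trans h3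
    have h6 := Dvd.dvd.mul_left (ce_last h2 hN hd h5) η
    have h7 := dvd_add h4 h6
    rwa [sub_add_cancel] at h7
  have h1sym : IsSym (mm p N + 1) (1 : ℤ_[p][X]) := by simp [IsSym]
  obtain ⟨r, hr⟩ := sym_coeff hN _ (Bt_sym (N := N) h2 hN 1 h1sym)
  refine ⟨h0, ?_, h22⟩
  rw [hr]
  refine dvd_add ?_ (dvd_mul_right _ _)
  have : (p : ℤ_[p]) ^ 2 * N * (Bt p N 1).coeff 2 = (p : ℤ_[p]) ^ 2 * (Bt p N 1).coeff 2 * N := by ring
  rw [this, show (4 : ℕ) = 2 + 2 by norm_num, pow_add]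
  exact Dvd.dvd.mul_right (mul_dvd_mul_left _ h22) _

/-- polynomials of degree `≤ p-3` -/
lemma BS_low (h5 : 5 ≤ p) {d : ℤ_[p]} (hN : 1 ≤ N)
    (hd : ((p : ℤ_[p]) + 1) * N = p ^ 3 * d + 1) (g : ℤ_[p][X]) (hg : IsSym (mm p N + 1) g)
    (hdeg : ∀ m, p - 2 ≤ m → g.coeff m = 0) :
    (p : ℤ_[p]) ^ 4 ∣ (Bt p N g).coeff 0 ∧ (p : ℤ_[p]) ^ 3 ∣ (Bt p N g).coeff 1 ∧
      (p : ℤ_[p]) ∣ (Bt p N g).coeff 2 := by
  have h2 : p ≠ 2 := by omega
  obtain ⟨h, hh1, rfl⟩ := exists_LL (p - 2) (by omega) g hdeg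
  have hB := (C_dvd_iff_dvd_coeff _ _).1 (Bt_LL h2 hN hd h)
  have hcomp := (C_dvd_iff_dvd_coeff _ _).1 (comp_add_dvd (p : ℤ_[p]) h)
  have ha1 := ca_last h2 hN hd
  have ha1' := (dvd_pow_self (p : ℤ_[p]) three_ne_zero).trans ha1
  have he1 := ce_zero h2 hN hd (p - 1) (by omega)
  have ha0 := ca_zero (p := p) (N := N)
  have hc2 : (p : ℤ_[p]) ∣ (Bt p N (LL p h)).coeff 2 := by
    have h3 := (dvd_pow_self (p : ℤ_[p]) three_ne_zero).trans (hB 2)
    rw [coeff_sub, show (2 : ℕ) = 1 + 1 by rfl, coeff_X_mul, coeff_sub, mul_coeff_one, mul_coeff_one] at h3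
    change (p : ℤ_[p]) ∣ (Bt p N (LL p h)).coeff 2 -
      ((h.comp (X + C (p : ℤ_[p]))).coeff 0 * ce p N (p - 1) + (h.comp (X + C (p : ℤ_[p]))).coeff 1 * ca p N (p - 1) -
        (h.coeff 0 * ce p N 0 + h.coeff 1 * ca p N 0)) at h3
    have d0 := hcomp 0
    have d1 := hcomp 1
    rw [coeff_sub] at d0 d1
    rw [ha0] at h3
    set H0 := (h.comp (X + C (p : ℤ_[p]))).coeff 0
    set H1 := (h.comp (X + C (p : ℤ_[p]))).coeff 1
    have h4 := dvd_add h3 (dvd_add (dvd_add (Dvd.dvd.mul_right d0 (ce p N (p - 1)))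
      (Dvd.dvd.mul_left he1 (h.coeff 0))) (dvd_add (Dvd.dvd.mul_right d1 (ca p N (p - 1)))
      (Dvd.dvd.mul_left ha1' (h.coeff 1))))
    convert h4 using 1
    ring
  obtain ⟨r, hr⟩ := sym_coeff hN _ (Bt_sym (N := N) h2 hN (LL p h) hg)
  have hc1 : (p : ℤ_[p]) ^ 3 ∣ (Bt p N (LL p h)).coeff 1 := by
    rw [hr]
    refine dvd_add ?_ (Dvd.dvd.mul_right (pow_dvd_pow _ (by norm_num)) _)
    have : (p : ℤ_[p]) ^ 2 * N * (Bt p N (LL p h)).coeff 2 = (p : ℤ_[p]) ^ 2 * (Bt p N (LL p h)).coeff 2 * N := by ring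
    rw [this, show (3 : ℕ) = 2 + 1 by norm_num, pow_succ]
    exact Dvd.dvd.mul_right (mul_dvd_mul_left _ hc2) _
  refine ⟨?_, hc1, hc2⟩
  apply Bt_LL_four h5 hN hd h
  · rw [natDegree_le_iff_coeff_eq_zero]
    intro m hm
    exact hh1 m (by omega)
  · -- the linear coefficient of `h`
    have h3 := hB 1
    rw [coeff_sub, show (1 : ℕ) = 0 + 1 by rfl, coeff_X_mul, coeff_sub, mul_coeff_zero, mul_coeff_zero] at h3
    change (p : ℤ_[p]) ^ 3 ∣ (Bt p N (LL p h)).coeff 1 -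
      ((h.comp (X + C (p : ℤ_[p]))).coeff 0 * ca p N (p - 1) - h.coeff 0 * ca p N 0) at h3
    have e0 : (h.comp (X + C (p : ℤ_[p]))).coeff 0 = h.eval (p : ℤ_[p]) := by
      rw [coeff_zero_eq_eval_zero, eval_comp]; simp
    rw [ha0, e0] at h3
    have h4 : (p : ℤ_[p]) ^ 3 ∣ h.eval (p : ℤ_[p]) - h.coeff 0 := by
      have h6 := dvd_sub (dvd_sub hc1 h3) (Dvd.dvd.mul_left ha1 (h.eval (p : ℤ_[p])))
      convert h6 using 1
      ring
    have e1 : ∀ (P : ℤ_[p][X]) (x : ℤ_[p]), P.eval x = P.divX.eval x * x + P.coeff 0 := by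
      intro P x
      conv_lhs => rw [← divX_mul_X_add P]
      rw [eval_add, eval_mul, eval_X, eval_C]
    rw [e1 h, add_sub_cancel_right, e1 h.divX, coeff_divX] at h4
    have hpne : (p : ℤ_[p]) ≠ 0 := by exact_mod_cast hp.out.ne_zero
    have h6 : (p : ℤ_[p]) ^ 2 ∣ h.divX.divX.eval (p : ℤ_[p]) * (p : ℤ_[p]) + h.coeff (0 + 1) := by
      rw [show (3 : ℕ) = 2 + 1 by norm_num, pow_succ] at h4
      exact (mul_dvd_mul_iff_right hpne).1 h4
    have h7 := dvd_sub ((dvd_pow_self (p : ℤ_[p]) two_ne_zero).trans h6)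
      (dvd_mul_left (p : ℤ_[p]) (h.divX.divX.eval (p : ℤ_[p])))
    rwa [add_sub_cancel_left] at h7

end Pool.Agent.Helper93.Sun
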