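import Mathlib
import Pool.Agent.Helper93.Sun14

set_option autoImplicit false

namespace Pool.Agent.Helper93.Sun

open Polynomial Finset

variable {p : ℕ} [hp : Fact p.Prime] {N : ℕ}

/-- the admissible parameters `(κ, s)` -/
def Par (p κ s : ℕ) : Prop := (p = 3 ∧ κ = 3 ∧ s = 3) ∨ (5 ≤ p ∧ κ = 5 ∧ s = 6)

/-- the class of even polynomials kept by the induction -/
def Lam (p : ℕ) [Fact p.Prime] (κ s T : ℕ) (B : ℤ_[p][X]) : Prop :=
  IsEv B ∧ B.natDegree ≤ p - 1 ∧ (∀ m, 1 ≤ m → (p : ℤ_[p]) ^ (s - κ) ∣ B.coeff m) ∧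
    (p : ℤ_[p]) ^ T ∣ B.coeff (p - 1)

/-- centre at the upper level -/
noncomputable def om (p : ℕ) [Fact p.Prime] (J : ℕ) : ℤ_[p] := (J : ℤ_[p]) * half p

lemma two_om (h2 : p ≠ 2) (J : ℕ) : om p J + om p J = (J : ℤ_[p]) := by
  rw [om]; linear_combination (J : ℤ_[p]) * two_mul_half h2

lemma IsEv.sym (h2 : p ≠ 2) {B : ℤ_[p][X]} (hB : IsEv B) (J : ℕ) :
    IsSym J (B.comp (X + C (om p J))) := by
  unfold IsSym
  have h1 := congrArg C (two_om h2 J)
  rw [map_add] at h1
  conv_rhs => rw [← hB]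
  rw [comp_assoc, comp_assoc]
  congr 1
  simp only [add_comp, X_comp, C_comp, neg_comp]
  linear_combination h1

lemma IsSym.ev (h2 : p ≠ 2) {P : ℤ_[p][X]} {J : ℕ} (hP : IsSym J P) : IsEv (P.comp (X - C (om p J))) := by
  unfold IsEv
  have h1 := congrArg C (two_om h2 J)
  rw [map_add] at h1
  conv_rhs => rw [← hP.comp_neg (X - C (om p J))]
  rw [comp_assoc]
  congr 1
  simp only [sub_comp, X_comp, C_comp]
  linear_combination (-1 : ℤ_[p][X]) * h1

lemma three_case [Fact (Nat.Prime 3)] {N : ℕ} {d : ℤ_[3]} (hN : 1 ≤ N)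
    (hd : (((3 : ℕ) : ℤ_[3]) + 1) * N = ((3 : ℕ) : ℤ_[3]) ^ 3 * d + 1) :
    ((3 : ℕ) : ℤ_[3]) ^ 3 ∣ ∑ c ∈ range 3, ca 3 N c := by
  have h1 := congrArg (Nat.cast : ℕ → ℤ_[3]) (mm_add (p := 3) hN)
  have h2 := congrArg (fun P => Polynomial.eval 0 P) (uu_succ (p := 3) (N := N) 0 (by norm_num))
  have h3 := congrArg (fun P => Polynomial.eval 0 P) (uu_succ (p := 3) (N := N) 1 (by norm_num))
  simp only [eval_mul, eval_pow, eval_add, eval_X, eval_C, zero_add, eval_natCast] at h2 h3
  rw [← coeff_zero_eq_eval_zero, ← coeff_zero_eq_eval_zero, ← ca, ← ca] at h2 h3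
  rw [ca_zero] at h2
  simp only [Finset.sum_range_succ, Finset.sum_range_zero, ca_zero, zero_add]
  push_cast at h1 h2 h3 hd ⊢
  set m : ℤ_[3] := (mm 3 N : ℤ_[3])
  set a1 := ca 3 N 1
  set a2 := ca 3 N 2
  norm_num at h2 h3 hd h1
  have hm : m = 6 + 27 * (9 * d - N) := by
    linear_combination h1 + 9 * hd
  set w : ℤ_[3] := 9 * d - N
  have h16 : (27 : ℤ_[3]) ∣ 16 * (1 + a1 + a2) := by
    refine ⟨w * (13056 + 16 * (4704 : ℤ_[3])) * 0 + 365664 + ((16 * ((1 + m) ^ 4 - 7 ^ 4) + ((2 + m) ^ 4 * (1 + m) ^ 4 - 8 ^ 4 * 7 ^ 4))) * 0 +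
      w * (16 * ((7 + 27 * w) ^ 3 + (7 + 27 * w) ^ 2 * 7 + (7 + 27 * w) * 7 ^ 2 + 7 ^ 3) +
        (8 + 27 * w) ^ 4 * ((7 + 27 * w) ^ 3 + (7 + 27 * w) ^ 2 * 7 + (7 + 27 * w) * 7 ^ 2 + 7 ^ 3) +
        7 ^ 4 * ((8 + 27 * w) ^ 3 + (8 + 27 * w) ^ 2 * 8 + (8 + 27 * w) * 8 ^ 2 + 8 ^ 3)), ?_⟩
    have e : 16 * (1 + a1 + a2) = 16 * (1 + (1 + m) ^ 4) + (2 + m) ^ 4 * (1 + m) ^ 4 := by
      linear_combination (16 + (2 + m) ^ 4) * h2 + h3
    rw [e, hm]
    ring
  have hu : IsUnit (16 : ℤ_[3]) := by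
    have := natCast_isUnit (p := 3) (i := 16) (by norm_num)
    exact_mod_cast this
  rw [hu.dvd_mul_left] at h16
  norm_num
  exact h16

/-- main statement on the inner sums -/
lemma BS_main {κ s : ℕ} (hpar : Par p κ s) {d : ℤ_[p]} (hN : 1 ≤ N)
    (hd : ((p : ℤ_[p]) + 1) * N = p ^ 3 * d + 1) (B : ℤ_[p][X]) (hB : Lam p κ s 6 B) :
    (p : ℤ_[p]) ^ κ ∣ (Bt p N (B.comp (X + C (om p (mm p N + 1))))).coeff 0 ∧
      ∀ m, 1 ≤ m → (p : ℤ_[p]) ^ s ∣
        (p : ℤ_[p]) ^ (2 * m) * (Bt p N (B.comp (X + C (om p (mm p N + 1))))).coeff m := by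
  have hpne : (p : ℤ_[p]) ≠ 0 := by exact_mod_cast hp.out.ne_zero
  obtain ⟨hev, hdeg, hco, htop⟩ := hB
  rcases hpar with ⟨hp3, rfl, rfl⟩ | ⟨h5, rfl, rfl⟩
  · have h2 : p ≠ 2 := by omega
    constructor
    · -- constant coefficient
      have hdvd : C ((p : ℤ_[p]) ^ 6) ∣ B - C (B.coeff 0) := by
        rw [C_dvd_iff_dvd_coeff]
        intro m
        rw [coeff_sub, coeff_C]
        rcases Nat.eq_zero_or_pos m with h | h
        · subst h; simp
        · rw [if_neg (by omega), sub_zero]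
          rcases Nat.lt_or_ge (p - 1) m with h' | h'
          · rw [coeff_eq_zero_of_natDegree_lt (by omega)]; exact dvd_zero _
          · rcases Nat.eq_or_lt_of_le h' with h'' | h''
            · rw [h'']; exact htop
            · have : m = 1 := by omega
              subst this
              rw [hev.coeff_odd odd_one]; exact dvd_zero _
      obtain ⟨D, hD⟩ := hdvd
      have e1 : B.comp (X + C (om p (mm p N + 1))) =
          C (B.coeff 0) * 1 + C ((p : ℤ_[p]) ^ 6) * D.comp (X + C (om p (mm p N + 1))) := by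
        have h1 := congrArg (fun P => Polynomial.comp P (X + C (om p (mm p N + 1)))) hD
        simp only [sub_comp, C_comp, mul_comp] at h1
        linear_combination h1
      rw [e1, Bt_add, Bt_C_mul, Bt_C_mul, coeff_add, coeff_C_mul, coeff_C_mul]
      refine dvd_add (Dvd.dvd.mul_left ?_ _) (Dvd.dvd.mul_right (pow_dvd_pow _ (by norm_num)) _)
      rw [Bt_eval_zero]
      simp only [eval_one, mul_one]
      subst hp3
      exact three_case hN hd
    · intro m hm
      rcases Nat.eq_or_lt_of_le hm with h | h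
      · subst h
        obtain ⟨r, hr⟩ := sym_coeff hN _ (Bt_sym (N := N) h2 hN _ (hev.sym h2 (mm p N + 1)))
        rw [hr, mul_add]
        refine dvd_add ?_ ?_
        · have : (p : ℤ_[p]) ^ (2 * 1) * ((p : ℤ_[p]) ^ 2 * N * (Bt p N (B.comp (X + C (om p (mm p N + 1))))).coeff 2) =
            (p : ℤ_[p]) ^ 3 * (p * N * (Bt p N (B.comp (X + C (om p (mm p N + 1))))).coeff 2) := by ring
          rw [this]; exact dvd_mul_right _ _
        · have : (p : ℤ_[p]) ^ (2 * 1) * ((p : ℤ_[p]) ^ 4 * r) = (p : ℤ_[p]) ^ 3 * (p ^ 3 * r) := by ring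
          rw [this]; exact dvd_mul_right _ _
      · exact Dvd.dvd.mul_right (pow_dvd_pow _ (by omega)) _
  · have h2 : p ≠ 2 := by omega
    have hodd : Odd p := hp.out.odd_of_ne_two h2
    -- decomposition
    have hdvd : C (p : ℤ_[p]) ∣ B - C (B.coeff 0) - C (B.coeff (p - 1)) * X ^ (p - 1) := by
      rw [C_dvd_iff_dvd_coeff]
      intro m
      rw [coeff_sub, coeff_sub, coeff_C, coeff_C_mul, coeff_X_pow]
      rcases Nat.eq_zero_or_pos m with h | h
      · subst h
        rw [if_pos rfl, if_neg (by omega)]; simp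
      · rw [if_neg (by omega), sub_zero]
        refine dvd_sub ?_ (Dvd.dvd.mul_right ((dvd_pow_self _ (by norm_num)).trans htop) _)
        have := hco m h
        simpa using this
    obtain ⟨D, hD⟩ := hdvd
    have hDc : ∀ m, p - 2 ≤ m → D.coeff m = 0 := by
      intro m hm
      have h1 := congrArg (fun P => Polynomial.coeff P m) hD
      simp only [coeff_sub, coeff_C, coeff_C_mul, coeff_X_pow] at h1
      rw [if_neg (show m ≠ 0 by omega), sub_zero] at h1
      have h3 : (p : ℤ_[p]) * D.coeff m = 0 := by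
        rw [← h1]
        rcases Nat.lt_or_ge (p - 1) m with h' | h'
        · rw [coeff_eq_zero_of_natDegree_lt (by omega), if_neg (by omega)]; simp
        · rcases Nat.eq_or_lt_of_le h' with h'' | h''
          · rw [if_pos h'', h'']; ring
          · have hm2 : Odd m := by
              obtain ⟨t, ht⟩ := hodd
              exact ⟨t - 1, by omega⟩
            rw [hev.coeff_odd hm2, if_neg (by omega)]; simp
      rcases mul_eq_zero.1 h3 with h | h
      · exact absurd h hpne
      · exact h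
    have hDev : IsEv D := by
      unfold IsEv
      have hC : (C (p : ℤ_[p]) : ℤ_[p][X]) ≠ 0 := C_ne_zero.2 hpne
      apply mul_left_cancel₀ hC
      have hevp : Even (p - 1) := by
        obtain ⟨t, ht⟩ := hodd
        exact ⟨t, by omega⟩
      have h1 := congrArg (fun P => Polynomial.comp P (-X)) hD
      simp only [sub_comp, C_comp, mul_comp, pow_comp, X_comp] at h1
      rw [hev, hevp.neg_pow] at h1
      rw [← h1, ← hD]
    have e1 : B.comp (X + C (om p (mm p N + 1))) =
        C (B.coeff 0) * 1 + C (p : ℤ_[p]) * D.comp (X + C (om p (mm p N + 1))) +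
          C (B.coeff (p - 1)) * (X ^ (p - 1) : ℤ_[p][X]).comp (X + C (om p (mm p N + 1))) := by
      have h1 := congrArg (fun P => Polynomial.comp P (X + C (om p (mm p N + 1)))) hD
      simp only [sub_comp, C_comp, mul_comp] at h1
      linear_combination h1
    have hone := BS_one h5 hN hd
    have hlow := BS_low h5 hN hd (D.comp (X + C (om p (mm p N + 1)))) (hDev.sym h2 _) (by
      intro m hm
      rw [coeff_comp_add]
      apply Finset.sum_eq_zero
      intro i _
      rw [hDc (i + m) (by omega)]; ring)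
    rw [e1, Bt_add, Bt_add, Bt_C_mul, Bt_C_mul, Bt_C_mul]
    set b1 := Bt p N 1
    set b2 := Bt p N (D.comp (X + C (om p (mm p N + 1))))
    set b3 := Bt p N ((X ^ (p - 1) : ℤ_[p][X]).comp (X + C (om p (mm p N + 1))))
    constructor
    · rw [coeff_add, coeff_add, coeff_C_mul, coeff_C_mul, coeff_C_mul]
      refine dvd_add (dvd_add (Dvd.dvd.mul_left hone.1 _) ?_) (Dvd.dvd.mul_right ((pow_dvd_pow _ (by norm_num)).trans htop) _)
      rw [show (5 : ℕ) = 1 + 4 by norm_num, pow_add, pow_one]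
      exact mul_dvd_mul_left _ hlow.1
    · intro m hm
      rw [coeff_add, coeff_add, coeff_C_mul, coeff_C_mul, coeff_C_mul]
      rcases Nat.lt_or_ge m 3 with h | h
      · rcases Nat.eq_or_lt_of_le hm with h' | h'
        · subst h'
          have e2 : (6 : ℕ) = 2 * 1 + 4 := by norm_num
          rw [e2, pow_add]
          apply mul_dvd_mul_left
          refine dvd_add (dvd_add (Dvd.dvd.mul_left hone.2.1 _) ?_) (Dvd.dvd.mul_right ((pow_dvd_pow _ (by norm_num)).trans htop) _)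
          rw [show (4 : ℕ) = 1 + 3 by norm_num, pow_add, pow_one]
          exact mul_dvd_mul_left _ hlow.2.1
        · have : m = 2 := by omega
          subst this
          have e2 : (6 : ℕ) = 2 * 2 + 2 := by norm_num
          rw [e2, pow_add]
          apply mul_dvd_mul_left
          refine dvd_add (dvd_add (Dvd.dvd.mul_left hone.2.2 _) ?_) (Dvd.dvd.mul_right ((pow_dvd_pow _ (by norm_num)).trans htop) _)
          rw [show (2 : ℕ) = 1 + 1 by norm_num, pow_add, pow_one]
          exact mul_dvd_mul_left _ hlow.2.2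
      · exact Dvd.dvd.mul_right (pow_dvd_pow _ (by omega)) _

end Pool.Agent.Helper93.Sun
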