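import Mathlib
import Pool.Agent.Helper93.Sun15

set_option autoImplicit false

namespace Pool.Agent.Helper93.Sun

open Polynomial Finset

variable {p : ℕ} [hp : Fact p.Prime] {N : ℕ}

/-- coefficient class after transfer -/
def Kc (p : ℕ) [Fact p.Prime] (κ s : ℕ) (P : ℤ_[p][X]) : Prop :=
  (p : ℤ_[p]) ^ κ ∣ P.coeff 0 ∧ ∀ m, 1 ≤ m → (p : ℤ_[p]) ^ (max s m) ∣ P.coeff m

lemma Par.le {κ s : ℕ} (h : Par p κ s) : κ ≤ s := by rcases h with h | h <;> omega
lemma Par.le' {κ s : ℕ} (h : Par p κ s) : s ≤ κ + 1 := by rcases h with h | h <;> omega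
lemma Par.le_p {κ s : ℕ} (h : Par p κ s) : s ≤ p + 1 := by rcases h with h | h <;> omega
lemma Par.ne_two {κ s : ℕ} (h : Par p κ s) : p ≠ 2 := by rcases h with h | h <;> omega
lemma Par.p_le {κ s : ℕ} (h : Par p κ s) : κ ≤ p := by rcases h with h | h <;> omega
lemma Par.kle {κ s : ℕ} (h : Par p κ s) : κ ≤ 5 := by rcases h with h | h <;> omega
lemma Par.kge {κ s : ℕ} (h : Par p κ s) : 3 ≤ κ := by rcases h with h | h <;> omega

lemma Kc.sub {κ s : ℕ} {P : ℤ_[p][X]} (h : Kc p κ s P) : Sc p s (P - C (P.coeff 0)) := fun m => by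
  rw [coeff_sub, coeff_C]
  rcases Nat.eq_zero_or_pos m with h0 | h0
  · subst h0; simp
  · rw [if_neg (by omega), sub_zero]; exact h.2 m h0

lemma Kc_of {κ s : ℕ} (hks : κ ≤ s) {a : ℤ_[p]} (ha : (p : ℤ_[p]) ^ κ ∣ a) {Q : ℤ_[p][X]} (hQ : Sc p s Q) :
    Kc p κ s (C a + Q) := by
  constructor
  · rw [coeff_add, coeff_C_zero]
    exact dvd_add ha ((pow_dvd_pow _ (hks.trans (le_max_left _ _))).trans (hQ 0))
  · intro m hm
    rw [coeff_add, coeff_C, if_neg (by omega), zero_add]; exact hQ m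

lemma Kc.trans {κ s : ℕ} (hks : κ ≤ s) {P : ℤ_[p][X]} (h : Kc p κ s P) (a : ℤ_[p]) :
    Kc p κ s (P.comp (X + C a)) := by
  have h1 := Kc_of hks h.1 (h.sub.trans a)
  have h2 : C (P.coeff 0) + (P - C (P.coeff 0)).comp (X + C a) = P.comp (X + C a) := by
    rw [sub_comp, C_comp]; ring
  rwa [h2] at h1

lemma Kc.add_Sc {κ s : ℕ} (hks : κ ≤ s) {P Q : ℤ_[p][X]} (h : Kc p κ s P) (hQ : Sc p s Q) :
    Kc p κ s (P + Q) := by
  constructor
  · rw [coeff_add]
    exact dvd_add h.1 ((pow_dvd_pow _ (hks.trans (le_max_left _ _))).trans (hQ 0))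
  · intro m hm
    rw [coeff_add]; exact dvd_add (h.2 m hm) (hQ m)

lemma Um_class {κ s : ℕ} (hpar : Par p κ s) {d : ℤ_[p]} (hN : 1 ≤ N)
    (hd : ((p : ℤ_[p]) + 1) * N = p ^ 3 * d + 1) (B : ℤ_[p][X]) (hB : Lam p κ s 6 B) :
    Kc p κ s (Um p N (B.comp (X + C (om p (mm p N + 1))))) := by
  obtain ⟨h0, hm⟩ := BS_main hpar hN hd B hB
  rw [Um_eq]
  set β := Bt p N (B.comp (X + C (om p (mm p N + 1))))
  set R := rhoH p (mm p N) 0 ^ (p + 1) with hR
  have hRm : R ∈ Rs (p : ℤ_[p]) := (Rs _).pow_mem (rhoH_mem _ _) _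
  set K := β.comp (C ((p : ℤ_[p]) ^ 2) * X) with hK
  have hKc : ∀ m, K.coeff m = β.coeff m * (p : ℤ_[p]) ^ (2 * m) := by
    intro m
    rw [hK, comp_C_mul_X_coeff, ← pow_mul]
  have hK' : Sc p s (K - C (β.coeff 0)) := by
    intro m
    rw [coeff_sub, coeff_C]
    rcases Nat.eq_zero_or_pos m with h | h
    · subst h
      rw [if_pos rfl, hKc]; simp
    · rw [if_neg (by omega), sub_zero, hKc]
      rcases le_total s m with h' | h'
      · rw [max_eq_right h']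
        exact Dvd.dvd.mul_left (pow_dvd_pow _ (by omega)) _
      · rw [max_eq_left h', mul_comm]
        exact hm m h
  have e : R * K = C (β.coeff 0) * R + (K - C (β.coeff 0)) * R := by ring
  rw [e]
  apply Kc.add_Sc hpar.le _ (hK'.mul hRm)
  constructor
  · rw [coeff_C_mul]; exact Dvd.dvd.mul_right h0 _
  · intro m hm'
    rw [coeff_C_mul]
    refine (pow_dvd_pow _ (?_ : max s m ≤ κ + m)).trans ?_
    · have := hpar.le'
      exact max_le (by omega) (by omega)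
    · rw [pow_add]; exact mul_dvd_mul h0 (Rs_coeff hRm m)

lemma Sc_of_deg {t : ℕ} {P : ℤ_[p][X]} (h : P.natDegree ≤ t) : Sc p t (C ((p : ℤ_[p]) ^ t) * P) := fun m => by
  rw [coeff_C_mul]
  rcases Nat.lt_or_ge t m with h' | h'
  · rw [coeff_eq_zero_of_natDegree_lt (by omega), mul_zero]; exact dvd_zero _
  · rw [max_eq_left h']; exact dvd_mul_right _ _

lemma Cg_mem (g : ℤ_[p][X]) : Cg p N g ∈ Rs (p : ℤ_[p]) := by
  rw [Cg]
  refine (Rs _).sum_mem fun c _ => (Rs _).mul_mem ((Rs _).pow_mem (PhiH_mem c) _) ?_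
  exact comp_mem g (Rs_mono (dvd_pow_self _ two_ne_zero) (sub2_mem c))

lemma UE_class (g : ℤ_[p][X]) : Sc p (p + 1) (UE p N g) := by
  have h1 : Sc p (p + 1) (C ((p : ℤ_[p]) ^ (p + 1)) * (X + C (N : ℤ_[p])) ^ (p + 1)) := by
    apply Sc_of_deg
    rw [(monic_X_add_C _).natDegree_pow, natDegree_X_add_C]; omega
  have h2 : Sc p (p + 1) (C ((p : ℤ_[p]) ^ (p + 1)) * X ^ (p + 1)) := by
    apply Sc_of_deg
    rw [natDegree_X_pow]
  have hC := Cg_mem (p := p) (N := N) g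
  have hC' : (Cg p N g).comp (X - 1) ∈ Rs (p : ℤ_[p]) := by
    have := Rs_trans hC (-1)
    simpa [sub_eq_add_neg] using this
  have e : UE p N g = C (half p) * (C ((p : ℤ_[p]) ^ (p + 1)) * (X + C (N : ℤ_[p])) ^ (p + 1) * Cg p N g +
      C ((p : ℤ_[p]) ^ (p + 1)) * X ^ (p + 1) * (Cg p N g).comp (X - 1)) := by
    rw [UE, map_mul]; ring
  rw [e]
  exact ((h1.mul hC).add (h2.mul hC')).C_mul _

lemma Up_class {κ s : ℕ} (hpar : Par p κ s) {d : ℤ_[p]} (hN : 1 ≤ N)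
    (hd : ((p : ℤ_[p]) + 1) * N = p ^ 3 * d + 1) (B : ℤ_[p][X]) (hB : Lam p κ s 6 B) :
    Kc p κ s (Up p N (B.comp (X + C (om p (mm p N + 1))))) :=
  (Um_class hpar hN hd B hB).add_Sc hpar.le ((UE_class _).mono hpar.le_p)

lemma natCast_dvd_pow {n : ℕ} (hn : n ≠ 0) : (n : ℤ_[p]) ∣ (p : ℤ_[p]) ^ (padicValNat p n) := by
  have h1 : p ^ padicValNat p n * (n / p ^ padicValNat p n) = n := Nat.mul_div_cancel' pow_padicValNat_dvd
  have h2 : ¬ p ∣ (n / p ^ padicValNat p n) := by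
    intro h
    have h3 : p ^ (padicValNat p n + 1) ∣ n := by
      rw [pow_succ]
      conv_rhs => rw [← h1]
      exact Nat.mul_dvd_mul_left _ h
    exact pow_succ_padicValNat_not_dvd hn h3
  obtain ⟨u, hu⟩ := natCast_isUnit h2
  refine ⟨↑u⁻¹, ?_⟩
  conv_rhs => rw [← h1]
  push_cast
  rw [← hu, mul_assoc]
  simp

lemma fact_dvd (j : ℕ) (hj : 1 ≤ j) : (j.factorial : ℤ_[p]) ∣ (p : ℤ_[p]) ^ (j - 1) := by
  refine (natCast_dvd_pow (Nat.factorial_ne_zero j)).trans (pow_dvd_pow _ ?_)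
  have h1 := sub_one_mul_padicValNat_factorial (p := p) j
  have h3 : 1 ≤ (p.digits j).sum := by
    by_contra hcon
    have h4 : (p.digits j).sum = 0 := by omega
    have h5 : ∀ x ∈ p.digits j, x = 0 := List.sum_eq_zero_iff.1 h4
    have h6 : p.digits j ≠ [] := Nat.digits_ne_nil_iff_ne_zero.2 (by omega)
    have h7 := Nat.getLast_digit_ne_zero p (show j ≠ 0 by omega)
    exact h7 (h5 _ (List.getLast_mem _))
  have h2 : padicValNat p j.factorial ≤ (p - 1) * padicValNat p j.factorial :=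
    Nat.le_mul_of_pos_left _ (by have := p_two_le (p := p); omega)
  omega

lemma self_dvd_pow (j T : ℕ) (hj : 1 ≤ j) (hT : j ≤ T) : (j : ℤ_[p]) ∣ (p : ℤ_[p]) ^ T := by
  have h1 : (j : ℤ_[p]) ∣ (j.factorial : ℤ_[p]) := Nat.cast_dvd_cast (Nat.dvd_factorial (by omega) le_rfl)
  exact h1.trans ((fact_dvd j hj).trans (pow_dvd_pow _ (by omega)))

/-- truncation -/
noncomputable def trc (p : ℕ) [Fact p.Prime] (D : ℕ) (A : ℤ_[p][X]) : ℤ_[p][X] :=
  ∑ i ∈ range D, monomial i (A.coeff i)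

lemma trc_coeff (D : ℕ) (A : ℤ_[p][X]) (m : ℕ) :
    (trc p D A).coeff m = if m < D then A.coeff m else 0 := by
  rw [trc, finset_sum_coeff]
  simp only [coeff_monomial]
  rw [Finset.sum_ite_eq' (range D) m (fun i => A.coeff i)]
  simp only [mem_range]

lemma trc_ev {D : ℕ} {A : ℤ_[p][X]} (hA : IsEv A) : IsEv (trc p D A) := by
  unfold IsEv
  ext m
  rw [coeff_comp_neg, trc_coeff]
  split_ifs
  · rcases Nat.even_or_odd m with h | h
    · rw [h.neg_one_pow, mul_one]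
    · rw [hA.coeff_odd h, zero_mul]
  · rw [zero_mul]

lemma trc_tail {κ s D : ℕ} {A : ℤ_[p][X]} (hA : Kc p κ s A) (hD : 1 ≤ D) :
    C ((p : ℤ_[p]) ^ D) ∣ A - trc p D A := by
  rw [C_dvd_iff_dvd_coeff]
  intro m
  rw [coeff_sub, trc_coeff]
  split_ifs with h
  · rw [sub_self]; exact dvd_zero _
  · rw [sub_zero]
    exact (pow_dvd_pow _ (le_trans (by omega) (le_max_right s m))).trans (hA.2 m (by omega))

/-- the reduced form of the transferred function -/
lemma pre_step {κ s T : ℕ} (hpar : Par p κ s) (hT : 1 ≤ T) (hN : 1 ≤ N) (hpN : ¬ p ∣ N)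
    (hNT : (p + 1) * N = p ^ (2 * T + 1) + 1) (B : ℤ_[p][X]) (hB : Lam p κ s 6 B) :
    ∃ B' H R : ℤ_[p][X], Up p N (B.comp (X + C (om p (mm p N + 1)))) =
        C ((p : ℤ_[p]) ^ κ) * B'.comp (X + C (om p N)) + nab p N H + C ((p : ℤ_[p]) ^ (2 * T)) * R ∧
      IsEv B' ∧ B'.natDegree ≤ p - 1 ∧ ∀ m, 1 ≤ m → (p : ℤ_[p]) ^ (s - κ) ∣ B'.coeff m := by
  have h2 := hpar.ne_two
  have hpne : (p : ℤ_[p]) ≠ 0 := by exact_mod_cast hp.out.ne_zero
  have hNT' : ((p : ℤ_[p]) + 1) * N = p ^ (2 * T + 1) + 1 := by exact_mod_cast congrArg (Nat.cast : ℕ → ℤ_[p]) hNT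
  have hd : ((p : ℤ_[p]) + 1) * N = p ^ 3 * (p : ℤ_[p]) ^ (2 * T - 2) + 1 := by
    rw [hNT', ← pow_add]; congr 2; omega
  have hcl := Up_class hpar hN hd B hB
  have hsym := Up_sym h2 hN hpN _ (hB.1.sym h2 (mm p N + 1))
  set P := Up p N (B.comp (X + C (om p (mm p N + 1)))) with hP
  set A := P.comp (X - C (om p N)) with hA
  have hAev : IsEv A := hsym.ev h2
  have hAcl : Kc p κ s A := by
    have := hcl.trans hpar.le (-(om p N))
    rwa [map_neg, ← sub_eq_add_neg] at this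
  have hPA : P = A.comp (X + C (om p N)) := by
    rw [hA, comp_assoc]
    simp
  obtain ⟨R0, hR0⟩ := trc_tail (D := 2 * T) hAcl (by omega)
  set A0 := trc p (2 * T) A with hA0
  have hA0ev : IsEv A0 := trc_ev hAev
  have hA0deg : A0.natDegree ≤ p - 1 + 2 * T := by
    rw [natDegree_le_iff_coeff_eq_zero]
    intro m hm
    rw [hA0, trc_coeff, if_neg (by omega)]
  obtain ⟨H, A', hH, hev', hdeg', hco'⟩ := reduce h2 (om p N) (half p) ((p : ℤ_[p]) ^ (2 * T + 1))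
    (two_mul_half h2) (by
      have := two_om h2 N
      linear_combination ((p : ℤ_[p]) + 1) * this + hNT') s T
    (by
      intro j hj1 hj2
      obtain ⟨q, hq⟩ := self_dvd_pow (p := p) j T hj1 hj2
      refine ⟨q * p ^ (T + 1), ?_, ?_⟩
      · rw [← mul_assoc, ← hq, ← pow_add]; congr 1; omega
      · exact Dvd.dvd.mul_left (dvd_pow_self _ (by omega)) _)
    A0 hA0ev hA0deg
    (by
      intro j hj1 hj2
      rw [hA0, trc_coeff]
      split_ifs
      · refine dvd_trans ?_ (hAcl.2 (p - 1 + 2 * j) (by omega))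
        have h3 := mul_dvd_mul_left ((p : ℤ_[p]) ^ s) (fact_dvd (p := p) j hj1)
        rw [← pow_add] at h3
        refine h3.trans (pow_dvd_pow _ ?_)
        refine le_trans ?_ (le_max_right _ _)
        rcases hpar with h | h <;> omega
      · exact dvd_zero _)
  have hA'0 : (p : ℤ_[p]) ^ κ ∣ A'.coeff 0 := by
    have h3 := (pow_dvd_pow (p : ℤ_[p]) hpar.le).trans (hco' 0)
    have h4 : (p : ℤ_[p]) ^ κ ∣ A0.coeff 0 := by
      rw [hA0, trc_coeff, if_pos (by omega)]; exact hAcl.1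
    have := dvd_sub h4 h3
    rwa [sub_sub_cancel] at this
  have hA'm : ∀ m, 1 ≤ m → (p : ℤ_[p]) ^ s ∣ A'.coeff m := by
    intro m hm
    have h3 := hco' m
    have h4 : (p : ℤ_[p]) ^ s ∣ A0.coeff m := by
      rw [hA0, trc_coeff]
      split_ifs
      · exact (pow_dvd_pow _ (le_max_left _ _)).trans (hAcl.2 m hm)
      · exact dvd_zero _
    have := dvd_sub h4 h3
    rwa [sub_sub_cancel] at this
  have hdvd : C ((p : ℤ_[p]) ^ κ) ∣ A' := by
    rw [C_dvd_iff_dvd_coeff]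
    intro m
    rcases Nat.eq_zero_or_pos m with h | h
    · subst h; exact hA'0
    · exact (pow_dvd_pow _ hpar.le).trans (hA'm m h)
  obtain ⟨B', hB'⟩ := hdvd
  have hC : (C ((p : ℤ_[p]) ^ κ) : ℤ_[p][X]) ≠ 0 := C_ne_zero.2 (pow_ne_zero _ hpne)
  refine ⟨B', H.comp (X + C ((N : ℤ_[p]) * half p - half p)), R0.comp (X + C (om p N)), ?_, ?_, ?_, ?_⟩
  · rw [hPA, nab_nabY h2]
    have h5 : A = C ((p : ℤ_[p]) ^ κ) * B' + nabY p (om p N) (half p) H + C ((p : ℤ_[p]) ^ (2 * T)) * R0 := by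
      rw [← hB', ← hH]
      linear_combination hR0
    rw [h5]
    simp only [add_comp, mul_comp, C_comp]
    rfl
  · unfold IsEv
    apply mul_left_cancel₀ hC
    have := congrArg (fun P => Polynomial.comp P (-X)) hB'
    simp only [mul_comp, C_comp] at this
    rw [← this, ← hB']; exact hev'
  · rw [hB', natDegree_C_mul (pow_ne_zero _ hpne)] at hdeg'
    exact hdeg'
  · intro m hm
    have h3 := hA'm m hm
    rw [hB', coeff_C_mul] at h3
    have h4 : (p : ℤ_[p]) ^ s = (p : ℤ_[p]) ^ κ * (p : ℤ_[p]) ^ (s - κ) := by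
      rw [← pow_add]; congr 1; have := hpar.le; omega
    rw [h4] at h3
    exact (mul_dvd_mul_iff_left (pow_ne_zero _ hpne)).1 h3

end Pool.Agent.Helper93.Sun
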