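import Mathlib
import Pool.Agent.Helper93.Sun16

set_option autoImplicit false

namespace Pool.Agent.Helper93.Sun

open Polynomial Finset

variable {p : ℕ} [hp : Fact p.Prime]

/-- alternating sum -/
noncomputable def Dn (p : ℕ) [Fact p.Prime] (n : ℕ) (P : ℤ_[p][X]) : ℤ_[p] :=
  ∑ m ∈ range (n + 1), (-1) ^ m * (n.choose m : ℤ_[p]) * P.eval (m : ℤ_[p])

lemma Dn_succ (n : ℕ) (a : ℤ_[p]) (P : ℤ_[p][X]) :
    Dn p (n + 1) (P * X + C a) = -((n + 1 : ℕ) : ℤ_[p]) * Dn p n (P.comp (X + 1)) := by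
  have h0 := congrArg (Int.cast : ℤ → ℤ_[p]) (Int.alternating_sum_range_choose_of_ne (n := n + 1) (by omega))
  push_cast at h0
  have h1 : Dn p (n + 1) (P * X + C a) =
      ∑ m ∈ range (n + 2), (-1) ^ m * ((n + 1).choose m : ℤ_[p]) * (P.eval (m : ℤ_[p]) * m) +
        a * ∑ m ∈ range (n + 2), (-1) ^ m * ((n + 1).choose m : ℤ_[p]) := by
    rw [Dn, Finset.mul_sum, ← Finset.sum_add_distrib]
    refine Finset.sum_congr rfl fun m _ => ?_
    rw [eval_add, eval_mul, eval_X, eval_C]; ring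
  rw [h1, h0, mul_zero, add_zero, Finset.sum_range_succ', Dn, Finset.mul_sum]
  simp only [Nat.cast_zero, mul_zero, add_zero]
  refine Finset.sum_congr rfl fun m _ => ?_
  have h2 := congrArg (Nat.cast : ℕ → ℤ_[p]) (Nat.add_one_mul_choose_eq n m)
  rw [eval_comp, eval_add, eval_X, eval_one, pow_succ]
  push_cast at h2 ⊢
  linear_combination (-1 : ℤ_[p]) ^ m * P.eval ((m : ℤ_[p]) + 1) * h2

lemma Dn_dvd (n : ℕ) (P : ℤ_[p][X]) : (n.factorial : ℤ_[p]) ∣ Dn p n P := by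
  induction n generalizing P with
  | zero => simp
  | succ n ih =>
    rw [← divX_mul_X_add P, Dn_succ, Nat.factorial_succ, Nat.cast_mul, neg_mul, dvd_neg]
    exact mul_dvd_mul_left _ (ih _)

lemma coeff_comp_succ_top (P : ℤ_[p][X]) (n : ℕ) (h : P.natDegree ≤ n) :
    (P.comp (X + 1)).coeff n = P.coeff n ∧ (P.comp (X + 1)).natDegree ≤ n := by
  have h1 : (X + 1 : ℤ_[p][X]) = X + C 1 := by simp
  rw [h1]
  constructor
  · rw [coeff_comp_add, Finset.sum_eq_single 0]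
    · simp
    · intro i _ hi
      rw [coeff_eq_zero_of_natDegree_lt (by omega : P.natDegree < i + n)]; ring
    · intro hi; simp at hi
  · refine natDegree_comp_le.trans ?_
    rw [natDegree_X_add_C, mul_one]; exact h

lemma Dn_top (n : ℕ) (P : ℤ_[p][X]) (h : P.natDegree ≤ n) :
    Dn p n P = (-1) ^ n * (n.factorial : ℤ_[p]) * P.coeff n := by
  induction n generalizing P with
  | zero =>
    rw [eq_C_of_natDegree_le_zero h]
    simp [Dn]
  | succ n ih =>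
    conv_lhs => rw [← divX_mul_X_add P]
    have hd : P.divX.natDegree ≤ n := by
      rw [natDegree_divX_eq_natDegree_tsub_one]; omega
    have h1 := coeff_comp_succ_top P.divX n hd
    rw [Dn_succ, ih _ h1.2, h1.1, coeff_divX, Nat.factorial_succ, pow_succ]
    push_cast
    ring

/-- numerator polynomial of the weight -/
noncomputable def Wp (p : ℕ) [Fact p.Prime] (M : ℕ) : ℤ_[p][X] := ∏ i ∈ Ico 1 (M + 1), (X + C (i : ℤ_[p]))

lemma Wp_monic (M : ℕ) : (Wp p M).Monic := monic_prod_of_monic _ _ fun _ _ => monic_X_add_C _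

lemma Wp_deg (M : ℕ) : (Wp p M).natDegree = M := by
  rw [Wp, natDegree_prod_of_monic _ _ fun i _ => monic_X_add_C _]
  simp only [natDegree_X_add_C, Finset.sum_const, Nat.card_Ico, smul_eq_mul, mul_one]
  omega

lemma Wp_eval (M k : ℕ) : (Wp p M).eval (k : ℤ_[p]) = (M.factorial : ℤ_[p]) * (bn M k : ℤ_[p]) := by
  have h := congrArg (Nat.cast : ℕ → ℤ_[p]) (prod_Ico_consec k M)
  rw [Wp, eval_prod]
  have h1 : bn M k = (k + M).choose M := by rw [bn, add_comm]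
  rw [h1]
  push_cast at h
  rw [← h]
  refine Finset.prod_congr rfl fun i _ => ?_
  rw [eval_add, eval_X, eval_C]; ring

/-- exactness functional -/
noncomputable def Es (p : ℕ) [Fact p.Prime] (M n : ℕ) (f : ℕ → ℤ_[p]) : ℤ_[p] :=
  ∑ m ∈ range n, (-1) ^ m * ((n - 1).choose m : ℤ_[p]) * (bn M m : ℤ_[p]) ^ (p + 1) * f m

lemma Es_Dn (M n : ℕ) (hn : 1 ≤ n) (g : ℤ_[p][X]) :
    (M.factorial : ℤ_[p]) ^ (p + 1) * Es p M n (fun m => g.eval (m : ℤ_[p])) =
      Dn p (n - 1) (Wp p M ^ (p + 1) * g) := by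
  rw [Dn, Nat.sub_add_cancel hn, Es, Finset.mul_sum]
  refine Finset.sum_congr rfl fun m _ => ?_
  rw [eval_mul, eval_pow, Wp_eval, mul_pow]
  ring

lemma Es_dvd (M n : ℕ) (hn : 1 ≤ n) (g : ℤ_[p][X]) :
    ((n - 1).factorial : ℤ_[p]) ∣
      (M.factorial : ℤ_[p]) ^ (p + 1) * Es p M n (fun m => g.eval (m : ℤ_[p])) := by
  rw [Es_Dn M n hn]; exact Dn_dvd _ _

lemma Es_top (M n : ℕ) (hn : (p + 1) * M + (p - 1) = n - 1) (hn1 : 1 ≤ n) (hodd : Odd n) (g : ℤ_[p][X])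
    (hg : g.natDegree ≤ p - 1) :
    (M.factorial : ℤ_[p]) ^ (p + 1) * Es p M n (fun m => g.eval (m : ℤ_[p])) =
      ((n - 1).factorial : ℤ_[p]) * g.coeff (p - 1) := by
  rw [Es_Dn M n hn1]
  have hm : (Wp p M ^ (p + 1)).Monic := (Wp_monic M).pow _
  have hd : (Wp p M ^ (p + 1)).natDegree = (p + 1) * M := by
    rw [(Wp_monic M).natDegree_pow, Wp_deg]
  have hdeg : (Wp p M ^ (p + 1) * g).natDegree ≤ n - 1 := by
    refine natDegree_mul_le.trans ?_
    omega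
  rw [Dn_top _ _ hdeg]
  have hev : Even (n - 1) := by
    obtain ⟨t, ht⟩ := hodd; exact ⟨t, by omega⟩
  rw [hev.neg_one_pow, one_mul]
  congr 1
  rw [← hn]
  have h3 := coeff_mul_add_eq_of_natDegree_le (df := (p + 1) * M) (dg := p - 1) (f := Wp p M ^ (p + 1)) (g := g) (by rw [hd]) hg
  rw [h3]
  have h4 : (Wp p M ^ (p + 1)).coeff ((p + 1) * M) = 1 := by
    rw [← hd]; exact hm.coeff_natDegree
  rw [h4, one_mul]

lemma Es_add (M n : ℕ) (f g : ℕ → ℤ_[p]) : Es p M n (fun m => f m + g m) = Es p M n f + Es p M n g := by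
  simp only [Es, mul_add, Finset.sum_add_distrib]

lemma Es_mul (M n : ℕ) (a : ℤ_[p]) (f : ℕ → ℤ_[p]) : Es p M n (fun m => a * f m) = a * Es p M n f := by
  simp only [Es, Finset.mul_sum]
  exact Finset.sum_congr rfl fun m _ => by ring

/-- the functional on exact forms -/
lemma Es_nab (N n : ℕ) (hN : 1 ≤ N) (hn : 1 ≤ n) (h : ℤ_[p][X]) :
    ∃ (Q : ℤ_[p][X]) (z : ℤ_[p]), Es p (N - 1) n (fun m => (nab p N h).eval (m : ℤ_[p])) =
      n * Es p (N - 1) n (fun m => Q.eval (m : ℤ_[p])) + (n : ℤ_[p]) ^ (p + 1) * z := by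
  obtain ⟨M, rfl⟩ : ∃ M, N = M + 1 := ⟨N - 1, by omega⟩
  obtain ⟨n, rfl⟩ : ∃ n', n = n' + 1 := ⟨n - 1, by omega⟩
  simp only [Nat.add_sub_cancel]
  set V : ℕ → ℤ_[p] := fun m => (bn M m : ℤ_[p]) ^ (p + 1) * (m : ℤ_[p]) ^ (p + 1) * h.eval (m : ℤ_[p]) with hV
  have hstep : ∀ m : ℕ, (bn M m : ℤ_[p]) ^ (p + 1) * (nab p (M + 1) h).eval (m : ℤ_[p]) = V (m + 1) - V m := by
    intro m
    have h1 := bn_succ M m
    have h2 : (bn M (m + 1) : ℤ_[p]) * ((m : ℤ_[p]) + 1) =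
        (bn M m : ℤ_[p]) * ((m : ℤ_[p]) + (M + 1)) := by
      have := congrArg (Nat.cast : ℕ → ℤ_[p]) h1
      push_cast at this
      rw [this]; ring
    have h4 := congrArg (fun x => x ^ (p + 1)) h2
    simp only [mul_pow] at h4
    rw [nab, hV]
    simp only [eval_sub, eval_mul, eval_pow, eval_add, eval_X, eval_C, eval_comp, eval_one]
    push_cast
    linear_combination (-(h.eval ((m : ℤ_[p]) + 1))) * h4
  set a : ℕ → ℤ_[p] := fun m => (-1) ^ m * (n.choose m : ℤ_[p]) with ha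
  set A : ℕ → ℤ_[p] := fun m => (-1) ^ m * ((n + 1).choose m : ℤ_[p]) with hA
  have han : a (n + 1) = 0 := by simp [ha]
  have hAa : ∀ m, A (m + 1) = a (m + 1) - a m := by
    intro m
    simp only [hA, ha, Nat.choose_succ_succ, pow_succ]
    push_cast; ring
  -- Abel summation
  have h1 : Es p M (n + 1) (fun m => (nab p (M + 1) h).eval (m : ℤ_[p])) =
      - ∑ m ∈ range (n + 2), A m * V m := by
    have e1 : Es p M (n + 1) (fun m => (nab p (M + 1) h).eval (m : ℤ_[p])) =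
        ∑ m ∈ range (n + 1), (a m * V (m + 1) - a m * V m) := by
      rw [Es]
      refine Finset.sum_congr rfl fun m _ => ?_
      rw [Nat.add_sub_cancel, mul_assoc, hstep m]
      simp only [ha]
      ring
    rw [e1, Finset.sum_range_succ' (fun m => A m * V m) (n + 1), Finset.sum_sub_distrib]
    have e2 : ∑ m ∈ range (n + 1), A (m + 1) * V (m + 1) =
        ∑ m ∈ range (n + 1), a (m + 1) * V (m + 1) - ∑ m ∈ range (n + 1), a m * V (m + 1) := by
      rw [← Finset.sum_sub_distrib]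
      exact Finset.sum_congr rfl fun m _ => by rw [hAa]; ring
    have e3 : ∑ m ∈ range (n + 1), a (m + 1) * V (m + 1) + a 0 * V 0 =
        ∑ m ∈ range (n + 1), a m * V m := by
      rw [← Finset.sum_range_succ' (fun m => a m * V m) (n + 1), Finset.sum_range_succ, han]
      ring
    have e4 : A 0 = a 0 := by simp [hA, ha]
    rw [e2, e4]
    linear_combination e3
  -- splitting off
  have hmul : ∀ m, m ≤ n + 1 → A m * (((n + 1 : ℕ) : ℤ_[p]) - m) = ((n + 1 : ℕ) : ℤ_[p]) * a m := by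
    intro m hm
    have h5 : (n + 1).choose m * (n + 1 - m) = (n + 1) * n.choose m := by
      rw [mul_comm (n + 1)]; exact (Nat.choose_mul_succ_eq n m).symm
    have h6 := congrArg (Nat.cast : ℕ → ℤ_[p]) h5
    rw [Nat.cast_mul, Nat.cast_sub hm] at h6
    simp only [hA, ha]
    rw [Nat.cast_mul] at h6
    linear_combination (-1 : ℤ_[p]) ^ m * h6
  obtain ⟨S, hgeom⟩ : ∃ S : ℤ_[p][X], ∀ m : ℕ, S.eval (m : ℤ_[p]) * ((m : ℤ_[p]) - ((n + 1 : ℕ) : ℤ_[p])) =
      (m : ℤ_[p]) ^ (p + 1) - ((n + 1 : ℕ) : ℤ_[p]) ^ (p + 1) := by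
    refine ⟨∑ i ∈ range (p + 1), X ^ i * C (((n + 1 : ℕ) : ℤ_[p])) ^ (p + 1 - 1 - i), ?_⟩
    intro m
    rw [← geom_sum₂_mul, eval_finsetSum]
    congr 1
    refine Finset.sum_congr rfl fun i _ => ?_
    rw [eval_mul, eval_pow, eval_X, eval_pow, eval_C]
  refine ⟨h * S, -∑ m ∈ range (n + 2), A m * ((bn M m : ℤ_[p]) ^ (p + 1) * h.eval (m : ℤ_[p])), ?_⟩
  rw [h1, mul_neg, ← sub_eq_add_neg, Es, Finset.mul_sum, Finset.mul_sum]
  have e5 : ∑ m ∈ range (n + 1), ((n + 1 : ℕ) : ℤ_[p]) * ((-1) ^ m * ((n + 1 - 1).choose m : ℤ_[p]) *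
      (bn M m : ℤ_[p]) ^ (p + 1) * (h * S).eval (m : ℤ_[p])) =
      ∑ m ∈ range (n + 2), ((n + 1 : ℕ) : ℤ_[p]) * (a m * (bn M m : ℤ_[p]) ^ (p + 1) * (h * S).eval (m : ℤ_[p])) := by
    rw [Finset.sum_range_succ _ (n + 1), han]
    simp only [zero_mul, mul_zero, add_zero, Nat.add_sub_cancel]
    rfl
  rw [e5, ← Finset.sum_sub_distrib, ← Finset.sum_neg_distrib]
  refine Finset.sum_congr rfl fun m hm => ?_
  have h7 := hmul m (by have := mem_range.1 hm; omega)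
  have h8 := hgeom m
  rw [eval_mul, hV]
  simp only
  linear_combination ((bn M m : ℤ_[p]) ^ (p + 1) * h.eval (m : ℤ_[p]) * S.eval (m : ℤ_[p])) * h7 +
    (A m * (bn M m : ℤ_[p]) ^ (p + 1) * h.eval (m : ℤ_[p])) * h8

end Pool.Agent.Helper93.Sun
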