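import Mathlib
import Pool.Agent.Helper93.Sun17

set_option autoImplicit false

namespace Pool.Agent.Helper93.Sun

open Polynomial Finset

variable {p : ℕ} [hp : Fact p.Prime]

/-- is a difference -/
def IsDif (R : ℤ_[p][X]) : Prop := ∃ S : ℤ_[p][X], S.comp (X + 1) - S = R

lemma IsDif.add {P Q : ℤ_[p][X]} (hP : IsDif P) (hQ : IsDif Q) : IsDif (P + Q) := by
  obtain ⟨S, rfl⟩ := hP
  obtain ⟨S', rfl⟩ := hQ
  exact ⟨S + S', by rw [add_comp]; ring⟩

lemma IsDif.C_mul {P : ℤ_[p][X]} (hP : IsDif P) (a : ℤ_[p]) : IsDif (C a * P) := by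
  obtain ⟨S, rfl⟩ := hP
  exact ⟨C a * S, by rw [mul_comp, C_comp]; ring⟩

lemma IsDif.zero : IsDif (0 : ℤ_[p][X]) := ⟨0, by simp⟩

lemma IsDif.sum {ι : Type*} (s : Finset ι) (f : ι → ℤ_[p][X]) (h : ∀ i ∈ s, IsDif (f i)) :
    IsDif (∑ i ∈ s, f i) := by
  classical
  induction s using Finset.induction_on with
  | empty => simpa using IsDif.zero
  | insert a s ha ih =>
    rw [Finset.sum_insert ha]
    exact (h a (Finset.mem_insert_self a s)).add (ih fun i hi => h i (Finset.mem_insert_of_mem hi))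

/-- falling factorial -/
noncomputable def ff (p : ℕ) [Fact p.Prime] (m : ℕ) : ℤ_[p][X] := ∏ i ∈ range m, (X - C (i : ℤ_[p]))

lemma ff_monic (m : ℕ) : (ff p m).Monic := monic_prod_of_monic _ _ fun _ _ => monic_X_sub_C _

lemma ff_deg (m : ℕ) : (ff p m).natDegree = m := by
  rw [ff, natDegree_prod_of_monic _ _ fun i _ => monic_X_sub_C _]
  simp only [natDegree_X_sub_C, Finset.sum_const, card_range, smul_eq_mul, mul_one]

lemma ff_dif (m : ℕ) : (ff p (m + 1)).comp (X + 1) - ff p (m + 1) = C ((m : ℤ_[p]) + 1) * ff p m := by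
  have h1 : (ff p (m + 1)).comp (X + 1) = (X + 1) * ff p m := by
    rw [ff, Polynomial.prod_comp, Finset.prod_range_succ', mul_comm]
    congr 1
    · simp
    · rw [ff]
      refine Finset.prod_congr rfl fun i _ => ?_
      simp only [sub_comp, X_comp, C_comp]
      push_cast
      simp only [map_add, map_one]
      ring
  have h2 : ff p (m + 1) = ff p m * (X - C (m : ℤ_[p])) := by rw [ff, Finset.prod_range_succ, ff]
  rw [h1, h2]
  simp only [map_add, map_one]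
  ring

lemma succ_dvd_pow (m : ℕ) : ((m : ℤ_[p]) + 1) ∣ (p : ℤ_[p]) ^ m := by
  have h1 : ((m + 1 : ℕ) : ℤ_[p]) ∣ ((m + 1).factorial : ℤ_[p]) :=
    Nat.cast_dvd_cast (Nat.dvd_factorial (by omega) le_rfl)
  have h2 := h1.trans (fact_dvd (m + 1) (by omega))
  rw [Nat.add_sub_cancel] at h2
  push_cast at h2
  exact h2

lemma pow_dif (m : ℕ) : IsDif (C ((p : ℤ_[p]) ^ m) * X ^ m : ℤ_[p][X]) := by
  induction m using Nat.strong_induction_on with
  | _ m ih =>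
    obtain ⟨w, hw⟩ := succ_dvd_pow (p := p) m
    have h1 : IsDif (C ((p : ℤ_[p]) ^ m) * ff p m) := by
      refine ⟨C w * ff p (m + 1), ?_⟩
      rw [mul_comp, C_comp, ← mul_sub, ff_dif, hw, map_mul]
      ring
    have h2 : IsDif (C ((p : ℤ_[p]) ^ m) * (X ^ m - ff p m)) := by
      have hdeg : ∀ k, m ≤ k → (X ^ m - ff p m : ℤ_[p][X]).coeff k = 0 := by
        intro k hk
        rw [coeff_sub, coeff_X_pow]
        rcases Nat.eq_or_lt_of_le hk with h | h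
        · subst h
          have := (ff_monic (p := p) m).coeff_natDegree
          rw [ff_deg] at this
          rw [this, if_pos rfl, sub_self]
        · rw [if_neg (by omega), coeff_eq_zero_of_natDegree_lt (by rw [ff_deg]; exact h), sub_zero]
      have h3 : (X ^ m - ff p m : ℤ_[p][X]) = ∑ i ∈ range m, C ((X ^ m - ff p m : ℤ_[p][X]).coeff i) * X ^ i := by
        ext k
        rw [finsetSum_coeff]
        simp only [coeff_C_mul, coeff_X_pow, mul_ite, mul_one, mul_zero]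
        rw [Finset.sum_ite_eq (range m) k (fun i => (X ^ m - ff p m : ℤ_[p][X]).coeff i)]
        split_ifs with h
        · rfl
        · exact hdeg k (by simpa using h)
      rw [h3, Finset.mul_sum]
      apply IsDif.sum
      intro i hi
      have hi' := mem_range.1 hi
      have h4 := (ih i hi').C_mul ((p : ℤ_[p]) ^ (m - i) * (X ^ m - ff p m : ℤ_[p][X]).coeff i)
      have h5 : C ((p : ℤ_[p]) ^ m) * (C ((X ^ m - ff p m : ℤ_[p][X]).coeff i) * X ^ i) =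
          C ((p : ℤ_[p]) ^ (m - i) * (X ^ m - ff p m : ℤ_[p][X]).coeff i) * (C ((p : ℤ_[p]) ^ i) * X ^ i) := by
        rw [← mul_assoc, ← mul_assoc, ← map_mul, ← map_mul]
        congr 2
        have : (p : ℤ_[p]) ^ m = (p : ℤ_[p]) ^ (m - i) * (p : ℤ_[p]) ^ i := by
          rw [← pow_add]; congr 1; omega
        rw [this]; ring
      rw [h5]; exact h4
    have h6 := h1.add h2
    have h7 : C ((p : ℤ_[p]) ^ m) * ff p m + C ((p : ℤ_[p]) ^ m) * (X ^ m - ff p m) =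
      C ((p : ℤ_[p]) ^ m) * X ^ m := by ring
    rwa [h7] at h6

lemma Rs_dif {R : ℤ_[p][X]} (hR : R ∈ Rs (p : ℤ_[p])) : IsDif R := by
  obtain ⟨Q, rfl⟩ := mem_Rs.1 hR
  have : Q.comp (C (p : ℤ_[p]) * X) = ∑ i ∈ range (Q.natDegree + 1), C (Q.coeff i) * (C ((p : ℤ_[p]) ^ i) * X ^ i) := by
    conv_lhs => rw [Q.as_sum_range_C_mul_X_pow]
    rw [Polynomial.sum_comp]
    refine Finset.sum_congr rfl fun i _ => ?_
    rw [mul_comp, C_comp, X_pow_comp, mul_pow, map_pow]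
  rw [this]
  exact IsDif.sum _ _ fun i _ => (pow_dif i).C_mul _

lemma Rs_eval {P : ℤ_[p][X]} (hP : P ∈ Rs (p : ℤ_[p])) (x : ℤ_[p]) : (p : ℤ_[p]) ∣ P.eval x - P.eval 0 := by
  obtain ⟨Q, rfl⟩ := mem_Rs.1 hP
  rw [eval_comp, eval_comp]
  refine dvd_trans ?_ (sub_dvd_eval_sub _ _ _)
  simp

lemma isUnit_of_dvd {x : ℤ_[p]} (h : (p : ℤ_[p]) ∣ x - 1) : IsUnit x := by
  obtain ⟨y, hy⟩ := h
  have h1 : x = p * y + 1 := by rw [← hy]; ring
  rw [h1, PadicInt.isUnit_iff]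
  have h5 : ‖(p : ℤ_[p]) * y‖ < 1 := (PadicInt.norm_lt_one_iff_dvd _).2 (dvd_mul_right _ _)
  have h6 := PadicInt.norm_add_eq_max_of_ne (q := (p : ℤ_[p]) * y) (r := (1 : ℤ_[p])) (by rw [norm_one]; exact h5.ne)
  rw [h6, norm_one, max_eq_right h5.le]

/-- signed binomial coefficients -/
noncomputable def al (p : ℕ) [Fact p.Prime] (n m : ℕ) : ℤ_[p] := (-1) ^ m * ((n - 1).choose m : ℤ_[p])

lemma al_zero (n : ℕ) : al p n 0 = 1 := by simp [al]

lemma al_succ (n m : ℕ) (hn : 1 ≤ n) :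
    ((m : ℤ_[p]) + 1) * al p n (m + 1) = ((m : ℤ_[p]) + 1 - n) * al p n m := by
  have h1 := congrArg (Nat.cast : ℕ → ℤ_[p]) (Nat.choose_succ_right_eq (n - 1) m)
  push_cast at h1
  have h2 : ((n - 1).choose m : ℤ_[p]) * ((n - 1 - m : ℕ) : ℤ_[p]) =
      ((n - 1).choose m : ℤ_[p]) * ((n : ℤ_[p]) - 1 - m) := by
    rcases Nat.lt_or_ge (n - 1) m with h | h
    · rw [Nat.choose_eq_zero_of_lt h]; simp
    · rw [Nat.cast_sub h, Nat.cast_sub hn]; push_cast; ring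
  rw [h2] at h1
  rw [al, al, pow_succ]
  linear_combination (-(-1 : ℤ_[p]) ^ m) * h1

lemma al_block (n m t : ℕ) (hn : 1 ≤ n) :
    al p n (m + t) * ∏ i ∈ range t, ((m : ℤ_[p]) + 1 + i) =
      al p n m * ∏ i ∈ range t, ((m : ℤ_[p]) + 1 + i - n) := by
  induction t with
  | zero => simp
  | succ t ih =>
    rw [Finset.prod_range_succ, Finset.prod_range_succ, ← mul_assoc, ← mul_assoc, ← ih]
    have := al_succ (p := p) n (m + t) hn
    push_cast at this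
    rw [show m + (t + 1) = m + t + 1 by ring]
    linear_combination (∏ i ∈ range t, ((m : ℤ_[p]) + 1 + i)) * this

/-- block polynomial -/
noncomputable def Gb (p : ℕ) [Fact p.Prime] (c : ℕ) : ℤ_[p][X] := rhoD p (p ^ 2) c

lemma Gb_mem (c : ℕ) : Gb p c ∈ Rs (p : ℤ_[p]) := rhoD_mem _ _

lemma Gb_zero (c : ℕ) : (Gb p c).eval 0 = 1 := by
  rw [Gb, rhoD, eval_prod]; exact Finset.prod_eq_one fun i _ => rho_eval_zero i

lemma Gb_unit (c : ℕ) (x : ℤ_[p]) : IsUnit ((Gb p c).eval x) := by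
  apply isUnit_of_dvd
  have := Rs_eval (Gb_mem (p := p) c) x
  rwa [Gb_zero] at this

lemma block_prod (c : ℕ) (hc : c < p ^ 2) (x : ℤ_[p]) :
    ∏ i ∈ range (p ^ 2), ((c : ℤ_[p]) + 1 + i + p ^ 2 * x) =
      (p : ℤ_[p]) ^ 2 * (1 + x) * ((Dp p (p ^ 2) c).eval 0 * (Gb p c).eval x) := by
  have h1 : (∏ i ∈ Ico (c + 1) (c + 1 + p ^ 2), lin p i).eval x =
      ∏ i ∈ range (p ^ 2), ((c : ℤ_[p]) + 1 + i + p ^ 2 * x) := by
    rw [eval_prod, Finset.prod_Ico_eq_prod_range, Nat.add_sub_cancel_left]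
    refine Finset.prod_congr rfl fun i _ => ?_
    simp only [lin, eval_add, eval_mul, eval_C, eval_X]
    push_cast; ring
  rw [← h1, ← Finset.prod_filter_mul_prod_filter_not _ (fun i => p ^ 2 ∣ i)]
  have hp2 : 0 < p ^ 2 := pow_pos hp.out.pos 2
  rw [filter_dvd_Ico (p ^ 2) c (p ^ 2) 1 hp2 hc (by omega) (by omega)]
  have h2 : (Ico 1 (1 + 1)).image (fun j => p ^ 2 * j) = {p ^ 2} := by
    simp
  rw [h2, Finset.prod_singleton, eval_mul]
  have h3 : ∏ i ∈ (Ico (c + 1) (c + 1 + p ^ 2)).filter (fun i => ¬ p ^ 2 ∣ i), lin p i = Dp p (p ^ 2) c := rfl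
  rw [h3]
  conv_lhs => rw [Dp_rho]
  rw [eval_mul, eval_C, ← Gb]
  simp only [lin, eval_add, eval_mul, eval_C, eval_X]
  push_cast; ring

lemma al_rec (n c k : ℕ) (hn : 1 ≤ n) (hc : c < p ^ 2) :
    ((k : ℤ_[p]) + 1) * (Gb p c).eval (k : ℤ_[p]) * al p (p ^ 2 * n) (c + p ^ 2 * (k + 1)) =
      ((k : ℤ_[p]) + 1 - n) * (Gb p c).eval ((k : ℤ_[p]) - n) * al p (p ^ 2 * n) (c + p ^ 2 * k) := by
  have hpne : (p : ℤ_[p]) ≠ 0 := by exact_mod_cast hp.out.ne_zero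
  have h1 := al_block (p := p) (p ^ 2 * n) (c + p ^ 2 * k) (p ^ 2) (Nat.mul_pos (pow_pos hp.out.pos 2) hn)
  have h2 := block_prod (p := p) c hc (k : ℤ_[p])
  have h3 := block_prod (p := p) c hc ((k : ℤ_[p]) - n)
  have e1 : ∏ i ∈ range (p ^ 2), (((c + p ^ 2 * k : ℕ) : ℤ_[p]) + 1 + i) =
      ∏ i ∈ range (p ^ 2), ((c : ℤ_[p]) + 1 + i + p ^ 2 * (k : ℤ_[p])) := by
    refine Finset.prod_congr rfl fun i _ => ?_
    push_cast; ring
  have e2 : ∏ i ∈ range (p ^ 2), (((c + p ^ 2 * k : ℕ) : ℤ_[p]) + 1 + i - ((p ^ 2 * n : ℕ) : ℤ_[p])) =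
      ∏ i ∈ range (p ^ 2), ((c : ℤ_[p]) + 1 + i + p ^ 2 * ((k : ℤ_[p]) - n)) := by
    refine Finset.prod_congr rfl fun i _ => ?_
    push_cast; ring
  rw [e1, e2, h2, h3] at h1
  have hne : (p : ℤ_[p]) ^ 2 * (Dp p (p ^ 2) c).eval 0 ≠ 0 :=
    mul_ne_zero (pow_ne_zero _ hpne) (Dp_eval_zero_ne _ _)
  apply mul_left_cancel₀ hne
  rw [show c + p ^ 2 * (k + 1) = c + p ^ 2 * k + p ^ 2 by ring]
  linear_combination h1

end Pool.Agent.Helper93.Sun
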