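import Mathlib
import Pool.Agent.Helper93.Sun18

set_option autoImplicit false

namespace Pool.Agent.Helper93.Sun

open Polynomial Finset

variable {p : ℕ} [hp : Fact p.Prime]

/-- product of shifted blocks -/
noncomputable def Qb (p : ℕ) [Fact p.Prime] (n c : ℕ) : ℤ_[p][X] :=
  ∏ i ∈ range n, (Gb p c).comp (X - C ((i + 1 : ℕ) : ℤ_[p]))

lemma Rs_trans' {Q : ℤ_[p][X]} (hQ : Q ∈ Rs (p : ℤ_[p])) (a : ℤ_[p]) : Q.comp (X - C a) ∈ Rs (p : ℤ_[p]) := by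
  have := Rs_trans hQ (-a)
  rwa [map_neg, ← sub_eq_add_neg] at this

lemma Gb_sub (n c : ℕ) : ∃ G1 : ℤ_[p][X], G1 ∈ Rs (p : ℤ_[p]) ∧
    Gb p c - (Gb p c).comp (X - C (n : ℤ_[p])) = C ((p : ℤ_[p]) * n) * G1 := by
  obtain ⟨G0, hG0⟩ := mem_Rs.1 (Gb_mem (p := p) c)
  obtain ⟨E, hE⟩ := comp_add_dvd (-((p : ℤ_[p]) * (n : ℤ_[p]))) G0
  refine ⟨E.comp (C (p : ℤ_[p]) * X), mem_Rs.2 ⟨E, rfl⟩, ?_⟩
  have h1 := congrArg (fun P => Polynomial.comp P (C (p : ℤ_[p]) * X)) hE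
  simp only [sub_comp, mul_comp, C_comp, comp_assoc, add_comp, X_comp] at h1
  rw [← hG0, comp_assoc]
  have e1 : (C (p : ℤ_[p]) * X : ℤ_[p][X]).comp (X - C (n : ℤ_[p])) = C (p : ℤ_[p]) * X + C (-((p : ℤ_[p]) * n)) := by
    simp only [mul_comp, C_comp, X_comp, map_neg, map_mul]
    ring
  rw [e1]
  rw [map_neg] at h1 ⊢
  linear_combination (-1 : ℤ_[p][X]) * h1

lemma Qb_dif (n c : ℕ) (hn : 1 ≤ n) : ∃ R : ℤ_[p][X], R ∈ Rs (p : ℤ_[p]) ∧
    (Qb p n c).comp (X + 1) - Qb p n c = C ((p : ℤ_[p]) * n) * R := by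
  obtain ⟨n0, rfl⟩ : ∃ n0, n = n0 + 1 := ⟨n - 1, by omega⟩
  obtain ⟨G1, hG1, hG1e⟩ := Gb_sub (p := p) (n0 + 1) c
  set Mid : ℤ_[p][X] := ∏ i ∈ range n0, (Gb p c).comp (X - C ((i + 1 : ℕ) : ℤ_[p])) with hMid
  have hMidm : Mid ∈ Rs (p : ℤ_[p]) := (Rs _).prod_mem fun i _ => Rs_trans' (Gb_mem c) _
  refine ⟨Mid * G1, (Rs _).mul_mem hMidm hG1, ?_⟩
  have h1 : Qb p (n0 + 1) c = Mid * (Gb p c).comp (X - C ((n0 + 1 : ℕ) : ℤ_[p])) := by
    rw [Qb, Finset.prod_range_succ]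
  have h2 : (Qb p (n0 + 1) c).comp (X + 1) = Mid * Gb p c := by
    rw [Qb, Polynomial.prod_comp, Finset.prod_range_succ']
    congr 1
    · rw [hMid]
      refine Finset.prod_congr rfl fun i _ => ?_
      rw [comp_assoc]
      congr 1
      simp only [sub_comp, X_comp, C_comp]
      push_cast
      simp only [map_add, map_one]
      ring
    · rw [comp_assoc]
      simp
  rw [h2, h1, ← mul_sub, hG1e]
  ring

lemma Qb_rec (n c k : ℕ) :
    (Qb p n c).eval ((k : ℤ_[p]) + 1) * (Gb p c).eval ((k : ℤ_[p]) - n) =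
      (Gb p c).eval (k : ℤ_[p]) * (Qb p n c).eval (k : ℤ_[p]) := by
  have h1 : (Qb p n c).eval ((k : ℤ_[p]) + 1) = ∏ i ∈ range n, (Gb p c).eval ((k : ℤ_[p]) - i) := by
    rw [Qb, eval_prod]
    refine Finset.prod_congr rfl fun i _ => ?_
    rw [eval_comp]; congr 1; simp only [eval_sub, eval_X, eval_C]; push_cast; ring
  have h2 : (Qb p n c).eval (k : ℤ_[p]) = ∏ i ∈ range n, (Gb p c).eval ((k : ℤ_[p]) - ((i + 1 : ℕ) : ℤ_[p])) := by
    rw [Qb, eval_prod]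
    refine Finset.prod_congr rfl fun i _ => ?_
    rw [eval_comp]; congr 1; simp only [eval_sub, eval_X, eval_C]
  rw [h1, h2, ← Finset.prod_range_succ (fun i => (Gb p c).eval ((k : ℤ_[p]) - (i : ℕ))) n,
    Finset.prod_range_succ']
  simp only [Nat.cast_zero, sub_zero]
  ring

lemma al_Qb (n c k : ℕ) (hn : 1 ≤ n) (hc : c < p ^ 2) :
    (Qb p n c).eval (k : ℤ_[p]) * al p (p ^ 2 * n) (c + p ^ 2 * k) =
      (al p (p ^ 2 * n) c * (Qb p n c).eval 0) * al p n k := by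
  induction k with
  | zero => simp [al_zero]; ring
  | succ k ih =>
    have h1 := al_rec (p := p) n c k hn hc
    have h2 := Qb_rec (p := p) n c k
    have h3 := al_succ (p := p) n k hn
    have hk : ((k : ℤ_[p]) + 1) ≠ 0 := by exact_mod_cast Nat.succ_ne_zero k
    have hne : ((k : ℤ_[p]) + 1) * (Gb p c).eval (k : ℤ_[p]) * (Gb p c).eval ((k : ℤ_[p]) - n) ≠ 0 :=
      mul_ne_zero (mul_ne_zero hk (Gb_unit c _).ne_zero) (Gb_unit c _).ne_zero
    apply mul_left_cancel₀ hne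
    push_cast
    set q1 := (Qb p n c).eval ((k : ℤ_[p]) + 1)
    set q0 := (Qb p n c).eval (k : ℤ_[p])
    set g0 := (Gb p c).eval (k : ℤ_[p])
    set g1 := (Gb p c).eval ((k : ℤ_[p]) - n)
    set a1 := al p (p ^ 2 * n) (c + p ^ 2 * (k + 1))
    set a0 := al p (p ^ 2 * n) (c + p ^ 2 * k)
    linear_combination (q1 * g1) * h1 + (((k : ℤ_[p]) + 1 - n) * g1 * a0) * h2 +
      (((k : ℤ_[p]) + 1 - n) * g0 * g1) * ih - (g0 * g1 * al p (p ^ 2 * n) c * (Qb p n c).eval 0) * h3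

lemma exists_ratio1 {i : ℕ} (h : ¬ p ^ 2 ∣ i) : ∃ r : ℤ_[p], (i : ℤ_[p]) * r = p := by
  obtain ⟨r, h1, r', h2⟩ := exists_ratio (p := p) h
  have hpne : (p : ℤ_[p]) ≠ 0 := by exact_mod_cast hp.out.ne_zero
  refine ⟨r', ?_⟩
  apply mul_left_cancel₀ hpne
  rw [h2] at h1
  linear_combination h1

lemma al_small (n c : ℕ) (hn : 1 ≤ n) (hc : c < p ^ 2) : (p : ℤ_[p]) * n ∣ al p (p ^ 2 * n) c - 1 := by
  induction c with
  | zero => rw [al_zero, sub_self]; exact dvd_zero _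
  | succ c ih =>
    have h1 := ih (by omega)
    obtain ⟨r, hr⟩ := exists_ratio1 (p := p) (i := c + 1) (fun h => by
      have := Nat.le_of_dvd (by omega) h; omega)
    have h2 := al_succ (p := p) (p ^ 2 * n) c (Nat.mul_pos (pow_pos hp.out.pos 2) hn)
    have hk : ((c : ℤ_[p]) + 1) ≠ 0 := by exact_mod_cast Nat.succ_ne_zero c
    have h3 : al p (p ^ 2 * n) (c + 1) - al p (p ^ 2 * n) c = (p : ℤ_[p]) * n * (-(r * al p (p ^ 2 * n) c)) := by
      apply mul_left_cancel₀ hk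
      push_cast at h2 hr
      linear_combination h2 + ((p : ℤ_[p]) * n * al p (p ^ 2 * n) c) * hr
    have h4 : al p (p ^ 2 * n) (c + 1) - 1 = (al p (p ^ 2 * n) (c + 1) - al p (p ^ 2 * n) c) +
      (al p (p ^ 2 * n) c - 1) := by ring
    rw [h4]
    refine dvd_add ?_ h1
    rw [h3]; exact dvd_mul_right _ _

/-- values of `Qb` on naturals -/
lemma Qb_val (n c : ℕ) (hn : 1 ≤ n) : ∃ Y : ℤ_[p][X], ∀ k : ℕ,
    (Qb p n c).eval (k : ℤ_[p]) = (Qb p n c).eval 0 * (1 + (p : ℤ_[p]) * n * Y.eval (k : ℤ_[p])) := by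
  obtain ⟨R, hR, hRe⟩ := Qb_dif (p := p) n c hn
  obtain ⟨S, hS⟩ := Rs_dif hR
  have hu : IsUnit ((Qb p n c).eval 0) := by
    rw [Qb, eval_prod, IsUnit.prod_iff]
    intro i _
    rw [eval_comp]; exact Gb_unit c _
  obtain ⟨v, hv⟩ := hu.exists_right_inv
  refine ⟨C v * (S - C (S.eval 0)), fun k => ?_⟩
  have h1 : (Qb p n c).eval (k : ℤ_[p]) = (Qb p n c).eval 0 + (p : ℤ_[p]) * n * (S.eval (k : ℤ_[p]) - S.eval 0) := by
    induction k with
    | zero => simp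
    | succ k ih =>
      have h2 := congrArg (fun P => Polynomial.eval (k : ℤ_[p]) P) hRe
      have h3 := congrArg (fun P => Polynomial.eval (k : ℤ_[p]) P) hS
      simp only [eval_sub, eval_comp, eval_add, eval_X, eval_one, eval_mul, eval_C] at h2 h3
      push_cast
      rw [← h3] at h2
      linear_combination h2 + ih
  rw [h1, eval_mul, eval_C, eval_sub, eval_C]
  linear_combination (-((p : ℤ_[p]) * n * (S.eval (k : ℤ_[p]) - S.eval 0))) * hv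

/-- the comparison of the signed binomial weights at two levels -/
lemma al_compare (n c K : ℕ) (hn : 1 ≤ n) (hc : c < p ^ 2) : ∃ (θ : ℤ_[p][X]) (e : ℕ → ℤ_[p]), ∀ k : ℕ,
    al p (p ^ 2 * n) (c + p ^ 2 * k) =
      al p n k * (1 + (p : ℤ_[p]) * n * θ.eval (k : ℤ_[p])) + (p : ℤ_[p]) ^ K * e k := by
  obtain ⟨Y, hY⟩ := Qb_val (p := p) n c hn
  obtain ⟨ec, hec⟩ := al_small (p := p) n c hn hc
  have hu : IsUnit ((Qb p n c).eval 0) := by
    rw [Qb, eval_prod, IsUnit.prod_iff]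
    intro i _
    rw [eval_comp]; exact Gb_unit c _
  set q : ℤ_[p] := (p : ℤ_[p]) * n with hq
  set W : ℤ_[p][X] := -Y * ∑ i ∈ range K, (-(C q * Y)) ^ i with hW
  have hWe : (1 + C q * Y) * (1 + C q * W) = 1 - (-(C q * Y)) ^ (K + 1) := by
    have h1 := mul_neg_geom_sum (-(C q * Y)) (K + 1)
    rw [geom_sum_succ] at h1
    rw [← h1, hW]
    ring
  refine ⟨C ec + W + C (q * ec) * W, fun k => al p (p ^ 2 * n) (c + p ^ 2 * k) * ((n : ℤ_[p]) ^ K * (-(Y.eval (k : ℤ_[p]))) ^ K * (-(q * Y.eval (k : ℤ_[p])))), fun k => ?_⟩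
  have h2 := al_Qb (p := p) n c k hn hc
  rw [hY k] at h2
  have h3 : (1 + q * Y.eval (k : ℤ_[p])) * al p (p ^ 2 * n) (c + p ^ 2 * k) = al p (p ^ 2 * n) c * al p n k := by
    apply mul_left_cancel₀ hu.ne_zero
    linear_combination h2
  have h4 := congrArg (fun P => Polynomial.eval (k : ℤ_[p]) P) hWe
  simp only [eval_mul, eval_add, eval_one, eval_C, eval_sub, eval_pow, eval_neg] at h4
  have h5 : (-(q * Y.eval (k : ℤ_[p]))) ^ (K + 1) =
      (p : ℤ_[p]) ^ K * ((n : ℤ_[p]) ^ K * (-(Y.eval (k : ℤ_[p]))) ^ K * (-(q * Y.eval (k : ℤ_[p])))) := by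
    rw [pow_succ, ← mul_assoc, ← mul_assoc, ← mul_pow, ← mul_pow, hq]
    congr 2
    ring
  rw [h5] at h4
  simp only [eval_add, eval_mul, eval_C]
  have h6 : al p (p ^ 2 * n) c = 1 + q * ec := by linear_combination hec
  rw [h6] at h3
  set y := Y.eval (k : ℤ_[p])
  set w := W.eval (k : ℤ_[p])
  set a' := al p (p ^ 2 * n) (c + p ^ 2 * k)
  linear_combination (1 + q * w) * h3 - a' * h4

end Pool.Agent.Helper93.Sun
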