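import Mathlib
import Pool.Agent.Helper93.Sun19

set_option autoImplicit false

namespace Pool.Agent.Helper93.Sun

open Polynomial Finset

variable {p : ℕ} [hp : Fact p.Prime] {N : ℕ}

/-- digit factor -/
noncomputable def Fd (p : ℕ) [Fact p.Prime] (N : ℕ) (g : ℤ_[p][X]) (c : ℕ) : ℤ_[p][X] :=
  if c < p then PhiL p N c ^ (p + 1) * g.comp (sub2 p c)
  else C ((p : ℤ_[p]) ^ (p + 1)) * ((X + C (N : ℤ_[p])) ^ (p + 1) * (PhiH p N c ^ (p + 1) * g.comp (sub2 p c)))

lemma Fd_sum (g : ℤ_[p][X]) : ∑ c ∈ range (p ^ 2), Fd p N g c =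
    Um p N g + C ((p : ℤ_[p]) ^ (p + 1)) * ((X + C (N : ℤ_[p])) ^ (p + 1) * Cg p N g) := by
  have hpp : p ≤ p ^ 2 := by nlinarith [p_two_le (p := p)]
  rw [← Finset.sum_range_add_sum_Ico _ hpp]
  congr 1
  · rw [Um]
    refine Finset.sum_congr rfl fun c hc => ?_
    rw [Fd, if_pos (mem_range.1 hc)]
  · rw [Cg, Finset.mul_sum, Finset.mul_sum]
    refine Finset.sum_congr rfl fun c hc => ?_
    have := (mem_Ico.1 hc).1
    rw [Fd, if_neg (by omega)]

lemma Fd_val (hN : 1 ≤ N) (hpN : ¬ p ∣ N) (g : ℤ_[p][X]) (c k : ℕ) (hc : c < p ^ 2) :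
    (bn (mm p N) (c + p ^ 2 * k) : ℤ_[p]) ^ (p + 1) * g.eval ((c + p ^ 2 * k : ℕ) : ℤ_[p]) =
      (bn (N - 1) k : ℤ_[p]) ^ (p + 1) * (Fd p N g c).eval (k : ℤ_[p]) := by
  rw [Fd]
  split_ifs with h
  · rw [PhiL_val hN c h k, eval_mul, eval_pow, eval_comp, sub2_eval]
    ring
  · rw [(PhiH_spec (p := p) hN hpN c (by omega) hc).2.2 k]
    simp only [eval_mul, eval_C, eval_pow, eval_add, eval_X, eval_comp, sub2_eval]
    simp only [mul_pow]
    ring

/-- recursion for the functional -/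
lemma Es_rec (hN : 1 ≤ N) (hpN : ¬ p ∣ N) (n K : ℕ) (hn : 1 ≤ n) (g : ℤ_[p][X]) :
    ∃ (Θ : ℤ_[p][X]) (z : ℤ_[p]), Es p (mm p N) (p ^ 2 * n) (fun m => g.eval (m : ℤ_[p])) =
      Es p (N - 1) n (fun m => (Um p N g + C ((p : ℤ_[p]) ^ (p + 1)) *
        ((X + C (N : ℤ_[p])) ^ (p + 1) * Cg p N g)).eval (m : ℤ_[p])) +
      (p : ℤ_[p]) * n * Es p (N - 1) n (fun m => Θ.eval (m : ℤ_[p])) + (p : ℤ_[p]) ^ K * z := by
  have hc : ∀ c : ℕ, ∃ (θ : ℤ_[p][X]) (e : ℕ → ℤ_[p]), c < p ^ 2 → ∀ k : ℕ,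
      al p (p ^ 2 * n) (c + p ^ 2 * k) =
        al p n k * (1 + (p : ℤ_[p]) * n * θ.eval (k : ℤ_[p])) + (p : ℤ_[p]) ^ K * e k := by
    intro c
    by_cases h : c < p ^ 2
    · obtain ⟨θ, e, he⟩ := al_compare (p := p) n c K hn h
      exact ⟨θ, e, fun _ => he⟩
    · exact ⟨0, fun _ => 0, fun h' => absurd h' h⟩
  choose θ e he using hc
  refine ⟨∑ c ∈ range (p ^ 2), θ c * Fd p N g c,
    ∑ k ∈ range n, ∑ c ∈ range (p ^ 2), e c k * ((bn (N - 1) k : ℤ_[p]) ^ (p + 1) * (Fd p N g c).eval (k : ℤ_[p])), ?_⟩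
  rw [← Fd_sum]
  rw [Es, sum_range_mul', Es, Es, Finset.mul_sum, Finset.mul_sum, ← Finset.sum_add_distrib,
    ← Finset.sum_add_distrib]
  refine Finset.sum_congr rfl fun k _ => ?_
  rw [eval_finsetSum, eval_finsetSum, Finset.mul_sum, Finset.mul_sum, Finset.mul_sum, Finset.mul_sum,
    ← Finset.sum_add_distrib, ← Finset.sum_add_distrib]
  refine Finset.sum_congr rfl fun c hc => ?_
  have hc' := mem_range.1 hc
  have h1 := he c hc' k
  have h2 := Fd_val hN hpN g c k hc'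
  rw [al, al] at h1
  rw [mul_assoc, h2, h1, eval_mul]
  ring

/-- the sequence of levels -/
def Ns (p : ℕ) : ℕ → ℕ
  | 0 => 1
  | T + 1 => mm p (Ns p T) + 1

lemma Ns_pos (T : ℕ) : 1 ≤ Ns p T := by
  cases T with
  | zero => exact le_rfl
  | succ T => rw [Ns]; omega

lemma Ns_eq (T : ℕ) : (p + 1) * Ns p T = p ^ (2 * T + 1) + 1 := by
  induction T with
  | zero => simp [Ns]
  | succ T ih =>
    have h1 := mm_add (p := p) (Ns_pos (p := p) T)
    rw [Ns]
    have h2 : mm p (Ns p T) * (p + 1) + p * (p + 1) = p ^ 2 * (p ^ (2 * T + 1) + 1) := by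
      rw [← ih, ← add_mul, h1]; ring
    have h3 : p ^ (2 * (T + 1) + 1) = p ^ 2 * p ^ (2 * T + 1) := by rw [← pow_add]; congr 1; ring
    rw [h3]
    nlinarith [h2]

lemma Ns_ndvd (T : ℕ) : ¬ p ∣ Ns p T := by
  intro h
  have h1 : p ∣ (p + 1) * Ns p T := Dvd.dvd.mul_left h _
  rw [Ns_eq] at h1
  have h2 : p ∣ 1 := (Nat.dvd_add_right (dvd_pow_self p (by omega))).1 h1
  have := p_two_le (p := p)
  have := Nat.le_of_dvd (by norm_num) h2
  omega

lemma val_aux (k : ℕ) (hk : 1 ≤ k) :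
    padicValNat p (p * k - 1).factorial = padicValNat p (k - 1).factorial + (k - 1) := by
  have hp2 := p_two_le (p := p)
  obtain ⟨j, rfl⟩ : ∃ j, k = j + 1 := ⟨k - 1, by omega⟩
  have h1 : p * (j + 1) - 1 = p * j + (p - 1) := by
    have : p * (j + 1) = p * j + p := by ring
    omega
  rw [h1, padicValNat_factorial_mul_add j (by omega), padicValNat_factorial_mul, Nat.add_sub_cancel]

lemma arith_aux (p N n v T : ℕ) (hp : 2 ≤ p) (hN : 1 ≤ N) (hn : 1 ≤ n) (h : (p + 1) * N = n + 1) :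
    (p + 1) * v + (p - 1) * T + (n - 1) + (p * n - 1) =
      (p + 1) * (v + (N - 1) + (p * N - 1)) + (p - 1) * (T + 1) := by
  have h1 : 1 ≤ p * n := Nat.mul_pos (by omega) hn
  have h2 : 1 ≤ p * N := Nat.mul_pos (by omega) hN
  zify [h1, h2, hN, hn, (show 1 ≤ p by omega)] at *
  linear_combination (-(p : ℤ) - 1) * h

lemma Ns_val (T : ℕ) : padicValNat p (p ^ (2 * T + 1) - 1).factorial =
    (p + 1) * padicValNat p (Ns p T - 1).factorial + (p - 1) * T := by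
  have hp2 := p_two_le (p := p)
  induction T with
  | zero =>
    simp only [Ns, mul_zero, zero_add, pow_one, Nat.sub_self, Nat.factorial_zero, add_zero]
    have h1 := val_aux (p := p) 1 le_rfl
    simp only [mul_one, Nat.sub_self, Nat.factorial_zero, add_zero] at h1
    rw [h1]
    simp
  | succ T ih =>
    set n := p ^ (2 * T + 1) with hn
    have hn1 : 1 ≤ n := Nat.one_le_pow _ _ (by omega)
    have hN := Ns_pos (p := p) T
    have hNn := Ns_eq (p := p) T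
    rw [← hn] at hNn
    have h3 : p ^ (2 * (T + 1) + 1) = p * (p * n) := by rw [hn]; ring
    have hpn : 1 ≤ p * n := Nat.mul_pos (by omega) hn1
    have hpN : 1 ≤ p * Ns p T := Nat.mul_pos (by omega) hN
    rw [h3, val_aux (p * n) hpn, val_aux n hn1]
    have h4 : Ns p (T + 1) - 1 = p * (p * Ns p T - 1) := by rw [Ns, mm]; rfl
    rw [h4, padicValNat_factorial_mul, val_aux (Ns p T) hN, ih]
    exact arith_aux p (Ns p T) n _ T hp2 hN hn1 hNn

/-- the two facts on the functional at level `T` -/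
lemma Es_level (h2 : p ≠ 2) (T : ℕ) :
    (∀ g : ℤ_[p][X], (p : ℤ_[p]) ^ ((p - 1) * T) ∣
      Es p (Ns p T - 1) (p ^ (2 * T + 1)) (fun m => g.eval (m : ℤ_[p]))) ∧
    ∃ w : ℤ_[p], IsUnit w ∧ ∀ g : ℤ_[p][X], g.natDegree ≤ p - 1 →
      Es p (Ns p T - 1) (p ^ (2 * T + 1)) (fun m => g.eval (m : ℤ_[p])) =
        w * (p : ℤ_[p]) ^ ((p - 1) * T) * g.coeff (p - 1) := by
  have hpne : (p : ℤ_[p]) ≠ 0 := by exact_mod_cast hp.out.ne_zero
  have hp2 := p_two_le (p := p)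
  set n := p ^ (2 * T + 1) with hn
  have hn1 : 1 ≤ n := Nat.one_le_pow _ _ (by omega)
  have hN := Ns_pos (p := p) T
  have hval := Ns_val (p := p) T
  rw [← hn] at hval
  -- factorials as power times unit
  have hfac : ∀ k : ℕ, ∃ u : ℤ_[p], IsUnit u ∧ (k.factorial : ℤ_[p]) = (p : ℤ_[p]) ^ (padicValNat p k.factorial) * u := by
    intro k
    have h1 : p ^ padicValNat p k.factorial * (k.factorial / p ^ padicValNat p k.factorial) = k.factorial :=
      Nat.mul_div_cancel' pow_padicValNat_dvd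
    have h3 : ¬ p ∣ (k.factorial / p ^ padicValNat p k.factorial) := by
      intro h
      have h3 : p ^ (padicValNat p k.factorial + 1) ∣ k.factorial := by
        rw [pow_succ]
        conv_rhs => rw [← h1]
        exact Nat.mul_dvd_mul_left _ h
      exact pow_succ_padicValNat_not_dvd (Nat.factorial_ne_zero k) h3
    refine ⟨_, natCast_isUnit h3, ?_⟩
    conv_lhs => rw [← h1]
    push_cast; ring
  obtain ⟨u1, hu1, he1⟩ := hfac (n - 1)
  obtain ⟨u2, hu2, he2⟩ := hfac (Ns p T - 1)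
  have hF : ((Ns p T - 1).factorial : ℤ_[p]) ^ (p + 1) =
      (p : ℤ_[p]) ^ ((p + 1) * padicValNat p (Ns p T - 1).factorial) * u2 ^ (p + 1) := by
    rw [he2, mul_pow, ← pow_mul, mul_comm (p + 1)]
  have hA : ((n - 1).factorial : ℤ_[p]) =
      (p : ℤ_[p]) ^ ((p + 1) * padicValNat p (Ns p T - 1).factorial) * ((p : ℤ_[p]) ^ ((p - 1) * T) * u1) := by
    rw [he1, hval, pow_add]; ring
  have hpow : (p : ℤ_[p]) ^ ((p + 1) * padicValNat p (Ns p T - 1).factorial) ≠ 0 := pow_ne_zero _ hpne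
  have hu2' := hu2.pow (p + 1)
  obtain ⟨v, hv⟩ := hu2'.exists_right_inv
  constructor
  · intro g
    have h3 := Es_dvd (p := p) (Ns p T - 1) n hn1 g
    rw [hF, hA, mul_assoc, mul_dvd_mul_iff_left hpow] at h3
    have h4 := (dvd_mul_right _ _).trans h3
    rwa [hu2'.dvd_mul_left] at h4
  · refine ⟨v * u1, ?_, ?_⟩
    · refine IsUnit.mul ?_ hu1
      exact IsUnit.of_mul_eq_one (u2 ^ (p + 1)) (by rw [mul_comm]; exact hv)
    · intro g hg
      have hNn := Ns_eq (p := p) T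
      rw [← hn] at hNn
      have hodd : Odd n := (hp.out.odd_of_ne_two h2).pow
      have h3 := Es_top (p := p) (Ns p T - 1) n (by
        obtain ⟨N', hN'⟩ : ∃ N', Ns p T = N' + 1 := ⟨Ns p T - 1, by omega⟩
        rw [hN'] at hNn ⊢
        simp only [Nat.add_sub_cancel]
        have : (p + 1) * (N' + 1) = (p + 1) * N' + p + 1 := by ring
        omega) hn1 hodd g hg
      rw [hF, hA, mul_assoc, mul_assoc] at h3
      have h4 := mul_left_cancel₀ hpow h3
      have h5 : v * (u2 ^ (p + 1) * Es p (Ns p T - 1) n (fun m => g.eval (m : ℤ_[p]))) =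
        v * ((p : ℤ_[p]) ^ ((p - 1) * T) * u1 * g.coeff (p - 1)) := by rw [h4]
      linear_combination h5 - (Es p (Ns p T - 1) n (fun m => g.eval (m : ℤ_[p]))) * hv

end Pool.Agent.Helper93.Sun
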