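import Mathlib
import Pool.Agent.Helper93.Sun20

set_option autoImplicit false

namespace Pool.Agent.Helper93.Sun

open Polynomial Finset

variable {p : ℕ} [hp : Fact p.Prime]

lemma Lam.mono {κ s T T' : ℕ} (h : T' ≤ T) {B : ℤ_[p][X]} (hB : Lam p κ s T B) : Lam p κ s T' B :=
  ⟨hB.1, hB.2.1, hB.2.2.1, (pow_dvd_pow _ h).trans hB.2.2.2⟩

lemma coeff_comp_top (P : ℤ_[p][X]) (a : ℤ_[p]) (n : ℕ) (h : P.natDegree ≤ n) :
    (P.comp (X + C a)).coeff n = P.coeff n ∧ (P.comp (X + C a)).natDegree ≤ n := by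
  constructor
  · rw [coeff_comp_add, Finset.sum_eq_single 0]
    · simp
    · intro i _ hi
      rw [coeff_eq_zero_of_natDegree_lt (by omega : P.natDegree < i + n)]; ring
    · intro hi; simp at hi
  · refine natDegree_comp_le.trans ?_
    rw [natDegree_X_add_C, mul_one]; exact h

/-- one step of the induction -/
lemma step {κ s T : ℕ} (hpar : Par p κ s) (hT : 5 ≤ T) (B : ℤ_[p][X]) (hB : Lam p κ s (T + 1) B) :
    ∃ B' H R : ℤ_[p][X], Up p (Ns p T) (B.comp (X + C (om p (Ns p (T + 1))))) =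
        C ((p : ℤ_[p]) ^ κ) * B'.comp (X + C (om p (Ns p T))) + nab p (Ns p T) H +
          C ((p : ℤ_[p]) ^ (2 * T)) * R ∧ Lam p κ s T B' := by
  have h2 := hpar.ne_two
  have hpne : (p : ℤ_[p]) ≠ 0 := by exact_mod_cast hp.out.ne_zero
  have hp2 := p_two_le (p := p)
  have hN := Ns_pos (p := p) T
  obtain ⟨B', H, R, hUp, hev, hdeg, hco⟩ := pre_step hpar (by omega : 1 ≤ T) hN (Ns_ndvd T) (Ns_eq T) B
    (hB.mono (by omega))
  refine ⟨B', H, R, hUp, hev, hdeg, hco, ?_⟩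
  set N := Ns p T with hNdef
  set n := p ^ (2 * T + 1) with hn
  have hn1 : 1 ≤ n := Nat.one_le_pow _ _ (by omega)
  set g := B.comp (X + C (om p (mm p N + 1))) with hg
  -- functional at the upper level
  obtain ⟨_, w', hw', htop'⟩ := Es_level (p := p) h2 (T + 1)
  obtain ⟨hint, w, hw, htop⟩ := Es_level (p := p) h2 T
  rw [← hNdef, ← hn] at hint htop
  have hgt := coeff_comp_top B (om p (mm p N + 1)) (p - 1) hB.2.1
  have hup := htop' g hgt.2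
  have e1 : Ns p (T + 1) - 1 = mm p N := by rw [Ns]; rfl
  have e2 : p ^ (2 * (T + 1) + 1) = p ^ 2 * n := by rw [hn, ← pow_add]; congr 1; ring
  rw [e1, e2, hgt.1] at hup
  set e := (p - 1) * T + T + κ with he
  have hA : (p : ℤ_[p]) ^ e ∣ Es p (mm p N) (p ^ 2 * n) (fun m => g.eval (m : ℤ_[p])) := by
    rw [hup]
    obtain ⟨b, hb⟩ := hB.2.2.2
    rw [hb]
    refine (pow_dvd_pow _ (?_ : e ≤ (p - 1) * (T + 1) + (T + 1))).trans ⟨w' * b, ?_⟩
    · have := hpar.p_le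
      have h3 : (p - 1) * (T + 1) = (p - 1) * T + (p - 1) := by ring
      omega
    · rw [pow_add]; ring
  obtain ⟨Θ, z, hrec⟩ := Es_rec (p := p) hN (Ns_ndvd T) n e hn1 g
  have hsplit : Um p N g + C ((p : ℤ_[p]) ^ (p + 1)) * ((X + C (N : ℤ_[p])) ^ (p + 1) * Cg p N g) =
      C ((p : ℤ_[p]) ^ κ) * B'.comp (X + C (om p N)) + nab p N H + nab p N (hU p N g) + C ((p : ℤ_[p]) ^ (2 * T)) * R := by
    rw [high_split h2 g]
    have : Up p N g = Um p N g + UE p N g := rfl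
    linear_combination hUp - this
  rw [hsplit] at hrec
  have hlin : Es p (N - 1) n (fun m => (C ((p : ℤ_[p]) ^ κ) * B'.comp (X + C (om p N)) + nab p N H +
      nab p N (hU p N g) + C ((p : ℤ_[p]) ^ (2 * T)) * R).eval (m : ℤ_[p])) =
      (p : ℤ_[p]) ^ κ * Es p (N - 1) n (fun m => (B'.comp (X + C (om p N))).eval (m : ℤ_[p])) +
      Es p (N - 1) n (fun m => (nab p N H).eval (m : ℤ_[p])) +
      Es p (N - 1) n (fun m => (nab p N (hU p N g)).eval (m : ℤ_[p])) +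
      (p : ℤ_[p]) ^ (2 * T) * Es p (N - 1) n (fun m => R.eval (m : ℤ_[p])) := by
    simp only [eval_add, eval_mul, eval_C]
    rw [Es_add, Es_add, Es_add, Es_mul, Es_mul]
  rw [hlin] at hrec
  have hBt := coeff_comp_top B' (om p N) (p - 1) hdeg
  rw [htop _ hBt.2, hBt.1] at hrec
  obtain ⟨Q1, z1, hQ1⟩ := Es_nab (p := p) N n hN hn1 H
  obtain ⟨Q2, z2, hQ2⟩ := Es_nab (p := p) N n hN hn1 (hU p N g)
  rw [hQ1, hQ2] at hrec
  have hncast : (n : ℤ_[p]) = (p : ℤ_[p]) ^ (2 * T + 1) := by rw [hn]; push_cast; rfl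
  have hk5 := hpar.kle
  -- divisibility of the error terms
  have d1 : ∀ Q : ℤ_[p][X], (p : ℤ_[p]) ^ e ∣ (n : ℤ_[p]) * Es p (N - 1) n (fun m => Q.eval (m : ℤ_[p])) := by
    intro Q
    rw [hncast]
    refine (pow_dvd_pow _ (?_ : e ≤ (2 * T + 1) + (p - 1) * T)).trans ?_
    · omega
    · rw [pow_add]; exact mul_dvd_mul_left _ (hint Q)
  have d2 : ∀ z : ℤ_[p], (p : ℤ_[p]) ^ e ∣ (n : ℤ_[p]) ^ (p + 1) * z := by
    intro z
    rw [hncast, ← pow_mul]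
    refine Dvd.dvd.mul_right (pow_dvd_pow _ ?_) _
    obtain ⟨q, hq⟩ : ∃ q, p = q + 1 := ⟨p - 1, by omega⟩
    have h4 : p - 1 = q := by omega
    rw [he, h4, hq]
    nlinarith
  have d3 : (p : ℤ_[p]) ^ e ∣ (p : ℤ_[p]) ^ (2 * T) * Es p (N - 1) n (fun m => R.eval (m : ℤ_[p])) := by
    refine (pow_dvd_pow _ (?_ : e ≤ (2 * T) + (p - 1) * T)).trans ?_
    · omega
    · rw [pow_add]; exact mul_dvd_mul_left _ (hint R)
  have d4 : (p : ℤ_[p]) ^ e ∣ (p : ℤ_[p]) * n * Es p (N - 1) n (fun m => Θ.eval (m : ℤ_[p])) := by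
    rw [mul_assoc]; exact Dvd.dvd.mul_left (d1 Θ) _
  have hmain : (p : ℤ_[p]) ^ e ∣ (p : ℤ_[p]) ^ κ * (w * (p : ℤ_[p]) ^ ((p - 1) * T) * B'.coeff (p - 1)) := by
    have h5 : (p : ℤ_[p]) ^ κ * (w * (p : ℤ_[p]) ^ ((p - 1) * T) * B'.coeff (p - 1)) =
        Es p (mm p N) (p ^ 2 * n) (fun m => g.eval (m : ℤ_[p])) -
        ((n : ℤ_[p]) * Es p (N - 1) n (fun m => Q1.eval (m : ℤ_[p])) + (n : ℤ_[p]) ^ (p + 1) * z1) -
        ((n : ℤ_[p]) * Es p (N - 1) n (fun m => Q2.eval (m : ℤ_[p])) + (n : ℤ_[p]) ^ (p + 1) * z2) -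
        (p : ℤ_[p]) ^ (2 * T) * Es p (N - 1) n (fun m => R.eval (m : ℤ_[p])) -
        (p : ℤ_[p]) * n * Es p (N - 1) n (fun m => Θ.eval (m : ℤ_[p])) - (p : ℤ_[p]) ^ e * z := by
      rw [hrec]; ring
    rw [h5]
    exact dvd_sub (dvd_sub (dvd_sub (dvd_sub (dvd_sub hA (dvd_add (d1 Q1) (d2 z1)))
      (dvd_add (d1 Q2) (d2 z2))) d3) d4) (dvd_mul_right _ _)
  have h6 : (p : ℤ_[p]) ^ e = (p : ℤ_[p]) ^ (κ + (p - 1) * T) * (p : ℤ_[p]) ^ T := by
    rw [← pow_add]; congr 1; omega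
  have h7 : (p : ℤ_[p]) ^ κ * (w * (p : ℤ_[p]) ^ ((p - 1) * T) * B'.coeff (p - 1)) =
      (p : ℤ_[p]) ^ (κ + (p - 1) * T) * (w * B'.coeff (p - 1)) := by
    rw [pow_add]; ring
  rw [h6, h7, mul_dvd_mul_iff_left (pow_ne_zero _ hpne), hw.dvd_mul_left] at hmain
  exact hmain

lemma Kc.eval {κ s : ℕ} (hks : κ ≤ s) {P : ℤ_[p][X]} (h : Kc p κ s P) (x : ℤ_[p]) :
    (p : ℤ_[p]) ^ κ ∣ P.eval x := by
  rw [eval_eq_sum_range]
  apply Finset.dvd_sum
  intro i _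
  apply Dvd.dvd.mul_right
  rcases Nat.eq_zero_or_pos i with h0 | h0
  · subst h0; exact h.1
  · exact (pow_dvd_pow _ (hks.trans (le_max_left _ _))).trans (h.2 i h0)

/-- the base case -/
lemma base_case {κ s T : ℕ} (hpar : Par p κ s) (hT : 5 ≤ T) (B : ℤ_[p][X]) (hB : Lam p κ s (T + 1) B)
    (m : ℕ) : (p : ℤ_[p]) ^ κ ∣ Ls p (Ns p (T + 1) - 1) (p * m) (B.comp (X + C (om p (Ns p (T + 1))))) := by
  have hN := Ns_pos (p := p) T
  have hp2 := p_two_le (p := p)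
  have hNT' : ((p : ℤ_[p]) + 1) * (Ns p T : ℤ_[p]) = p ^ (2 * T + 1) + 1 := by
    exact_mod_cast congrArg (Nat.cast : ℕ → ℤ_[p]) (Ns_eq (p := p) T)
  have hd : ((p : ℤ_[p]) + 1) * (Ns p T : ℤ_[p]) = p ^ 3 * (p : ℤ_[p]) ^ (2 * T - 2) + 1 := by
    rw [hNT', ← pow_add]; congr 2; omega
  have hUm := Um_class hpar hN hd B (hB.mono (by omega))
  have e1 : Ns p (T + 1) - 1 = mm p (Ns p T) := by rw [Ns]; rfl
  have e3 : Ns p (T + 1) = mm p (Ns p T) + 1 := rfl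
  rw [e1, e3]
  set N := Ns p T with hNdef
  set g := B.comp (X + C (om p (mm p N + 1))) with hg
  rw [Ls, sum_range_mul']
  apply Finset.dvd_sum
  intro k _
  obtain ⟨d, k2, hd2, rfl⟩ : ∃ d k2, d < p ∧ k = d + p * k2 :=
    ⟨k % p, k / p, Nat.mod_lt _ hp.out.pos, (Nat.mod_add_div k p).symm⟩
  rcases Nat.eq_zero_or_pos d with h0 | h0
  · subst h0
    have h1 : ∑ c ∈ range p, (bn (mm p N) (c + p * (0 + p * k2)) : ℤ_[p]) ^ (p + 1) *
        g.eval ((c + p * (0 + p * k2) : ℕ) : ℤ_[p]) =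
        (bn (N - 1) k2 : ℤ_[p]) ^ (p + 1) * (Um p N g).eval (k2 : ℤ_[p]) := by
      rw [Um, eval_finsetSum, Finset.mul_sum]
      refine Finset.sum_congr rfl fun c hc => ?_
      have hc' := mem_range.1 hc
      have h3 : c + p * (0 + p * k2) = c + p ^ 2 * k2 := by ring
      rw [h3, Fd_val hN (Ns_ndvd T) g c k2 (by nlinarith), Fd, if_pos hc']
    rw [h1]
    exact Dvd.dvd.mul_left (hUm.eval hpar.le _) _
  · apply Finset.dvd_sum
    intro c hc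
    have hc' := mem_range.1 hc
    have h3 : c + p * (d + p * k2) = (c + p * d) + p ^ 2 * k2 := by ring
    have h4 : p ≤ c + p * d := by nlinarith
    have h5 : c + p * d < p ^ 2 := by
      have : p * d + p ≤ p * p := by
        have := Nat.mul_le_mul_left p (show d + 1 ≤ p by omega)
        nlinarith
      nlinarith
    apply Dvd.dvd.mul_right
    rw [h3, (PhiH_spec (p := p) hN (Ns_ndvd T) (c + p * d) h4 h5).2.2 k2]
    have h6 : ((p : ℤ_[p]) * ((N : ℤ_[p]) + k2) * (PhiH p N (c + p * d)).eval (k2 : ℤ_[p]) * (bn (N - 1) k2 : ℤ_[p])) ^ (p + 1) =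
      (p : ℤ_[p]) ^ (p + 1) * (((N : ℤ_[p]) + k2) * (PhiH p N (c + p * d)).eval (k2 : ℤ_[p]) * (bn (N - 1) k2 : ℤ_[p])) ^ (p + 1) := by
      rw [← mul_pow]; congr 1; ring
    rw [h6]
    exact Dvd.dvd.mul_right (pow_dvd_pow _ (by have := hpar.p_le; omega)) _

lemma n_bn_dvd (T n : ℕ) (h : p ∣ n) : (p : ℤ_[p]) ^ 2 ∣ (n : ℤ_[p]) * (bn (Ns p (T + 1) - 1) n : ℤ_[p]) := by
  have hp2 := p_two_le (p := p)
  have e1 : Ns p (T + 1) - 1 = mm p (Ns p T) := by rw [Ns]; rfl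
  rw [e1]
  rcases Nat.eq_zero_or_pos (n % p ^ 2) with h0 | h0
  · apply Dvd.dvd.mul_right
    have := Nat.cast_dvd_cast (α := ℤ_[p]) (Nat.dvd_of_mod_eq_zero h0)
    exact_mod_cast this
  · have h3 : p ∣ n % p ^ 2 := (Nat.dvd_mod_iff (dvd_pow_self p two_ne_zero)).2 h
    have h4 : p ≤ n % p ^ 2 := Nat.le_of_dvd h0 h3
    have h5 : n % p ^ 2 < p ^ 2 := Nat.mod_lt _ (by positivity)
    have h6 := (PhiH_spec (p := p) (Ns_pos (p := p) T) (Ns_ndvd T) (n % p ^ 2) h4 h5).2.2 (n / p ^ 2)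
    rw [Nat.mod_add_div] at h6
    rw [h6, pow_two]
    apply mul_dvd_mul
    · exact Nat.cast_dvd_cast h
    · rw [mul_assoc, mul_assoc]; exact dvd_mul_right _ _

/-- the main induction -/
lemma main_ind {κ s : ℕ} (hpar : Par p κ s) (a : ℕ) : ∀ T, 5 * a + 10 ≤ T → ∀ B : ℤ_[p][X], Lam p κ s T B →
    ∀ m : ℕ, (p : ℤ_[p]) ^ (κ * (a + 1)) ∣
      Ls p (Ns p T - 1) (p ^ (2 * a + 1) * m) (B.comp (X + C (om p (Ns p T)))) := by
  have hp2 := p_two_le (p := p)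
  have h2 := hpar.ne_two
  induction a with
  | zero =>
    intro T hT B hB m
    obtain ⟨T, rfl⟩ : ∃ T', T = T' + 1 := ⟨T - 1, by omega⟩
    simpa using base_case hpar (by omega) B hB m
  | succ a ih =>
    intro T hT B hB m
    obtain ⟨T, rfl⟩ : ∃ T', T = T' + 1 := ⟨T - 1, by omega⟩
    obtain ⟨B', H, R, hUp, hB'⟩ := step hpar (by omega) B hB
    have hN := Ns_pos (p := p) T
    set n := p ^ (2 * a + 1) * m with hn
    have e1 : Ns p (T + 1) - 1 = mm p (Ns p T) := by rw [Ns]; rfl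
    have e2 : p ^ (2 * (a + 1) + 1) * m = p ^ 2 * n := by rw [hn]; ring
    rw [e1, e2, Ls_step h2 hN (Ns_ndvd T), hUp, Ls_add, Ls_add, Ls_C_mul, Ls_C_mul, Ls_nab hN]
    have h3 := ih T (by omega) B' hB' m
    rw [← hn] at h3
    have d1 : (p : ℤ_[p]) ^ (κ * (a + 1 + 1)) ∣
        (p : ℤ_[p]) ^ κ * Ls p (Ns p T - 1) n (B'.comp (X + C (om p (Ns p T)))) := by
      have : κ * (a + 1 + 1) = κ + κ * (a + 1) := by ring
      rw [this, pow_add]; exact mul_dvd_mul_left _ h3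
    have hpl := hpar.p_le
    have hkl := hpar.kle
    have d2 : ∀ x : ℤ_[p], (p : ℤ_[p]) ^ (κ * (a + 1 + 1)) ∣
        (n : ℤ_[p]) ^ (p + 1) * (bn (Ns p T - 1) n : ℤ_[p]) ^ (p + 1) * x := by
      intro x
      apply Dvd.dvd.mul_right
      rcases Nat.eq_zero_or_pos a with h0 | h0
      · subst h0
        rw [← mul_pow]
        obtain ⟨T', rfl⟩ : ∃ T', T = T' + 1 := ⟨T - 1, by omega⟩
        have h5 := pow_dvd_pow_of_dvd (n_bn_dvd (p := p) T' n (by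
          rw [hn]; exact Dvd.dvd.mul_right (dvd_pow_self _ (by omega)) _)) (p + 1)
        rw [← pow_mul] at h5
        exact (pow_dvd_pow _ (by omega)).trans h5
      · apply Dvd.dvd.mul_right
        have h5 : (p : ℤ_[p]) ^ (2 * a + 1) ∣ (n : ℤ_[p]) := by
          rw [hn]; push_cast; exact dvd_mul_right _ _
        have h6 := pow_dvd_pow_of_dvd h5 (p + 1)
        rw [← pow_mul] at h6
        refine (pow_dvd_pow _ ?_).trans h6
        have h7 : (2 * a + 1) * (κ + 1) ≤ (2 * a + 1) * (p + 1) := Nat.mul_le_mul_left _ (by omega)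
        refine le_trans ?_ h7
        nlinarith
    have d3 : (p : ℤ_[p]) ^ (κ * (a + 1 + 1)) ∣ (p : ℤ_[p]) ^ (2 * T) * Ls p (Ns p T - 1) n R := by
      apply Dvd.dvd.mul_right
      apply pow_dvd_pow
      nlinarith
    exact dvd_add (dvd_add (dvd_add d1 (d2 _)) d3) (d2 _)

end Pool.Agent.Helper93.Sun
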