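import Mathlib
import Pool.Agent.Helper93.Sun21

set_option autoImplicit false

namespace Pool.Agent.Helper93.Sun

open Polynomial Finset

/-- the sum `S_p(n)` -/
def Sq (p n : ℕ) : ℚ :=
  ∑ k ∈ range n, ((∏ i ∈ range k, (-1 / ((p : ℚ) + 1) - i)) / (k.factorial : ℚ)) ^ (p + 1)

variable {p : ℕ} [hp : Fact p.Prime]

lemma prod_neg (N k : ℕ) (hN : 1 ≤ N) :
    ∏ i ∈ range k, (-(N : ℤ_[p]) - i) = (-1) ^ k * (k.factorial : ℤ_[p]) * (bn (N - 1) k : ℤ_[p]) := by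
  induction k with
  | zero => simp [bn_zero]
  | succ k ih =>
    have h1 := congrArg (Nat.cast : ℕ → ℤ_[p]) (bn_succ (N - 1) k)
    rw [show N - 1 + k + 1 = N + k by omega] at h1
    push_cast at h1
    rw [Finset.prod_range_succ, ih, Nat.factorial_succ, pow_succ]
    push_cast
    linear_combination (-1 : ℤ_[p]) ^ k * (k.factorial : ℤ_[p]) * h1

/-- cleared polynomial -/
noncomputable def DP (p : ℕ) [Fact p.Prime] (n : ℕ) : ℤ_[p][X] :=
  ∑ k ∈ range n, (C ((n.factorial / k.factorial : ℕ) : ℤ_[p]) * ∏ i ∈ range k, (X - C (i : ℤ_[p]))) ^ (p + 1)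

lemma DP_eval (n : ℕ) (y : ℤ_[p]) : (DP p n).eval y =
    ∑ k ∈ range n, (((n.factorial / k.factorial : ℕ) : ℤ_[p]) * ∏ i ∈ range k, (y - i)) ^ (p + 1) := by
  rw [DP, eval_finsetSum]
  refine Finset.sum_congr rfl fun k _ => ?_
  rw [eval_pow, eval_mul, eval_C, eval_prod]
  simp only [eval_sub, eval_X, eval_C]

lemma DP_neg (n N : ℕ) (hN : 1 ≤ N) : (DP p n).eval (-(N : ℤ_[p])) =
    (n.factorial : ℤ_[p]) ^ (p + 1) * ∑ k ∈ range n, ((-1) ^ k * (bn (N - 1) k : ℤ_[p])) ^ (p + 1) := by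
  rw [DP_eval, Finset.mul_sum]
  refine Finset.sum_congr rfl fun k hk => ?_
  have hk' := mem_range.1 hk
  rw [prod_neg N k hN, ← mul_pow]
  congr 1
  have h1 : n.factorial / k.factorial * k.factorial = n.factorial :=
    Nat.div_mul_cancel (Nat.factorial_dvd_factorial hk'.le)
  have h2 := congrArg (Nat.cast : ℕ → ℤ_[p]) h1
  rw [Nat.cast_mul] at h2
  linear_combination ((-1) ^ k * (bn (N - 1) k : ℤ_[p])) * h2

lemma lim_aux (E n : ℕ) (H : ∃ T0, ∀ T, T0 ≤ T → (p : ℤ_[p]) ^ E ∣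
      ∑ k ∈ range n, ((-1) ^ k * (bn (Ns p T - 1) k : ℤ_[p])) ^ (p + 1)) :
    Sq p n = 0 ∨ (E : ℤ) ≤ padicValRat p (Sq p n) := by
  rcases Nat.eq_zero_or_pos n with hn0 | hn0
  · subst hn0; left; simp [Sq]
  obtain ⟨T0, hT0⟩ := H
  have hp2 := p_two_le (p := p)
  have hnd : ¬ p ∣ (p + 1) := by
    intro h
    have := (Nat.dvd_add_right (dvd_refl p)).1 h
    have := Nat.le_of_dvd (by norm_num) this
    omega
  obtain ⟨v, hv⟩ := (natCast_isUnit hnd).exists_right_inv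
  set u : ℤ_[p] := -v with hu
  have hu1 : ((p : ℤ_[p]) + 1) * u = -1 := by
    rw [hu]; push_cast at hv; linear_combination (-1 : ℤ_[p]) * hv
  set T := T0 + E + (n - 1) * (p + 1) with hT
  have hN := Ns_pos (p := p) T
  have hNT' : ((p : ℤ_[p]) + 1) * (Ns p T : ℤ_[p]) = p ^ (2 * T + 1) + 1 := by
    exact_mod_cast congrArg (Nat.cast : ℕ → ℤ_[p]) (Ns_eq (p := p) T)
  have h1 : (p : ℤ_[p]) ^ (2 * T + 1) ∣ u - (-(Ns p T : ℤ_[p])) := by
    refine ⟨v, ?_⟩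
    push_cast at hv
    linear_combination v * hNT' - (u + (Ns p T : ℤ_[p])) * hv + v * hu1
  have h2 := h1.trans (sub_dvd_eval_sub _ _ (DP p n))
  rw [DP_neg n (Ns p T) hN] at h2
  have h3 : (p : ℤ_[p]) ^ E * (n.factorial : ℤ_[p]) ^ (p + 1) ∣ (p : ℤ_[p]) ^ (2 * T + 1) := by
    have h4 := pow_dvd_pow_of_dvd (fact_dvd (p := p) n hn0) (p + 1)
    rw [← pow_mul] at h4
    have h5 := mul_dvd_mul_left ((p : ℤ_[p]) ^ E) h4
    rw [← pow_add] at h5
    exact h5.trans (pow_dvd_pow _ (by omega))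
  have h4 : (p : ℤ_[p]) ^ E * (n.factorial : ℤ_[p]) ^ (p + 1) ∣
      (n.factorial : ℤ_[p]) ^ (p + 1) * ∑ k ∈ range n, ((-1) ^ k * (bn (Ns p T - 1) k : ℤ_[p])) ^ (p + 1) := by
    rw [mul_comm]
    exact mul_dvd_mul_left _ (hT0 T (by omega))
  have h5 : (p : ℤ_[p]) ^ E * (n.factorial : ℤ_[p]) ^ (p + 1) ∣ (DP p n).eval u := by
    have := dvd_add (h3.trans h2) h4
    rwa [sub_add_cancel] at this
  obtain ⟨z, hz⟩ := h5
  -- pass to `ℚ_p`
  have hfne : ((n.factorial : ℕ) : ℚ_[p]) ≠ 0 := by exact_mod_cast Nat.factorial_ne_zero n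
  have hp1ne : ((p : ℚ_[p]) + 1) ≠ 0 := by exact_mod_cast Nat.succ_ne_zero p
  set φ : ℤ_[p] →+* ℚ_[p] := PadicInt.Coe.ringHom with hφ
  have huq : φ u = -1 / ((p : ℚ_[p]) + 1) := by
    have := congrArg φ hu1
    rw [map_mul, map_add, map_natCast, map_one, map_neg φ (1 : ℤ_[p]), map_one] at this
    rw [eq_div_iff hp1ne]
    linear_combination this
  have hSq : ((Sq p n : ℚ) : ℚ_[p]) = ∑ k ∈ range n,
      ((∏ i ∈ range k, (-1 / ((p : ℚ_[p]) + 1) - i)) / (k.factorial : ℚ_[p])) ^ (p + 1) := by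
    rw [Sq]
    simp only [Rat.cast_sum, Rat.cast_pow, Rat.cast_div, Rat.cast_prod, Rat.cast_sub, Rat.cast_neg,
      Rat.cast_one, Rat.cast_add, Rat.cast_natCast]
  have hcast : φ ((DP p n).eval u) = (n.factorial : ℚ_[p]) ^ (p + 1) * ((Sq p n : ℚ) : ℚ_[p]) := by
    rw [DP_eval, hSq, map_sum, Finset.mul_sum]
    refine Finset.sum_congr rfl fun k hk => ?_
    have hk' := mem_range.1 hk
    rw [← mul_pow, map_pow, map_mul, map_prod, map_natCast]
    congr 1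
    have hkne : ((k.factorial : ℕ) : ℚ_[p]) ≠ 0 := by exact_mod_cast Nat.factorial_ne_zero k
    rw [Nat.cast_div (Nat.factorial_dvd_factorial hk'.le) hkne]
    have h6 : ∏ i ∈ range k, φ (u - (i : ℤ_[p])) = ∏ i ∈ range k, (-1 / ((p : ℚ_[p]) + 1) - i) := by
      refine Finset.prod_congr rfl fun i _ => ?_
      rw [map_sub, huq, map_natCast]
    rw [h6]
    ring
  have hS : ((Sq p n : ℚ) : ℚ_[p]) = (p : ℚ_[p]) ^ E * φ z := by
    have h7 := congrArg φ hz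
    rw [hcast, map_mul, map_mul, map_pow, map_pow, map_natCast, map_natCast] at h7
    have h8 : (n.factorial : ℚ_[p]) ^ (p + 1) ≠ 0 := pow_ne_zero _ hfne
    apply mul_left_cancel₀ h8
    rw [h7]; ring
  by_cases hS0 : Sq p n = 0
  · exact Or.inl hS0
  · right
    have h9 : ‖((Sq p n : ℚ) : ℚ_[p])‖ ≤ (p : ℝ) ^ (-(E : ℤ)) := by
      rw [hS, norm_mul, Padic.norm_p_pow]
      have hz1 : ‖φ z‖ ≤ 1 := z.2
      have hpos : (0 : ℝ) ≤ (p : ℝ) ^ (-(E : ℤ)) := by positivity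
      calc (p : ℝ) ^ (-(E : ℤ)) * ‖φ z‖ ≤ (p : ℝ) ^ (-(E : ℤ)) * 1 :=
            mul_le_mul_of_nonneg_left hz1 hpos
        _ = _ := mul_one _
    rw [Padic.eq_padicNorm, padicNorm.eq_zpow_of_nonzero hS0] at h9
    push_cast at h9
    have h10 := (zpow_le_zpow_iff_right₀ (by exact_mod_cast hp.out.one_lt : (1 : ℝ) < p)).1 h9
    omega

/-- the statement for odd primes -/
lemma odd_case {κ s : ℕ} (hpar : Par p κ s) (n : ℕ) :
    Sq p n = 0 ∨ ((κ * ((padicValNat p n + 1) / 2) : ℕ) : ℤ) ≤ padicValRat p (Sq p n) := by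
  apply lim_aux
  have h2 := hpar.ne_two
  have hev := p_succ_even h2
  have hp2 := p_two_le (p := p)
  have hsum : ∀ T, ∑ k ∈ range n, ((-1) ^ k * (bn (Ns p T - 1) k : ℤ_[p])) ^ (p + 1) =
      Ls p (Ns p T - 1) n ((1 : ℤ_[p][X]).comp (X + C (om p (Ns p T)))) := by
    intro T
    rw [Ls]
    refine Finset.sum_congr rfl fun k _ => ?_
    rw [one_comp, eval_one, mul_one, mul_pow, ← pow_mul, mul_comm k, pow_mul, hev.neg_one_pow, one_pow, one_mul]
  rcases Nat.eq_zero_or_pos ((padicValNat p n + 1) / 2) with h0 | h0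
  · exact ⟨0, fun T _ => by rw [h0]; simp⟩
  · obtain ⟨a, ha⟩ : ∃ a, (padicValNat p n + 1) / 2 = a + 1 := ⟨(padicValNat p n + 1) / 2 - 1, by omega⟩
    have hdvd : p ^ (2 * a + 1) ∣ n := (pow_dvd_pow p (by omega)).trans pow_padicValNat_dvd
    obtain ⟨m, hm⟩ := hdvd
    refine ⟨5 * a + 10, fun T hT => ?_⟩
    rw [hsum, ha]
    have hLam : Lam p κ s T 1 := by
      refine ⟨by simp [IsEv], by simp, ?_, ?_⟩
      · intro m hm
        rw [coeff_one, if_neg (by omega)]; exact dvd_zero _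
      · rw [coeff_one, if_neg (by omega)]; exact dvd_zero _
    have := main_ind hpar a T hT 1 hLam m
    rwa [← hm] at this

end Pool.Agent.Helper93.Sun
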