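import Mathlib
import Pool.Agent.Helper93.Sun22

set_option autoImplicit false

namespace Pool.Agent.Helper93.Sun

open Polynomial Finset

lemma Rs_eval_sub {p : ℕ} [Fact p.Prime] {a : ℤ_[p]} {P : ℤ_[p][X]} (hP : P ∈ Rs a) (x y : ℤ_[p]) :
    a * (x - y) ∣ P.eval x - P.eval y := by
  obtain ⟨Q, rfl⟩ := mem_Rs.1 hP
  rw [eval_comp, eval_comp]
  refine dvd_trans ?_ (sub_dvd_eval_sub _ _ _)
  simp only [eval_mul, eval_C, eval_X]
  rw [mul_sub]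

lemma odd_iv (j : ℕ) : ((2 * j + 1 : ℕ) : ℤ_[2]) * iv 2 (2 * j + 1) = 1 :=
  iv_mul (by omega)

/-- congruence class of functions -/
def Cg2 (d : ℤ_[2]) (f : ℕ → ℤ_[2]) : Prop := ∀ k j : ℕ, d * (j : ℤ_[2]) ∣ f (k + 4 * j) - f k

lemma Cg2.add {d : ℤ_[2]} {f g : ℕ → ℤ_[2]} (hf : Cg2 d f) (hg : Cg2 d g) : Cg2 d (fun k => f k + g k) := by
  intro k j
  have := dvd_add (hf k j) (hg k j)
  convert this using 1; ring

lemma Cg2.mul {d : ℤ_[2]} {f g : ℕ → ℤ_[2]} (hf : Cg2 d f) (hg : Cg2 d g) : Cg2 d (fun k => f k * g k) := by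
  intro k j
  have := dvd_add (Dvd.dvd.mul_right (hf k j) (g (k + 4 * j))) (Dvd.dvd.mul_left (hg k j) (f k))
  convert this using 1; ring

lemma Cg2.pow3 {d : ℤ_[2]} {f : ℕ → ℤ_[2]} (hf : Cg2 d f) : Cg2 d (fun k => f k ^ 3) := by
  intro k j
  have := Dvd.dvd.mul_left (hf k j) (f (k + 4 * j) ^ 2 + f (k + 4 * j) * f k + f k ^ 2)
  convert this using 1; ring

lemma Cg2.neg {d : ℤ_[2]} {f : ℕ → ℤ_[2]} (hf : Cg2 d f) : Cg2 d (fun k => -f k) := by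
  intro k j
  have := (dvd_neg.2 (hf k j))
  convert this using 1; ring

lemma Cg2.mono {d e : ℤ_[2]} {f : ℕ → ℤ_[2]} (h : d ∣ e) (hf : Cg2 e f) : Cg2 d f := fun k j =>
  (mul_dvd_mul_right h _).trans (hf k j)

lemma Cg2.smul {d e : ℤ_[2]} {f : ℕ → ℤ_[2]} (hf : Cg2 d f) : Cg2 (e * d) (fun k => e * f k) := by
  intro k j
  have := mul_dvd_mul_left e (hf k j)
  convert this using 1 <;> ring

/-- linear functions with step `b` -/
lemma Cg2.lin (a b : ℤ_[2]) : Cg2 (4 * b) (fun k => a + b * k) := by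
  intro k j
  refine ⟨1, ?_⟩
  push_cast; ring

lemma Cg2_iv {a b : ℕ} (ha : a = 1 ∨ a = 3) (hb : b = 2 ∨ b = 4) :
    Cg2 (4 * b) (fun k => iv 2 (a + b * k)) := by
  intro k j
  have h1 : ∀ x : ℕ, ((a + b * x : ℕ) : ℤ_[2]) * iv 2 (a + b * x) = 1 := by
    intro x
    apply iv_mul
    rcases ha with rfl | rfl <;> rcases hb with rfl | rfl <;> omega
  have e1 := h1 k
  have e2 := h1 (k + 4 * j)
  refine ⟨-(iv 2 (a + b * k) * iv 2 (a + b * (k + 4 * j))), ?_⟩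
  push_cast at e1 e2 ⊢
  linear_combination (iv 2 (a + b * k)) * e2 - (iv 2 (a + b * (k + 4 * j))) * e1

/-- the function class for `p = 2` -/
def Lam2 (g : ℕ → ℤ_[2]) : Prop := (∀ k, (2 : ℤ_[2]) ∣ g k - g 0) ∧ Cg2 8 g

/-- weight -/
noncomputable def W2 (N k : ℕ) : ℤ_[2] := (-1) ^ k * (bn (N - 1) k : ℤ_[2]) ^ 3

noncomputable def L2 (N n : ℕ) (g : ℕ → ℤ_[2]) : ℤ_[2] := ∑ k ∈ range n, W2 N k * g k

lemma L2_mul (N n : ℕ) (a : ℤ_[2]) (g : ℕ → ℤ_[2]) : L2 N n (fun k => a * g k) = a * L2 N n g := by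
  simp only [L2, Finset.mul_sum]
  exact Finset.sum_congr rfl fun k _ => by ring

section
variable {N : ℕ} (hN : 1 ≤ N) (hodd : ¬ 2 ∣ N)
include hN

lemma mm2 : (mm 2 N : ℤ_[2]) = 4 * N - 2 := by
  have h1 := congrArg (Nat.cast : ℕ → ℤ_[2]) (mm_add (p := 2) hN)
  push_cast at h1
  linear_combination h1

lemma bn2 (m : ℕ) : (bn (mm 2 N) (m + 1) : ℤ_[2]) * (m + 1) = (bn (mm 2 N) m : ℤ_[2]) * (4 * N - 1 + m) := by
  have h1 := congrArg (Nat.cast : ℕ → ℤ_[2]) (bn_succ (mm 2 N) m)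
  push_cast at h1
  rw [mm2 hN] at h1
  linear_combination h1

lemma P0_val (k : ℕ) : (bn (mm 2 N) (4 * k) : ℤ_[2]) = (PhiL 2 N 0).eval (k : ℤ_[2]) * (bn (N - 1) k : ℤ_[2]) := by
  have := PhiL_val (p := 2) hN 0 (by norm_num) k
  rw [← this]; norm_num

lemma bn_pos (M k : ℕ) : 0 < bn M k := Nat.choose_pos (by omega)

lemma P0_rec (k : ℕ) : (PhiL 2 N 0).eval ((k : ℤ_[2]) + 1) * ((4 * k + 1) * (2 * k + 1) * (4 * k + 3)) =
    (PhiL 2 N 0).eval (k : ℤ_[2]) * ((4 * N - 1 + 4 * k) * (4 * N + 1 + 4 * k) * (2 * N + 1 + 2 * k)) := by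
  have h0 := P0_val hN k
  have h0' := P0_val hN (k + 1)
  have h1 := bn2 hN (4 * k)
  have h2 := bn2 hN (4 * k + 1)
  have h3 := bn2 hN (4 * k + 2)
  have h4 := bn2 hN (4 * k + 3)
  have h5 := congrArg (Nat.cast : ℕ → ℤ_[2]) (bn_succ (N - 1) k)
  rw [show N - 1 + k + 1 = N + k by omega] at h5
  have e : 4 * (k + 1) = 4 * k + 3 + 1 := by ring
  rw [e] at h0'
  push_cast at h0' h1 h2 h3 h4 h5
  have hb : (bn (N - 1) k : ℤ_[2]) ≠ 0 := by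
    have := bn_pos hN (N - 1) k
    exact_mod_cast this.ne'
  have hk : ((k : ℤ_[2]) + 1) ≠ 0 := by exact_mod_cast Nat.succ_ne_zero k
  have hNk : ((N : ℤ_[2]) + k) ≠ 0 := by
    have : N + k ≠ 0 := by omega
    exact_mod_cast this
  have h8 : (8 : ℤ_[2]) ≠ 0 := by norm_num
  set b0 := (bn (mm 2 N) (4 * k) : ℤ_[2])
  set b1 := (bn (mm 2 N) (4 * k + 1) : ℤ_[2])
  set b2 := (bn (mm 2 N) (4 * k + 2) : ℤ_[2])
  set b3 := (bn (mm 2 N) (4 * k + 3) : ℤ_[2])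
  set b4 := (bn (mm 2 N) (4 * k + 3 + 1) : ℤ_[2])
  set c0 := (bn (N - 1) k : ℤ_[2])
  set c1 := (bn (N - 1) (k + 1) : ℤ_[2])
  set P := (PhiL 2 N 0).eval (k : ℤ_[2])
  set P' := (PhiL 2 N 0).eval ((k : ℤ_[2]) + 1)
  apply mul_left_cancel₀ (mul_ne_zero (mul_ne_zero h8 hNk) hb)
  have key : b4 * ((4 * (k : ℤ_[2]) + 1) * (4 * k + 2) * (4 * k + 3) * (4 * k + 4)) =
      b0 * ((4 * N - 1 + 4 * k) * (4 * N + 4 * k) * (4 * N + 1 + 4 * k) * (4 * N + 2 + 4 * k)) := by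
    linear_combination (4 * (k : ℤ_[2]) + 1) * (4 * k + 2) * (4 * k + 3) * h4 +
      (4 * (k : ℤ_[2]) + 1) * (4 * k + 2) * (4 * N + 2 + 4 * k) * h3 +
      (4 * (k : ℤ_[2]) + 1) * (4 * N + 1 + 4 * k) * (4 * N + 2 + 4 * k) * h2 +
      (4 * N + 4 * k) * (4 * N + 1 + 4 * k) * (4 * N + 2 + 4 * k) * h1
  rw [h0, h0'] at key
  linear_combination key - P' * ((4 * (k : ℤ_[2]) + 1) * (4 * k + 2) * (4 * k + 3) * 4) * h5

include hodd in
lemma P0_mod (k : ℕ) : (4 : ℤ_[2]) ∣ (PhiL 2 N 0).eval (k : ℤ_[2]) - (-1) ^ k := by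
  induction k with
  | zero =>
    have := P0_val hN 0
    simp only [mul_zero, bn_zero, Nat.cast_one, mul_one] at this
    rw [← this]; simp
  | succ k ih =>
    have h1 := P0_rec hN k
    obtain ⟨y, hy⟩ := ih
    obtain ⟨M, hM⟩ : ∃ M, N = 2 * M + 1 := ⟨N / 2, by omega⟩
    have i1 := odd_iv (2 * k)
    have i2 := odd_iv k
    have i3 := odd_iv (2 * k + 1)
    have hMc : (N : ℤ_[2]) = 2 * M + 1 := by rw [hM]; push_cast; ring
    -- unit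
    have hu : IsUnit ((4 * (k : ℤ_[2]) + 1) * (2 * k + 1) * (4 * k + 3)) := by
      refine IsUnit.mul (IsUnit.mul ?_ ?_) ?_
      · have := natCast_isUnit (p := 2) (i := 4 * k + 1) (by omega)
        exact_mod_cast this
      · have := natCast_isUnit (p := 2) (i := 2 * k + 1) (by omega)
        exact_mod_cast this
      · have := natCast_isUnit (p := 2) (i := 4 * k + 3) (by omega)
        exact_mod_cast this
    rw [← hu.dvd_mul_left]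
    have hP : (PhiL 2 N 0).eval (k : ℤ_[2]) = (-1) ^ k + 4 * y := by linear_combination hy
    push_cast
    rw [hP, hMc] at h1
    have h2 : (4 * (k : ℤ_[2]) + 1) * (2 * k + 1) * (4 * k + 3) * ((PhiL 2 N 0).eval ((k : ℤ_[2]) + 1) - (-1) ^ (k + 1)) =
      ((-1) ^ k + 4 * y) * ((4 * (2 * M + 1) - 1 + 4 * k) * (4 * (2 * M + 1) + 1 + 4 * k) * (2 * (2 * M + 1) + 1 + 2 * k)) +
        (4 * (k : ℤ_[2]) + 1) * (2 * k + 1) * (4 * k + 3) * (-1) ^ k := by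
      rw [pow_succ]; linear_combination h1
    rw [h2]
    refine ⟨(-1) ^ k * ((4 * M + 3 + 2 * k) * (4 * (2 * M + k) * (2 * M + 1 + k) + (2 * M + k) + 3 * (2 * M + 1 + k)) +
      4 * (2 * k + 1) * (k ^ 2 + k) + 3 * (M + 1 + k)) +
      y * ((4 * (2 * M + 1) - 1 + 4 * k) * (4 * (2 * M + 1) + 1 + 4 * k) * (2 * (2 * M + 1) + 1 + 2 * k)), ?_⟩
    ring

/-- pieces of the transfer operator -/
noncomputable def f2 (N k : ℕ) : ℤ_[2] := -((4 * N - 1 + 4 * k) * iv 2 (1 + 4 * k)) ^ 3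
noncomputable def s2 (N k : ℕ) : ℤ_[2] := -((4 * N + 1 + 4 * k) * iv 2 (3 + 4 * k)) ^ 3
noncomputable def x2 (N k : ℕ) : ℤ_[2] :=
  ((N + k) * iv 2 (1 + 2 * k) * ((4 * N - 1 + 4 * k) * iv 2 (1 + 4 * k))) ^ 3
noncomputable def I2 (N : ℕ) (g : ℕ → ℤ_[2]) (k : ℕ) : ℤ_[2] :=
  (g (4 * k) + f2 N k * g (4 * k + 1)) + 8 * (x2 N k * (g (4 * k + 2) + s2 N k * g (4 * k + 3)))
noncomputable def F2 (N k : ℕ) : ℤ_[2] := ((-1) ^ k * (PhiL 2 N 0).eval (k : ℤ_[2])) ^ 3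

lemma block2 (g : ℕ → ℤ_[2]) (k : ℕ) :
    W2 (mm 2 N + 1) (4 * k) * g (4 * k) + W2 (mm 2 N + 1) (4 * k + 1) * g (4 * k + 1) +
      W2 (mm 2 N + 1) (4 * k + 2) * g (4 * k + 2) + W2 (mm 2 N + 1) (4 * k + 3) * g (4 * k + 3) =
      W2 N k * (F2 N k * I2 N g k) := by
  have h0 := P0_val hN k
  have h1 := bn2 hN (4 * k)
  have h2 := bn2 hN (4 * k + 1)
  have h3 := bn2 hN (4 * k + 2)
  have i1 : ((1 + 4 * k : ℕ) : ℤ_[2]) * iv 2 (1 + 4 * k) = 1 := iv_mul (by omega)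
  have i2 : ((1 + 2 * k : ℕ) : ℤ_[2]) * iv 2 (1 + 2 * k) = 1 := iv_mul (by omega)
  have i3 : ((3 + 4 * k : ℕ) : ℤ_[2]) * iv 2 (3 + 4 * k) = 1 := iv_mul (by omega)
  push_cast at h0 h1 h2 h3 i1 i2 i3
  simp only [W2, Nat.add_sub_cancel]
  have p0 : (-1 : ℤ_[2]) ^ (4 * k) = 1 := by rw [pow_mul]; norm_num
  have p1 : (-1 : ℤ_[2]) ^ (4 * k + 1) = -1 := by rw [pow_succ, p0]; norm_num
  have p2 : (-1 : ℤ_[2]) ^ (4 * k + 2) = 1 := by rw [pow_succ, p1]; norm_num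
  have p3 : (-1 : ℤ_[2]) ^ (4 * k + 3) = -1 := by rw [pow_succ, p2]; norm_num
  have pk : (-1 : ℤ_[2]) ^ k * (-1 : ℤ_[2]) ^ k = 1 := by rw [← mul_pow]; norm_num
  rw [p0, p1, p2, p3]
  set b0 := (bn (mm 2 N) (4 * k) : ℤ_[2])
  set b1 := (bn (mm 2 N) (4 * k + 1) : ℤ_[2])
  set b2 := (bn (mm 2 N) (4 * k + 2) : ℤ_[2])
  set b3 := (bn (mm 2 N) (4 * k + 3) : ℤ_[2])
  set u1 := iv 2 (1 + 4 * k)
  set u2 := iv 2 (1 + 2 * k)
  set u3 := iv 2 (3 + 4 * k)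
  have c1 : b1 = b0 * ((4 * N - 1 + 4 * k) * u1) := by
    linear_combination u1 * h1 - b1 * i1
  have c2 : b2 = b1 * (2 * ((N + k) * u2)) := by
    have h8 : (2 : ℤ_[2]) ≠ 0 := by norm_num
    apply mul_left_cancel₀ h8
    linear_combination u2 * h2 - 2 * b2 * i2
  have c3 : b3 = b2 * ((4 * N + 1 + 4 * k) * u3) := by
    linear_combination u3 * h3 - b3 * i3
  have e0 : F2 N k * ((-1) ^ k * (bn (N - 1) k : ℤ_[2]) ^ 3) = b0 ^ 3 := by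
    rw [F2, h0]
    have : ((-1 : ℤ_[2]) ^ k) ^ 3 * (-1) ^ k = 1 := by
      calc ((-1 : ℤ_[2]) ^ k) ^ 3 * (-1) ^ k = ((-1) ^ k * (-1) ^ k) * ((-1) ^ k * (-1) ^ k) := by ring
        _ = 1 := by rw [pk]; norm_num
    linear_combination ((PhiL 2 N 0).eval (k : ℤ_[2]) ^ 3 * (bn (N - 1) k : ℤ_[2]) ^ 3) * this
  have e1 : b1 ^ 3 = -(b0 ^ 3 * f2 N k) := by rw [c1, f2]; ring
  have e2 : b2 ^ 3 = b0 ^ 3 * (8 * x2 N k) := by rw [c2, c1, x2]; ring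
  have e3 : b3 ^ 3 = -(b0 ^ 3 * (8 * x2 N k) * s2 N k) := by rw [c3, mul_pow, e2, s2]; ring
  rw [e1, e2, e3, I2, ← e0]
  ring

lemma L2_rec (n : ℕ) (g : ℕ → ℤ_[2]) :
    L2 (mm 2 N + 1) (4 * n) g = L2 N n (fun k => F2 N k * I2 N g k) := by
  rw [L2, sum_range_mul', L2]
  refine Finset.sum_congr rfl fun k _ => ?_
  rw [← block2 hN g k]
  simp only [Finset.sum_range_succ, Finset.sum_range_zero, zero_add]
  rw [add_comm 1 (4 * k), add_comm 2 (4 * k), add_comm 3 (4 * k)]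

end

lemma f2_cg (N : ℕ) : Cg2 16 (f2 N) := by
  have h1 : Cg2 16 (fun k => (4 * (N : ℤ_[2]) - 1) + 4 * k) := by
    have := Cg2.lin (4 * (N : ℤ_[2]) - 1) 4
    norm_num at this ⊢; exact this
  have h2 : Cg2 16 (fun k => iv 2 (1 + 4 * k)) := by
    have := Cg2_iv (a := 1) (b := 4) (Or.inl rfl) (Or.inr rfl)
    norm_num at this ⊢; exact this
  exact (h1.mul h2).pow3.neg

lemma s2_cg (N : ℕ) : Cg2 16 (s2 N) := by
  have h1 : Cg2 16 (fun k => (4 * (N : ℤ_[2]) + 1) + 4 * k) := by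
    have := Cg2.lin (4 * (N : ℤ_[2]) + 1) 4
    norm_num at this ⊢; exact this
  have h2 : Cg2 16 (fun k => iv 2 (3 + 4 * k)) := by
    have := Cg2_iv (a := 3) (b := 4) (Or.inr rfl) (Or.inr rfl)
    norm_num at this ⊢; exact this
  exact (h1.mul h2).pow3.neg

lemma x2_cg (N : ℕ) : Cg2 4 (x2 N) := by
  have h1 : Cg2 4 (fun k => (4 * (N : ℤ_[2]) - 1) + 4 * k) := by
    have := Cg2.lin (4 * (N : ℤ_[2]) - 1) 4
    exact Cg2.mono ⟨4, by norm_num⟩ this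
  have h2 : Cg2 4 (fun k => iv 2 (1 + 4 * k)) := by
    have := Cg2_iv (a := 1) (b := 4) (Or.inl rfl) (Or.inr rfl)
    exact Cg2.mono ⟨4, by norm_num⟩ this
  have h3 : Cg2 4 (fun k => (N : ℤ_[2]) + k) := by
    have := Cg2.lin (N : ℤ_[2]) 1
    simpa using this
  have h4 : Cg2 4 (fun k => iv 2 (1 + 2 * k)) := by
    have := Cg2_iv (a := 1) (b := 2) (Or.inl rfl) (Or.inl rfl)
    exact Cg2.mono ⟨2, by norm_num⟩ this
  exact ((h3.mul h4).mul (h1.mul h2)).pow3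

lemma sub_cg {g : ℕ → ℤ_[2]} (hg : Cg2 8 g) (c : ℕ) : Cg2 16 (fun k => g (4 * k + c)) := by
  intro k j
  have h := hg (4 * k + c) (4 * j)
  have e : 4 * (k + 4 * j) + c = 4 * k + c + 4 * (4 * j) := by ring
  simp only [e]
  refine dvd_trans ⟨2, ?_⟩ h
  push_cast; ring

lemma I2_cg (N : ℕ) {g : ℕ → ℤ_[2]} (hg : Cg2 8 g) : Cg2 16 (I2 N g) := by
  have a0 := sub_cg hg 0
  have a1 := sub_cg hg 1
  have a2 := sub_cg hg 2
  have a3 := sub_cg hg 3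
  have b1 := a0.add ((f2_cg N).mul a1)
  have b2 : Cg2 4 (fun k => x2 N k * (g (4 * k + 2) + s2 N k * g (4 * k + 3))) :=
    (x2_cg N).mul ((a2.add ((s2_cg N).mul a3)).mono ⟨4, by norm_num⟩)
  have b3 := (b2.smul (e := 8)).mono (d := 16) ⟨2, by norm_num⟩
  exact b1.add b3

lemma F2_cg (N : ℕ) : Cg2 8 (F2 N) := by
  have h1 : Cg2 8 (fun k => (-1) ^ k * (PhiL 2 N 0).eval (k : ℤ_[2])) := by
    intro k j
    have h2 := Rs_eval_sub (PhiL_mem (p := 2) (N := N) 0) ((k + 4 * j : ℕ) : ℤ_[2]) (k : ℤ_[2])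
    have e : (-1 : ℤ_[2]) ^ (k + 4 * j) = (-1) ^ k := by
      rw [pow_add, pow_mul]; norm_num
    simp only
    rw [e, ← mul_sub]
    apply Dvd.dvd.mul_left
    convert h2 using 1
    push_cast; ring
  exact h1.pow3

end Pool.Agent.Helper93.Sun
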