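import Mathlib
import Pool.Agent.Helper93.Sun23

set_option autoImplicit false

namespace Pool.Agent.Helper93.Sun

open Polynomial Finset

lemma f2_mod (N k : ℕ) : (4 : ℤ_[2]) ∣ f2 N k - 1 := by
  have i1 : ((1 + 4 * k : ℕ) : ℤ_[2]) * iv 2 (1 + 4 * k) = 1 := iv_mul (by omega)
  push_cast at i1
  set u := iv 2 (1 + 4 * k)
  -- (4N-1+4k) u = -1 + 4 w
  have hx : (4 * (N : ℤ_[2]) - 1 + 4 * k) * u = -1 + 4 * ((N + 2 * k) * u) := by
    linear_combination (-1 : ℤ_[2]) * i1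
  rw [f2, hx]
  set w := ((N : ℤ_[2]) + 2 * k) * u
  exact ⟨-3 * w + 12 * w ^ 2 - 16 * w ^ 3, by ring⟩

lemma F2_mod {N : ℕ} (hN : 1 ≤ N) (hodd : ¬ 2 ∣ N) (k : ℕ) : (4 : ℤ_[2]) ∣ F2 N k - 1 := by
  obtain ⟨y, hy⟩ := P0_mod hN hodd k
  have pk : (-1 : ℤ_[2]) ^ k * (-1 : ℤ_[2]) ^ k = 1 := by rw [← mul_pow]; norm_num
  have hx : (-1 : ℤ_[2]) ^ k * (PhiL 2 N 0).eval (k : ℤ_[2]) = 1 + 4 * ((-1) ^ k * y) := by
    linear_combination (-1 : ℤ_[2]) ^ k * hy + pk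
  rw [F2, hx]
  set w := (-1 : ℤ_[2]) ^ k * y
  exact ⟨3 * w + 12 * w ^ 2 + 16 * w ^ 3, by ring⟩

lemma I2_mod (N : ℕ) {g : ℕ → ℤ_[2]} (hg : Lam2 g) (k : ℕ) :
    (4 : ℤ_[2]) ∣ I2 N g k - (g 0 + g 1) := by
  obtain ⟨y, hy⟩ := f2_mod N k
  have h0 : (4 : ℤ_[2]) ∣ g (4 * k) - g 0 := by
    have := hg.2 0 k
    rw [zero_add] at this
    exact (Dvd.intro _ (by ring : (4 : ℤ_[2]) * (2 * k) = 8 * k)).trans this
  have h1 : (4 : ℤ_[2]) ∣ g (4 * k + 1) - g 1 := by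
    have := hg.2 1 k
    rw [add_comm 1] at this
    exact (Dvd.intro _ (by ring : (4 : ℤ_[2]) * (2 * k) = 8 * k)).trans this
  obtain ⟨a, ha⟩ := h0
  obtain ⟨b, hb⟩ := h1
  refine ⟨a + b + y * g (4 * k + 1) + 2 * (x2 N k * (g (4 * k + 2) + s2 N k * g (4 * k + 3))), ?_⟩
  rw [I2]
  linear_combination ha + hb + g (4 * k + 1) * hy

lemma U2_class {N : ℕ} (hN : 1 ≤ N) (hodd : ¬ 2 ∣ N) {g : ℕ → ℤ_[2]} (hg : Lam2 g) :
    ∃ g' : ℕ → ℤ_[2], Lam2 g' ∧ ∀ k, F2 N k * I2 N g k = 2 * g' k := by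
  have hev : ∀ k, (2 : ℤ_[2]) ∣ I2 N g k := by
    intro k
    have h1 := (Dvd.intro _ (by norm_num : (2 : ℤ_[2]) * 2 = 4)).trans (I2_mod N hg k)
    have h2 : (2 : ℤ_[2]) ∣ g 0 + g 1 := by
      have := dvd_add (hg.1 1) (dvd_mul_right (2 : ℤ_[2]) (g 0))
      convert this using 1; ring
    have := dvd_add h1 h2
    rwa [sub_add_cancel] at this
  have hall : ∀ k, ∃ y, F2 N k * I2 N g k = 2 * y := by
    intro k
    obtain ⟨y, hy⟩ := hev k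
    exact ⟨F2 N k * y, by rw [hy]; ring⟩
  choose g' hg' using hall
  have h2ne : (2 : ℤ_[2]) ≠ 0 := by norm_num
  refine ⟨g', ⟨?_, ?_⟩, hg'⟩
  · intro k
    have hm : ∀ k, (4 : ℤ_[2]) ∣ F2 N k * I2 N g k - (g 0 + g 1) := by
      intro k
      have h1 := F2_mod hN hodd k
      have h2 := I2_mod N hg k
      have := dvd_add (Dvd.dvd.mul_right h1 (I2 N g k)) h2
      convert this using 1; ring
    have h3 := dvd_sub (hm k) (hm 0)
    rw [hg' k, hg' 0] at h3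
    have h4 : (2 : ℤ_[2]) * 2 ∣ 2 * (g' k - g' 0) := by
      convert h3 using 1
      · norm_num
      · ring
    exact (mul_dvd_mul_iff_left h2ne).1 h4
  · intro k j
    have h1 := F2_cg N k j
    have h2 := I2_cg N hg.2 k j
    have h3 := mul_dvd_mul h1 (hev (k + 4 * j))
    have h4 := Dvd.dvd.mul_left h2 (F2 N k)
    have h5 : (16 : ℤ_[2]) * j ∣ F2 N (k + 4 * j) * I2 N g (k + 4 * j) - F2 N k * I2 N g k := by
      have e : (8 : ℤ_[2]) * j * 2 = 16 * j := by ring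
      rw [e] at h3
      have := dvd_add h3 h4
      convert this using 1; ring
    rw [hg' k, hg' (k + 4 * j)] at h5
    have h6 : (2 : ℤ_[2]) * (8 * j) ∣ 2 * (g' (k + 4 * j) - g' k) := by
      convert h5 using 1 <;> ring
    exact (mul_dvd_mul_iff_left h2ne).1 h6

lemma base2 {N : ℕ} (hN : 1 ≤ N) {g : ℕ → ℤ_[2]} (hg : Lam2 g) (m : ℕ) :
    (2 : ℤ_[2]) ∣ L2 (mm 2 N + 1) (2 * m) g := by
  rw [L2, sum_range_mul']
  apply Finset.dvd_sum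
  intro k _
  simp only [Finset.sum_range_succ, Finset.sum_range_zero, zero_add]
  simp only [W2, Nat.add_sub_cancel]
  have h1 := bn2 hN (2 * k)
  rw [add_comm 1 (2 * k)]
  have p0 : (-1 : ℤ_[2]) ^ (2 * k) = 1 := by rw [pow_mul]; norm_num
  have p1 : (-1 : ℤ_[2]) ^ (2 * k + 1) = -1 := by rw [pow_succ, p0]; norm_num
  rw [p0, p1]
  push_cast at h1
  set b0 := (bn (mm 2 N) (2 * k) : ℤ_[2])
  set b1 := (bn (mm 2 N) (2 * k + 1) : ℤ_[2])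
  have hb : b1 = b0 + 2 * (b0 * (2 * N - 1 + k) - b1 * k) := by linear_combination h1
  obtain ⟨x, hx⟩ := hg.1 (2 * k)
  obtain ⟨y, hy⟩ := hg.1 (2 * k + 1)
  set w := b0 * (2 * N - 1 + k) - b1 * k
  have hx' : g (2 * k) = g 0 + 2 * x := by linear_combination hx
  have hy' : g (2 * k + 1) = g 0 + 2 * y := by linear_combination hy
  rw [hx', hy', hb]
  refine ⟨b0 ^ 3 * x - (b0 + 2 * w) ^ 3 * y - (3 * b0 ^ 2 * w + 6 * b0 * w ^ 2 + 4 * w ^ 3) * g 0, ?_⟩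
  ring

lemma main2 (a : ℕ) : ∀ T, a + 1 ≤ T → ∀ g : ℕ → ℤ_[2], Lam2 g → ∀ m : ℕ,
    (2 : ℤ_[2]) ^ (a + 1) ∣ L2 (Ns 2 T) (2 ^ (2 * a + 1) * m) g := by
  induction a with
  | zero =>
    intro T hT g hg m
    obtain ⟨T, rfl⟩ : ∃ T', T = T' + 1 := ⟨T - 1, by omega⟩
    rw [show Ns 2 (T + 1) = mm 2 (Ns 2 T) + 1 from rfl]
    simpa using base2 (Ns_pos (p := 2) T) hg m
  | succ a ih =>
    intro T hT g hg m
    obtain ⟨T, rfl⟩ : ∃ T', T = T' + 1 := ⟨T - 1, by omega⟩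
    obtain ⟨g', hg', he⟩ := U2_class (Ns_pos (p := 2) T) (Ns_ndvd (p := 2) T) hg
    have e2 : 2 ^ (2 * (a + 1) + 1) * m = 4 * (2 ^ (2 * a + 1) * m) := by ring
    have e1 : Ns 2 (T + 1) = mm 2 (Ns 2 T) + 1 := rfl
    rw [e1, e2, L2_rec (Ns_pos (p := 2) T)]
    have e3 : (fun k => F2 (Ns 2 T) k * I2 (Ns 2 T) g k) = fun k => 2 * g' k := funext he
    rw [e3, L2_mul, pow_succ, mul_comm]
    exact mul_dvd_mul_left _ (ih T (by omega) g' hg' m)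

/-- the statement for `p = 2` -/
lemma two_case (n : ℕ) :
    Sq 2 n = 0 ∨ ((1 * ((padicValNat 2 n + 1) / 2) : ℕ) : ℤ) ≤ padicValRat 2 (Sq 2 n) := by
  apply lim_aux
  have hsum : ∀ T, ∑ k ∈ range n, ((-1) ^ k * (bn (Ns 2 T - 1) k : ℤ_[2])) ^ (2 + 1) =
      L2 (Ns 2 T) n (fun _ => 1) := by
    intro T
    rw [L2]
    refine Finset.sum_congr rfl fun k _ => ?_
    rw [W2]
    have pk : (-1 : ℤ_[2]) ^ k * (-1 : ℤ_[2]) ^ k = 1 := by rw [← mul_pow]; norm_num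
    linear_combination ((-1) ^ k * (bn (Ns 2 T - 1) k : ℤ_[2]) ^ 3) * pk
  have hone : Lam2 (fun _ => 1) := by
    constructor
    · intro k; simp
    · intro k j; simp
  rcases Nat.eq_zero_or_pos ((padicValNat 2 n + 1) / 2) with h0 | h0
  · exact ⟨0, fun T _ => by rw [h0]; simp⟩
  · obtain ⟨a, ha⟩ : ∃ a, (padicValNat 2 n + 1) / 2 = a + 1 := ⟨(padicValNat 2 n + 1) / 2 - 1, by omega⟩
    have hdvd : 2 ^ (2 * a + 1) ∣ n := (pow_dvd_pow 2 (by omega)).trans pow_padicValNat_dvd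
    obtain ⟨m, hm⟩ := hdvd
    refine ⟨a + 1, fun T hT => ?_⟩
    rw [hsum, ha, one_mul]
    have := main2 a T hT _ hone m
    rw [← hm] at this
    exact_mod_cast this

end Pool.Agent.Helper93.Sun
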